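import Pool.Agent.H71SC.Fin2

/-! # Criteria for ramified sections -/

set_option autoImplicit false
set_option linter.all false

open Polynomial FF Pool.Agent.Y157.PS

namespace Pool.Agent.H71SC

section crit

variable {A k F Ω : Type} [CommRing A] [IsDomain A] [IsDiscreteValuationRing A]
    [IsAdicComplete (IsLocalRing.maximalIdeal A) A]
    [Finite (IsLocalRing.ResidueField A)] [Field k] [CharZero k] [Algebra A k] [IsFractionRing A k]
    [Field F] [Field Ω] [Algebra k F] [Algebra F Ω] [Algebra k Ω] [IsScalarTower k F Ω]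
    [IsAlgClosed Ω]

theorem crit_y {ℓ : ℕ} [Fact ℓ.Prime] (hℓ : IsUnit (ℓ : A)) (X : Ω) (N M₀ : IntermediateField F Ω)
    (hM₀N : M₀ ≤ N) (hκ : ∀ c : algebraicClosure k Ω, (c : Ω) ∈ M₀) (O : ValuationSubring Ω)
    (hO : GaussO A k X O)
    (S : (algebraicClosure k Ω ≃ₐ[k] algebraicClosure k Ω) →* (N ≃ₐ[F] N))
    (hcompat : ∀ σ (c : algebraicClosure k Ω) (z : N), (z : Ω) = (c : Ω) →
      (S σ z : Ω) = (σ c : Ω))
    (hL : ∀ σ : algebraicClosure k Ω ≃ₐ[k] algebraicClosure k Ω,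
      (∀ c : algebraicClosure k Ω, (c : Ω) ∈ O → ((σ c - c : algebraicClosure k Ω) : Ω) ∈
        O.nonunits) → ∀ z : N, (z : Ω) ∈ M₀ → (z : Ω) ∈ O → ((S σ z - z : N) : Ω) ∈ O.nonunits)
    (ϖ : A) (hϖ : Irreducible ϖ) (d : k) (m : ℤ) (hm : ¬ (ℓ : ℤ) ∣ m)
    (t : A) (ht : IsUnit t) (hd : d = algebraMap A k t * algebraMap A k ϖ ^ m)
    (g : A[X]) (hg : IsUnit g.leadingCoeff) (y : N) (hyM : (y : Ω) ∈ M₀)
    (hfix : ∀ σ, S σ y = y)
    (hy : algebraMap k Ω d * (y : Ω) ^ ℓ = aeval X (g.map (algebraMap A k))) : False := by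
  have hp := (Fact.out : ℓ.Prime).pos
  have hac : IsAlgClosure k (algebraicClosure k Ω) := inferInstance
  have hkb : IsAlgClosed (algebraicClosure k Ω) := hac.1
  letI : Algebra A (algebraicClosure k Ω) :=
    ((algebraMap k (algebraicClosure k Ω)).comp (algebraMap A k)).toAlgebra
  haveI hst : IsScalarTower A k (algebraicClosure k Ω) :=
    IsScalarTower.of_algebraMap_eq (fun _ => rfl)
  obtain ⟨V, hVa', hVm', hdec⟩ := V_setup A (k := k) (κ := algebraicClosure k Ω)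
  have hVa : ∀ a : A, algebraMap A (algebraicClosure k Ω) a ∈ V := hVa'
  have hVm : ∀ a ∈ IsLocalRing.maximalIdeal A, algebraMap A (algebraicClosure k Ω) a ∈
      V.nonunits := hVm'
  have hmemO := gaussO_mem hVa' hVm' hdec hO
  have hnonO := gaussO_non hmemO
  have hunit : ∀ b : A, IsUnit b → IsU V (algebraMap A (algebraicClosure k Ω) b) := by
    rintro b ⟨b, rfl⟩
    refine ⟨(b.isUnit.map (algebraMap A (algebraicClosure k Ω))).ne_zero, hVa _, ?_⟩
    have h1 : (algebraMap A (algebraicClosure k Ω) (b : A))⁻¹ =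
        algebraMap A (algebraicClosure k Ω) ((b⁻¹ : Aˣ) : A) := by
      refine inv_eq_of_mul_eq_one_right ?_
      rw [← map_mul, Units.mul_inv, map_one]
    rw [h1]
    exact hVa _
  have hAk : Function.Injective (algebraMap A k) := IsFractionRing.injective A k
  have hϖ0 : algebraMap A (algebraicClosure k Ω) ϖ ≠ 0 := by
    rw [IsScalarTower.algebraMap_apply A k]
    refine (_root_.map_ne_zero _).2 ?_
    rw [Ne, map_eq_zero_iff _ hAk]
    exact hϖ.ne_zero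
  obtain ⟨δ, hδ⟩ : ∃ δ : algebraicClosure k Ω, δ ^ ℓ = algebraMap k (algebraicClosure k Ω) d :=
    IsAlgClosed.exists_pow_nat_eq _ hp
  have hBase : Base ℓ A k (algebraicClosure k Ω) V ϖ δ m := by
    refine ⟨hℓ, hVa, hVm, hϖ, hm, ⟨_, hδ⟩, ?_⟩
    have h1 : δ ^ ℓ / algebraMap A (algebraicClosure k Ω) ϖ ^ m =
        algebraMap A (algebraicClosure k Ω) t := by
      have h5 : algebraMap A (algebraicClosure k Ω) ϖ ^ m ≠ 0 := zpow_ne_zero _ hϖ0
      rw [hδ, hd, map_mul, map_zpow₀, ← IsScalarTower.algebraMap_apply,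
        ← IsScalarTower.algebraMap_apply]
      field_simp
    rw [h1]
    exact hunit t ht
  have hδ0 : δ ≠ 0 := hBase.δ0
  have hgU : IsU O (aeval X (g.map (algebraMap A k))) := by
    have h1 := gaussO_spec hVa' hVm' hdec hO (g.map (algebraMap A (algebraicClosure k Ω)))
      (fun n => by rw [coeff_map]; exact hVa _)
      ⟨g.natDegree, by rw [coeff_map]; exact hunit _ hg⟩
    have h2 : aeval X (g.map (algebraMap A (algebraicClosure k Ω))) =
        aeval X (g.map (algebraMap A k)) := by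
      rw [aeval_def, aeval_def, eval₂_map, eval₂_map, IsScalarTower.algebraMap_eq A k
        (algebraicClosure k Ω), ← RingHom.comp_assoc,
        ← IsScalarTower.algebraMap_eq k (algebraicClosure k Ω) Ω]
    rwa [h2] at h1
  let δN : N := ⟨(δ : Ω), hM₀N (hκ δ)⟩
  have hzM : ((δN * y : N) : Ω) ∈ M₀ := mul_mem (hκ δ) hyM
  have hzl : ((δN * y : N) : Ω) ^ ℓ = aeval X (g.map (algebraMap A k)) := by
    have h1 : ((δN * y : N) : Ω) = (δ : Ω) * (y : Ω) := rfl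
    have h2 : (δ : Ω) ^ ℓ = algebraMap k Ω d := by
      have h3 := congrArg (algebraMap (algebraicClosure k Ω) Ω) hδ
      rw [map_pow, ← IsScalarTower.algebraMap_apply] at h3
      exact h3
    rw [h1, mul_pow, h2, hy]
  have hzU : IsU O ((δN * y : N) : Ω) := isU_of_pow hp (by rw [hzl]; exact hgU)
  obtain ⟨-, τ, hτ, hτδ, -, -⟩ := a_tau ℓ A k (algebraicClosure k Ω) V ϖ δ m hBase
  have h1 := hL τ (fun c hc => (hnonO _).2 (hτ.2 c ((hmemO c).1 hc))) (δN * y) hzM hzU.2.1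
  have h2 : (S τ (δN * y) : Ω) = ((τ δ : algebraicClosure k Ω) : Ω) * (y : Ω) := by
    rw [map_mul, hfix]
    change (S τ δN : Ω) * (y : Ω) = _
    rw [hcompat τ δ δN rfl]
  have h3 : ((S τ (δN * y) - δN * y : N) : Ω) = ((δN * y : N) : Ω) *
      ((τ δ / δ - 1 : algebraicClosure k Ω) : Ω) := by
    have h4 : ((S τ (δN * y) - δN * y : N) : Ω) = (S τ (δN * y) : Ω) - (δ : Ω) * (y : Ω) := rfl
    have h5 : ((δN * y : N) : Ω) = (δ : Ω) * (y : Ω) := rfl
    have h6 : ((τ δ / δ - 1 : algebraicClosure k Ω) : Ω) = (τ δ : Ω) / (δ : Ω) - 1 := rfl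
    have h7 : (δ : Ω) ≠ 0 := fun h => hδ0 (Subtype.ext h)
    rw [h4, h2, h5, h6]
    field_simp
  rw [h3] at h1
  have h4 := non_of_isU_mul hzU h1
  rw [hnonO] at h4
  have h5 : τ δ / δ = 1 := Pool.Agent.Y748.PS.rou_eq_one (m := ℓ) hBase.isU (hBase.ratio τ) h4
  rw [div_eq_one_iff_eq hδ0] at h5
  exact hτδ h5

omit [IsAdicComplete (IsLocalRing.maximalIdeal A) A] [Finite (IsLocalRing.ResidueField A)]
  [IsDiscreteValuationRing A] [IsDomain A] [IsFractionRing A k] in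
/-- the action of a section on the compositum of `k̄` and `L` -/
theorem agree (N L : IntermediateField F Ω) (hLN : L ≤ N)
    (hκ : ∀ c : algebraicClosure k Ω, (c : Ω) ∈ N)
    (S : (algebraicClosure k Ω ≃ₐ[k] algebraicClosure k Ω) →* (N ≃ₐ[F] N))
    (hcompat : ∀ σ (c : algebraicClosure k Ω) (z : N), (z : Ω) = (c : Ω) →
      (S σ z : Ω) = (σ c : Ω))
    (hSL : ∀ σ, ∀ z : N, (z : Ω) ∈ L → S σ z = z)
    (σ : algebraicClosure k Ω ≃ₐ[k] algebraicClosure k Ω) (τ : Ω ≃ₐ[F] Ω)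
    (hτL : ∀ z ∈ L, τ z = z) (hτσ : ∀ c : algebraicClosure k Ω, τ (c : Ω) = (σ c : Ω))
    (w : Ω) (hw : w ∈ IntermediateField.adjoin F ((algebraicClosure k Ω : Set Ω) ∪ (L : Set Ω))) :
    ∃ h : w ∈ N, (S σ ⟨w, h⟩ : Ω) = τ w := by
  induction hw using IntermediateField.adjoin_induction with
  | mem y hy =>
    rcases hy with hy | hy
    · exact ⟨hκ ⟨y, hy⟩, by rw [hcompat σ ⟨y, hy⟩ _ rfl, ← hτσ]⟩
    · exact ⟨hLN hy, by rw [hSL σ _ hy, hτL y hy]⟩
  | algebraMap c =>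
    refine ⟨N.algebraMap_mem c, ?_⟩
    have h1 : (⟨algebraMap F Ω c, N.algebraMap_mem c⟩ : N) = algebraMap F N c := rfl
    rw [h1, (S σ).commutes, τ.commutes]
    rfl
  | add a b _ _ ha hb =>
    obtain ⟨ha1, ha2⟩ := ha
    obtain ⟨hb1, hb2⟩ := hb
    refine ⟨add_mem ha1 hb1, ?_⟩
    have h1 : (⟨a + b, add_mem ha1 hb1⟩ : N) = ⟨a, ha1⟩ + ⟨b, hb1⟩ := rfl
    rw [h1, map_add, map_add, ← ha2, ← hb2]
    rfl
  | inv a _ ha =>
    obtain ⟨ha1, ha2⟩ := ha
    refine ⟨inv_mem ha1, ?_⟩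
    have h1 : (⟨a⁻¹, inv_mem ha1⟩ : N) = (⟨a, ha1⟩ : N)⁻¹ := rfl
    rw [h1, map_inv₀, map_inv₀, ← ha2]
    rfl
  | mul a b _ _ ha hb =>
    obtain ⟨ha1, ha2⟩ := ha
    obtain ⟨hb1, hb2⟩ := hb
    refine ⟨mul_mem ha1 hb1, ?_⟩
    have h1 : (⟨a * b, mul_mem ha1 hb1⟩ : N) = ⟨a, ha1⟩ * ⟨b, hb1⟩ := rfl
    rw [h1, map_mul, map_mul, ← ha2, ← hb2]
    rfl

end crit

end Pool.Agent.H71SC
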