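import Pool.Agent.Y157.PS.All

/-!
# The maximal pro-`ℓ` extension of `κ(x)` with ramification indices dividing `ℓ`

Let `M` be a covering field, `κ(x) ⊆ M`.  Subfields of `M` with ramification indices `ℓ` have `M` as
maximal unramified pro-`ℓ` extension.
-/

set_option autoImplicit false
set_option linter.all false

open Polynomial FF Pool.Agent.Y157.PS

namespace Pool.Agent.H71SC

section eqm

variable {κ R Ω : Type} [Field κ] [IsAlgClosed κ] [CharZero κ] [Field R] [Field Ω] [Algebra κ R]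
  [Algebra R Ω] [Algebra κ Ω] [IsScalarTower κ R Ω] {ℓ : ℕ} [Fact ℓ.Prime]
  {x : R} {B : Finset κ} {M : IntermediateField R Ω} {Y : M}

/-- roots with divisor divisible by `ℓ` -/
theorem root_mem (hC : Cov ℓ κ R M x B Y) {h : Ω} {g : M} (hg : (g : Ω) = h ^ ℓ) (hg0 : g ≠ 0)
    (hW : ∀ W : Place κ M, (ℓ : ℤ) ∣ W.ord g) : h ∈ M := by
  obtain ⟨h', hh'⟩ := hC.root g hg0 hW
  have hp := (Fact.out : ℓ.Prime).pos
  have h0 : (h' : Ω) ≠ 0 := by
    intro h0
    have h1 : h' = 0 := Subtype.ext h0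
    rw [h1, zero_pow hp.ne'] at hh'
    exact hg0 hh'.symm
  have h1 : (h / (h' : Ω)) ^ ℓ = algebraMap κ Ω 1 := by
    rw [div_pow, ← hg, ← hh', map_one]
    push_cast
    exact div_self (pow_ne_zero _ h0)
  obtain ⟨c, hc, -⟩ := const_of_pow (κ := κ) hp h1
  have h2 : h = algebraMap κ Ω c * (h' : Ω) := by rw [hc, div_mul_cancel₀ _ h0]
  rw [h2]
  refine mul_mem ?_ h'.2
  rw [IsScalarTower.algebraMap_apply κ R Ω]
  exact M.algebraMap_mem _

/-- values -/
theorem ord_eq {W : Place κ M} {V : ValuationSubring Ω}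
    (hV : V.comap (algebraMap M Ω) = W.O) {a b : M} (ha : a ≠ 0) (hb : b ≠ 0)
    (h : IsU V ((a : Ω) / (b : Ω))) : W.ord a = W.ord b := by
  have h1 : a / b ∈ W.O := by
    rw [← hV, ValuationSubring.mem_comap]
    exact h.2.1
  have h2 : b / a ∈ W.O := by
    rw [← hV, ValuationSubring.mem_comap]
    have h3 := h.2.2
    rw [inv_div] at h3
    exact h3
  rw [O_iff W (div_ne_zero ha hb), W.ord_div ha hb] at h1
  rw [O_iff W (div_ne_zero hb ha), W.ord_div hb ha] at h2
  omega

theorem le_of_val (hC : Cov ℓ κ R M x B Y) {K : Type} [Field K] [CharZero K] [Algebra K Ω]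
    (hK : ∀ c : K, algebraMap K Ω c ∈ M) (hκK : ∀ c : κ, ∃ c' : K, algebraMap K Ω c' =
      algebraMap κ Ω c) (L : IntermediateField K Ω) (hL : Lev ℓ L)
    (hval : ∀ (W : Place κ M) (V : ValuationSubring Ω), V.comap (algebraMap M Ω) = W.O →
      ∀ h ∈ L, ∀ g : M, (g : Ω) = h ^ ℓ → g ≠ 0 → (ℓ : ℤ) ∣ W.ord g) :
    ∀ z ∈ L, z ∈ M := by
  have hp := (Fact.out : ℓ.Prime).pos
  let S : IntermediateField K L :=
    { carrier := {h : L | (h : Ω) ∈ M}
      mul_mem' := fun {a b} ha hb => mul_mem (S := IntermediateField R Ω) ha hb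
      add_mem' := fun {a b} ha hb => add_mem (S := IntermediateField R Ω) ha hb
      algebraMap_mem' := fun r => hK r
      inv_mem' := fun a ha => inv_mem (S := IntermediateField R Ω) ha }
  have hS : ∀ h : L, h ∈ S ↔ (h : Ω) ∈ M := fun h => Iff.rfl
  have hprim : ∃ ζ : K, IsPrimitiveRoot ζ ℓ := by
    haveI : NeZero ℓ := ⟨(Fact.out : ℓ.Prime).ne_zero⟩
    haveI : NeZero (ℓ : κ) := ⟨Nat.cast_ne_zero.2 (Fact.out : ℓ.Prime).ne_zero⟩
    obtain ⟨ζ, hζ⟩ := HasEnoughRootsOfUnity.exists_primitiveRoot κ ℓ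
    obtain ⟨ζ', hζ'⟩ := hκK ζ
    have h1 : IsPrimitiveRoot (algebraMap K Ω ζ') ℓ := by
      rw [hζ']
      exact hζ.map_of_injective (algebraMap κ Ω).injective
    exact ⟨ζ', IsPrimitiveRoot.of_map_of_injective h1 (algebraMap K Ω).injective⟩
  have hgal := hL.gal
  have hfin := hL.fin
  have htop := a_prol ℓ K L hprim hgal (fun z => ⟨⊤, trivial, by
      obtain ⟨m, hm⟩ := hL.card
      haveI : FiniteDimensional K (⊤ : IntermediateField K L) := inferInstance
      refine ⟨inferInstance, ?_, m, ?_⟩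
      · exact IsGalois.of_algEquiv (IntermediateField.topEquiv (F := K) (E := L)).symm
      · rw [IntermediateField.finrank_top', hm]⟩) S (by
    intro h hh
    by_cases h0 : h = 0
    · rw [h0]; exact zero_mem _
    rw [hS] at hh ⊢
    have hpow : ((h ^ ℓ : L) : Ω) = (h : Ω) ^ ℓ := by push_cast; rfl
    rw [hpow] at hh
    refine root_mem hC (g := ⟨_, hh⟩) rfl ?_ ?_
    · intro h1
      have h2 : (h : Ω) ^ ℓ = 0 := congrArg Subtype.val h1
      exact h0 (Subtype.ext (pow_eq_zero_iff hp.ne' |>.1 h2))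
    · intro W
      obtain ⟨V, hV⟩ := a_extv M Ω W.O
      refine hval W V hV (h : Ω) h.2 _ rfl ?_
      intro h1
      have h2 : (h : Ω) ^ ℓ = 0 := congrArg Subtype.val h1
      exact h0 (Subtype.ext (pow_eq_zero_iff hp.ne' |>.1 h2)))
  intro z hz
  have h1 : (⟨z, hz⟩ : L) ∈ S := by rw [htop]; trivial
  exact h1

theorem const_in {W : Place κ M} {V : ValuationSubring Ω}
    (hV : V.comap (algebraMap M Ω) = W.O) (c : κ) : algebraMap κ Ω c ∈ V := by
  have h1 : algebraMap κ M c ∈ W.O := W.reg_const c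
  rw [← hV, ValuationSubring.mem_comap] at h1
  exact h1

theorem M_const (c : κ) : algebraMap κ Ω c ∈ M := by
  rw [IsScalarTower.algebraMap_apply κ R Ω]
  exact M.algebraMap_mem _

/-- unramified pro-`ℓ` extensions of subfields of `M` are in `M` -/
theorem le_unr (hC : Cov ℓ κ R M x B Y) (K : IntermediateField R Ω) (hK : K ≤ M)
    (L : IntermediateField K Ω) (hL : Lev ℓ L) (hU : Unr κ K Ω L) : ∀ z ∈ L, z ∈ M := by
  haveI : CharZero K := charZero_of_injective_algebraMap (algebraMap κ K).injective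
  refine le_of_val hC (K := K) (fun c => hK c.2) (fun c => ⟨algebraMap κ K c, rfl⟩) L hL ?_
  intro W V hV h hh g hg hg0
  have hp := (Fact.out : ℓ.Prime).pos
  have hh0 : h ≠ 0 := by
    rintro rfl
    rw [zero_pow hp.ne'] at hg
    exact hg0 (Subtype.ext hg)
  obtain ⟨t, ht, hu⟩ := hU V (const_in hV) h hh hh0
  have ht' : (t : Ω) ≠ 0 := fun h => ht (Subtype.ext h)
  have h1 : W.ord g = W.ord ((⟨t, hK t.2⟩ : M) ^ ℓ) := by
    refine ord_eq hV hg0 (pow_ne_zero _ fun h => ht' (congrArg Subtype.val h)) ?_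
    have h2 : (((⟨t, hK t.2⟩ : M) ^ ℓ : M) : Ω) = (t : Ω) ^ ℓ := by push_cast; rfl
    rw [hg, h2, ← div_pow]
    exact Pool.Agent.Y748.PS.isU_pow hu ℓ
  rw [h1, W.ord_pow]
  exact dvd_mul_right _ _

/-- ramification indices divide `ℓ` above `B`, and there is no other ramification -/
def RamB (ℓ : ℕ) (κ R : Type) {Ω : Type} [Field κ] [Field R] [Field Ω] [Algebra κ Ω] [Algebra R Ω]
    (x : R) (B : Finset κ) (L : IntermediateField R Ω) : Prop :=
  ∀ W : ValuationSubring Ω, (∀ c : κ, algebraMap κ Ω c ∈ W) → ∀ z ∈ L, z ≠ 0 →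
    ∃ t : R, t ≠ 0 ∧ (IsU W (z / algebraMap R Ω t) ∨
      ((∃ e ∈ B, algebraMap R Ω x - algebraMap κ Ω e ∈ W.nonunits) ∧
        IsU W (z ^ ℓ / algebraMap R Ω t)))

theorem non_iff {W : Place κ M} {V : ValuationSubring Ω}
    (hV : V.comap (algebraMap M Ω) = W.O) (z : M) : z ∈ W.O.nonunits ↔ (z : Ω) ∈ V.nonunits := by
  rw [← hV, nonunits_iff, nonunits_iff, ValuationSubring.mem_comap, ValuationSubring.mem_comap,
    map_inv₀]
  have h1 : z = 0 ↔ (z : Ω) = 0 := ⟨fun h => by rw [h]; rfl, fun h => Subtype.ext h⟩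
  rw [h1]
  rfl

theorem le_ram (hC : Cov ℓ κ R M x B Y) (L : IntermediateField R Ω) (hL : Lev ℓ L)
    (hU : RamB ℓ κ R x B L) : ∀ z ∈ L, z ∈ M := by
  haveI : CharZero R := charZero_of_injective_algebraMap (algebraMap κ R).injective
  refine le_of_val hC (K := R) (fun c => M.algebraMap_mem c)
    (fun c => ⟨algebraMap κ R c, (IsScalarTower.algebraMap_apply κ R Ω c).symm⟩) L hL ?_
  intro W V hV h hh g hg hg0
  have hp := (Fact.out : ℓ.Prime).pos
  have hh0 : h ≠ 0 := by
    rintro rfl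
    rw [zero_pow hp.ne'] at hg
    exact hg0 (Subtype.ext hg)
  obtain ⟨t, ht, hu⟩ := hU V (const_in hV) h hh hh0
  have ht' : algebraMap R M t ≠ 0 := (_root_.map_ne_zero _).2 ht
  rcases hu with hu | ⟨⟨e, he, hxe⟩, hu⟩
  · have h1 : W.ord g = W.ord ((algebraMap R M t) ^ ℓ) := by
      refine ord_eq hV hg0 (pow_ne_zero _ ht') ?_
      have h2 : (((algebraMap R M t) ^ ℓ : M) : Ω) = (algebraMap R Ω t) ^ ℓ := by push_cast; rfl
      rw [hg, h2, ← div_pow]
      exact Pool.Agent.Y748.PS.isU_pow hu ℓ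
    rw [h1, W.ord_pow]
    exact dvd_mul_right _ _
  · have h1 : W.ord g = W.ord (algebraMap R M t) := by
      refine ord_eq hV hg0 ht' ?_
      rw [hg]
      exact hu
    have hne : algebraMap R M x - algebraMap κ M e ≠ 0 := by
      intro h0
      have h2 : Transcendental κ (algebraMap R M x) :=
        (transcendental_algebraMap_iff (algebraMap R M).injective).2 hC.rat.trans
      apply h2
      rw [sub_eq_zero.1 h0]
      exact isAlgebraic_algebraMap _
    have h2 : 0 < W.ord (algebraMap R M x - algebraMap κ M e) := by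
      rw [← O_non_iff W hne, non_iff hV]
      exact hxe
    have h3 : W.ord (algebraMap R M x - algebraMap κ M e) = ℓ := by
      rcases hC.loc' W with ⟨e', he', h4, h5⟩ | ⟨a, ha, h4⟩ | h4
      · by_cases hee : e' = e
        · rw [← hee]; exact h4
        · exfalso
          have h6 := ord_sub_const (W := W) (a := e') (b := e) (x := algebraMap R M x)
            (by rw [h4]; exact_mod_cast hp) hee
          omega
      · exfalso
        have hae : a ≠ e := by rintro rfl; exact ha he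
        have h6 := ord_sub_const (W := W) (a := a) (b := e) (x := algebraMap R M x)
          (by rw [h4]; exact one_pos) hae
        omega
      · exfalso
        have h6 := reg_of_pos h2
        have hx0 : algebraMap R M x ≠ 0 := by
          intro h0; rw [h0, W.ord_zero] at h4; omega
        have := (W.reg_iff hx0).1 h6
        omega
    obtain ⟨n, hn⟩ := ord_ratF (M := M) hC.rat e t ht
    rw [h1, hn W h2, h3]
    exact dvd_mul_left _ _

/-- elements of `M` are fixed by powers of automorphisms -/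
theorem pow_fix (hC : Cov ℓ κ R M x B Y) (σ : Ω ≃ₐ[R] Ω) {z : Ω} (hz : z ∈ M) :
    ∃ m : ℕ, (σ ^ (ℓ ^ m)) z = z := by
  obtain ⟨N, hzN, hN⟩ := hC.pow ⟨z, hz⟩
  have h1 := hN.fin
  have h2 := hN.gal
  obtain ⟨m, hm⟩ := hN.card
  let N' : IntermediateField R Ω := IntermediateField.lift N
  let e : N ≃ₐ[R] N' := IntermediateField.liftAlgEquiv N
  haveI : FiniteDimensional R N' := Module.Finite.equiv e.toLinearEquiv
  haveI : IsGalois R N' := IsGalois.of_algEquiv e
  have h3 : z ∈ N' := (IntermediateField.mem_lift (⟨z, hz⟩ : M)).2 hzN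
  refine ⟨m, ?_⟩
  have h4 := Pool.Agent.Y529.PS.IN.level_pow N' σ h3
  have h5 : Module.finrank R N' = ℓ ^ m := by
    rw [← hm]
    exact e.toLinearEquiv.finrank_eq.symm
  rwa [h5] at h4

theorem le_maxPro [Algebra.IsAlgebraic R Ω] [Normal R Ω] (hC : Cov ℓ κ R M x B Y)
    (K : IntermediateField R Ω)
    (hK : K ≤ M)
    (hun : ∀ W : ValuationSubring Ω, (∀ c : κ, algebraMap κ Ω c ∈ W) → ∀ e ∈ B,
      algebraMap R Ω x - algebraMap κ Ω e ∈ W.nonunits →
      ∃ t ∈ K, t ≠ 0 ∧ IsU W (t ^ ℓ / (algebraMap R Ω x - algebraMap κ Ω e))) :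
    ∀ z ∈ M, z ∈ maxPro ℓ κ K Ω := by
  intro z hz
  have hp := (Fact.out : ℓ.Prime).pos
  haveI : CharZero K := charZero_of_injective_algebraMap (algebraMap κ K).injective
  haveI : Normal K Ω := Normal.tower_top_of_normal R K Ω
  haveI := hC.gal
  let S : IntermediateField K Ω := IntermediateField.extendScalars hK
  have hS : ∀ y, y ∈ S ↔ y ∈ M := fun y => IntermediateField.mem_extendScalars hK
  have hres : ∀ (σ : Ω ≃ₐ[K] Ω) (j : ℕ) (w : Ω), (σ ^ j) w = ((σ.restrictScalars R) ^ j) w := by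
    intro σ j
    induction j with
    | zero => intro w; simp
    | succ j ih =>
      intro w
      rw [pow_succ, AlgEquiv.mul_apply, ih, pow_succ, AlgEquiv.mul_apply]
      rfl
  obtain ⟨N, hzN, hNS, hN⟩ := Pool.Agent.Y948.PS.exists_lev (ℓ := ℓ) S
    (fun σ y hy => (hS _).2 (Pool.Agent.Y529.PS.IN.level_mem M (σ.restrictScalars R) ((hS y).1 hy)))
    (fun θ hθ σ => by
      obtain ⟨k, hk⟩ := pow_fix hC (σ.restrictScalars R) ((hS θ).1 hθ)
      refine ⟨k, ?_⟩
      rw [hres]
      exact hk)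
    ((hS z).2 hz)
  have hNu : Unr κ K Ω N := by
    intro W hκ w hw hw0
    have hwM : w ∈ M := (hS _).1 (hNS hw)
    by_cases htop : W.comap (algebraMap M Ω) = ⊤
    · have h1 : ∀ y : M, (y : Ω) ∈ W := by
        intro y
        have h2 : y ∈ W.comap (algebraMap M Ω) := by rw [htop]; trivial
        exact h2
      refine ⟨1, one_ne_zero, ?_, ?_, ?_⟩
      · rw [map_one, div_one]; exact hw0
      · rw [map_one, div_one]; exact h1 ⟨w, hwM⟩
      · rw [map_one, div_one]; exact h1 ((⟨w, hwM⟩ : M)⁻¹)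
    · obtain ⟨P, hP, hcase⟩ := hC.loc (W.comap (algebraMap M Ω)) (fun c => hκ c) htop
      have hV : W.comap (algebraMap M Ω) = P.O := hP.symm
      have key : ∃ t : Ω, ∃ ht : t ∈ K, t ≠ 0 ∧ P.ord (⟨t, hK ht⟩ : M) = 1 := by
        have hRK : ∀ r : R, algebraMap R Ω r ∈ K := fun r => K.algebraMap_mem r
        have hκK : ∀ c : κ, algebraMap κ Ω c ∈ K := fun c => by
          rw [IsScalarTower.algebraMap_apply κ R Ω]
          exact hRK _
        rcases hcase with ⟨e, he, h1, h2⟩ | ⟨a, ha, h1⟩ | h1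
        · have hne : algebraMap R M x - algebraMap κ M e ≠ 0 := by
            intro h0
            rw [h0, P.ord_zero] at h1
            have : (0 : ℤ) < ℓ := by exact_mod_cast hp
            omega
          have h3 : algebraMap R Ω x - algebraMap κ Ω e ∈ W.nonunits := by
            have h4 : algebraMap R M x - algebraMap κ M e ∈ P.O.nonunits := by
              rw [O_non_iff P hne, h1]
              exact_mod_cast hp
            exact (non_iff hV _).1 h4
          obtain ⟨t, htK, ht0, hu⟩ := hun W hκ e he h3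
          refine ⟨t, htK, ht0, ?_⟩
          have ht0' : (⟨t, hK htK⟩ : M) ≠ 0 := fun h => ht0 (congrArg Subtype.val h)
          have h4 : P.ord ((⟨t, hK htK⟩ : M) ^ ℓ) = P.ord (algebraMap R M x - algebraMap κ M e) :=
            ord_eq hV (pow_ne_zero _ ht0') hne hu
          rw [P.ord_pow, h1] at h4
          have h5 : (ℓ : ℤ) ≠ 0 := by exact_mod_cast hp.ne'
          exact mul_left_cancel₀ h5 (by rw [h4, mul_one])
        · refine ⟨algebraMap R Ω x - algebraMap κ Ω a, sub_mem (hRK _) (hκK _), ?_, h1⟩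
          intro h0
          have h2 : algebraMap R M x - algebraMap κ M a = 0 := Subtype.ext h0
          rw [h2, P.ord_zero] at h1
          exact zero_ne_one h1
        · refine ⟨(algebraMap R Ω x)⁻¹, inv_mem (hRK _), ?_, ?_⟩
          · intro h0
            have h2 : algebraMap R M x = 0 := Subtype.ext (inv_eq_zero.1 h0)
            rw [h2, P.ord_zero] at h1
            omega
          · have h2 : (⟨(algebraMap R Ω x)⁻¹, hK (inv_mem (hRK _))⟩ : M) = (algebraMap R M x)⁻¹ := rfl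
            rw [h2, P.ord_inv, h1]
            rfl
      obtain ⟨t, htK, ht0, ht1⟩ := key
      set n := P.ord (⟨w, hwM⟩ : M) with hn
      have hw0' : (⟨w, hwM⟩ : M) ≠ 0 := fun h => hw0 (congrArg Subtype.val h)
      have ht0' : (⟨t, hK htK⟩ : M) ≠ 0 := fun h => ht0 (congrArg Subtype.val h)
      have htn : (⟨t, hK htK⟩ : M) ^ n ≠ 0 := zpow_ne_zero _ ht0'
      have h5 : P.ord ((⟨w, hwM⟩ : M) / (⟨t, hK htK⟩ : M) ^ n) = 0 := by
        rw [P.ord_div hw0' htn, P.ord_zpow, ht1, ← hn]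
        ring
      have h6 : ((((⟨w, hwM⟩ : M) / (⟨t, hK htK⟩ : M) ^ n : M)) : Ω) = w / t ^ n := by
        push_cast
        rfl
      have h7 : ((⟨w, hwM⟩ : M) / (⟨t, hK htK⟩ : M) ^ n) ∈ P.O := by
        rw [O_iff P (div_ne_zero hw0' htn), h5]
      have h8 : ((⟨w, hwM⟩ : M) / (⟨t, hK htK⟩ : M) ^ n)⁻¹ ∈ P.O := by
        rw [O_iff P (inv_ne_zero (div_ne_zero hw0' htn)), P.ord_inv, h5, neg_zero]
      refine ⟨(⟨t, htK⟩ : K) ^ n, zpow_ne_zero _ fun h => ht0 (congrArg Subtype.val h), ?_⟩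
      have h9 : algebraMap K Ω ((⟨t, htK⟩ : K) ^ n) = t ^ n := by
        rw [map_zpow₀]
        rfl
      rw [h9, ← h6]
      refine ⟨?_, ?_, ?_⟩
      · rw [h6]
        exact div_ne_zero hw0 (zpow_ne_zero _ ht0)
      · rw [← hV] at h7
        exact h7
      · rw [← hV] at h8
        exact h8
  have h3 : N ≤ maxPro ℓ κ K Ω :=
    le_iSup (fun L : {L : IntermediateField K Ω // Lev ℓ L ∧ Unr κ K Ω L} => L.1) ⟨N, hN, hNu⟩
  exact h3 hzN

/-- subfields of `M` with ramification indices `ℓ` have `M` as maximal unramified pro-`ℓ`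
extension -/
theorem eqm [Algebra.IsAlgebraic R Ω] [Normal R Ω] (hC : Cov ℓ κ R M x B Y)
    (K : IntermediateField R Ω) (hK : K ≤ M)
    (hun : ∀ W : ValuationSubring Ω, (∀ c : κ, algebraMap κ Ω c ∈ W) → ∀ e ∈ B,
      algebraMap R Ω x - algebraMap κ Ω e ∈ W.nonunits →
      ∃ t ∈ K, t ≠ 0 ∧ IsU W (t ^ ℓ / (algebraMap R Ω x - algebraMap κ Ω e))) (z : Ω) :
    z ∈ maxPro ℓ κ K Ω ↔ z ∈ M := by
  refine ⟨fun hz => ?_, le_maxPro hC K hK hun z⟩
  have h1 : maxPro ℓ κ K Ω ≤ IntermediateField.extendScalars hK := by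
    refine iSup_le fun L => ?_
    intro w hw
    rw [IntermediateField.mem_extendScalars hK]
    exact le_unr hC K hK L.1 L.2.1 L.2.2 w hw
  exact (IntermediateField.mem_extendScalars hK).1 (h1 hz)

end eqm

end Pool.Agent.H71SC
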