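import Pool.Agent.H71SC.Crit

/-! # Explicit elementary abelian coverings -/

set_option autoImplicit false
set_option linter.all false

open Polynomial FF Pool.Agent.Y157.PS

namespace Pool.Agent.H71SC

section fact

variable {A k Ω : Type} [CommRing A] [IsDomain A] [Field k] [Algebra A k] [Field Ω] [Algebra k Ω]
  [IsAlgClosed Ω]

/-- divisors of powers of `f` -/
theorem fact_g (hAk : Function.Injective (algebraMap A k)) (f : A[X])
    (hlc : IsUnit f.leadingCoeff) (B : Finset (algebraicClosure k Ω))
    (hB : ∀ θ, θ ∈ B ↔ aeval θ (f.map (algebraMap A k)) = 0) (g : A[X]) (n₀ : ℕ)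
    (hg : g ∣ f ^ n₀) (X : Ω) :
    ∃ c : algebraicClosure k Ω, c ≠ 0 ∧ aeval X (g.map (algebraMap A k)) =
      algebraMap (algebraicClosure k Ω) Ω c *
        ∏ e ∈ B, (X - algebraMap (algebraicClosure k Ω) Ω e) ^
          (g.map ((algebraMap k (algebraicClosure k Ω)).comp (algebraMap A k))).rootMultiplicity e ∧
      ∑ e ∈ B, (g.map ((algebraMap k (algebraicClosure k Ω)).comp
        (algebraMap A k))).rootMultiplicity e = g.natDegree := by
  classical
  have hac : IsAlgClosure k (algebraicClosure k Ω) := inferInstance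
  have hkb : IsAlgClosed (algebraicClosure k Ω) := hac.1
  set i : A →+* algebraicClosure k Ω :=
    (algebraMap k (algebraicClosure k Ω)).comp (algebraMap A k) with hi
  have hinj : Function.Injective i := (algebraMap k (algebraicClosure k Ω)).injective.comp hAk
  have hlcg : IsUnit g.leadingCoeff := by
    obtain ⟨h, hh⟩ := hg
    have h1 : g.leadingCoeff * h.leadingCoeff = f.leadingCoeff ^ n₀ := by
      rw [← leadingCoeff_mul, ← hh, leadingCoeff_pow]
    exact isUnit_of_mul_isUnit_left (y := h.leadingCoeff) (by rw [h1]; exact hlc.pow _)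
  set P := g.map i with hP
  have hlc0 : i g.leadingCoeff ≠ 0 := (hlcg.map i).ne_zero
  have hPlc : P.leadingCoeff = i g.leadingCoeff := leadingCoeff_map_of_leadingCoeff_ne_zero _ hlc0
  have hP0 : P ≠ 0 := by
    intro h
    apply hlc0
    rw [← hPlc, h, leadingCoeff_zero]
  have hPB : P.roots.toFinset ⊆ B := by
    intro e he
    rw [Multiset.mem_toFinset, mem_roots hP0, IsRoot.def] at he
    rw [hB]
    have h1 : P ∣ (f.map i) ^ n₀ := by
      rw [← Polynomial.map_pow]
      exact Polynomial.map_dvd _ hg
    obtain ⟨q, hq⟩ := h1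
    have h2 : ((f.map i) ^ n₀).eval e = 0 := by rw [hq, eval_mul, he, zero_mul]
    rw [eval_pow] at h2
    have h3 := eq_zero_of_pow_eq_zero h2
    rw [hi, ← Polynomial.map_map, eval_map_algebraMap] at h3
    exact h3
  have h1 := (IsAlgClosed.splits P).eq_prod_roots
  refine ⟨i g.leadingCoeff, hlc0, ?_, ?_⟩
  · have h6 : ∏ e ∈ B, (X - algebraMap (algebraicClosure k Ω) Ω e) ^ (P.rootMultiplicity e) =
        (P.roots.map fun e => X - algebraMap (algebraicClosure k Ω) Ω e).prod := by
      rw [Finset.prod_multiset_map_count]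
      rw [← Finset.prod_subset hPB fun e _ he => ?_]
      · refine Finset.prod_congr rfl fun e _ => ?_
        rw [count_roots]
      · rw [← count_roots, Multiset.count_eq_zero_of_notMem
          (fun h => he (Multiset.mem_toFinset.2 h)), pow_zero]
    rw [h6]
    have h7 : aeval X (g.map (algebraMap A k)) = P.eval₂ (algebraMap (algebraicClosure k Ω) Ω) X := by
      rw [aeval_def, hP, eval₂_map, eval₂_map, hi, ← RingHom.comp_assoc,
        ← IsScalarTower.algebraMap_eq k (algebraicClosure k Ω) Ω]
    rw [h7]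
    conv_lhs => rw [h1]
    rw [hPlc, eval₂_mul, eval₂_C, ← coe_eval₂RingHom, map_multiset_prod, Multiset.map_map]
    congr 2
    refine Multiset.map_congr rfl fun a _ => ?_
    simp
  · have h2 : P.natDegree = g.natDegree := natDegree_map_of_leadingCoeff_ne_zero _ hlc0
    rw [← h2, (IsAlgClosed.splits P).natDegree_eq_card_roots]
    rw [← Finset.sum_subset hPB fun e _ he => ?_]
    · rw [← Multiset.toFinset_sum_count_eq]
      refine Finset.sum_congr rfl fun e _ => ?_
      rw [count_roots]
    · rw [← count_roots, Multiset.count_eq_zero_of_notMem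
        (fun h => he (Multiset.mem_toFinset.2 h))]

end fact

section roots

variable {κ R Ω : Type} [Field κ] [IsAlgClosed κ] [CharZero κ] [Field R] [Field Ω] [Algebra κ R]
  [Algebra R Ω] [Algebra κ Ω] [IsScalarTower κ R Ω] {ℓ : ℕ} [Fact ℓ.Prime]
  {x : R} {B : Finset κ} {M : IntermediateField R Ω} {Y : M}

/-- radicals of products over the branch points are in `M` -/
theorem rad_mem (hC : Cov ℓ κ R M x B Y) {c : κ} (hc : c ≠ 0) (n : κ → ℕ)
    (hn : ℓ ∣ ∑ e ∈ B, n e) {h : Ω}
    (hh : h ^ ℓ = algebraMap κ Ω c * ∏ e ∈ B, (algebraMap R Ω x - algebraMap κ Ω e) ^ n e) :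
    h ∈ M := by
  classical
  have hp := (Fact.out : ℓ.Prime).pos
  have htr : Transcendental κ (algebraMap R M x) :=
    (transcendental_algebraMap_iff (algebraMap R M).injective).2 hC.rat.trans
  have hne : ∀ e : κ, algebraMap R M x - algebraMap κ M e ≠ 0 := by
    intro e h0
    apply htr
    rw [sub_eq_zero.1 h0]
    exact isAlgebraic_algebraMap _
  have hcM : algebraMap κ M c ≠ 0 := (_root_.map_ne_zero _).2 hc
  have hprod0 : ∀ T : Finset κ, ∏ e ∈ T, (algebraMap R M x - algebraMap κ M e) ^ n e ≠ 0 :=
    fun T => Finset.prod_ne_zero_iff.2 fun e _ => pow_ne_zero _ (hne e)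
  have hord : ∀ (W : Place κ M) (T : Finset κ),
      W.ord (∏ e ∈ T, (algebraMap R M x - algebraMap κ M e) ^ n e) =
        ∑ e ∈ T, (n e : ℤ) * W.ord (algebraMap R M x - algebraMap κ M e) := by
    intro W T
    induction T using Finset.induction_on with
    | empty => rw [Finset.prod_empty, Finset.sum_empty, W.ord_one]
    | insert a T ha ih =>
      rw [Finset.prod_insert ha, Finset.sum_insert ha, W.ord_mul (pow_ne_zero _ (hne a)) (hprod0 T),
        ih, W.ord_pow]
  refine root_mem hC (g := algebraMap κ M c *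
    ∏ e ∈ B, (algebraMap R M x - algebraMap κ M e) ^ n e) ?_ (mul_ne_zero hcM (hprod0 B)) ?_
  · rw [hh]
    push_cast
    rfl
  · intro W
    rw [W.ord_mul hcM (hprod0 B), W.ord_const hc, zero_add, hord]
    rcases hC.loc' W with ⟨e, he, h1, h2⟩ | ⟨a, ha, h1⟩ | h1
    · refine Finset.dvd_sum fun e' he' => ?_
      by_cases hee : e = e'
      · rw [← hee, h1]
        exact dvd_mul_left _ _
      · rw [ord_sub_const (W := W) (a := e) (by rw [h1]; exact_mod_cast hp) hee, mul_zero]
        exact dvd_zero _
    · refine Finset.dvd_sum fun e' he' => ?_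
      have hae : a ≠ e' := by rintro rfl; exact ha he'
      rw [ord_sub_const (W := W) (a := a) (by rw [h1]; exact one_pos) hae, mul_zero]
      exact dvd_zero _
    · have h2 : ∀ e : κ, W.ord (algebraMap R M x - algebraMap κ M e) = -1 := by
        intro e
        by_cases he : e = 0
        · rw [he, map_zero, sub_zero, h1]
        · have hx0 : algebraMap R M x ≠ 0 := by
            intro h0; rw [h0, W.ord_zero] at h1; omega
          have hce : algebraMap κ M (-e) ≠ 0 := (_root_.map_ne_zero _).2 (neg_ne_zero.2 he)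
          have h3 : algebraMap R M x - algebraMap κ M e =
              algebraMap R M x + algebraMap κ M (-e) := by rw [map_neg]; ring
          rw [h3, (W.ord_add_eq hx0 hce (by rw [h1, W.ord_const (neg_ne_zero.2 he)]; norm_num)).2,
            h1]
      have h3 : ∑ e ∈ B, (n e : ℤ) * W.ord (algebraMap R M x - algebraMap κ M e) =
          -((∑ e ∈ B, n e : ℕ) : ℤ) := by
        rw [Nat.cast_sum, ← Finset.sum_neg_distrib]
        refine Finset.sum_congr rfl fun e _ => ?_
        rw [h2, mul_neg_one]
      rw [h3, dvd_neg]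
      exact_mod_cast hn

end roots

end Pool.Agent.H71SC
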