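import Pool.Agent.H71SC.Expl

/-! # Explicit elementary abelian coverings, ramification -/

set_option autoImplicit false
set_option linter.all false

open Polynomial FF Pool.Agent.Y157.PS

namespace Pool.Agent.H71SC

theorem ram_expl {κ Ω : Type} [Field κ] [Field Ω] [Algebra κ Ω] {ℓ : ℕ} [Fact ℓ.Prime]
    (W : ValuationSubring Ω) (hW : ∀ c : κ, algebraMap κ Ω c ∈ W) (X : Ω) (B : Finset κ)
    (hX : ∀ e : κ, X - algebraMap κ Ω e ≠ 0) (c : κ) (hc : c ≠ 0) (u : Ω)
    (hu : u = algebraMap κ Ω c * ∏ e ∈ B, (X - algebraMap κ Ω e)) (huW : u ∈ W.nonunits)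
    (T : Subfield Ω) (hκT : ∀ c : κ, algebraMap κ Ω c ∈ T) (hXT : X ∈ T)
    (hT : ∀ e ∈ B, ∃ (y : Ω) (d c' : κ) (n : κ → ℕ), y ∈ T ∧ d ≠ 0 ∧ c' ≠ 0 ∧
      algebraMap κ Ω d * y ^ ℓ = algebraMap κ Ω c' * ∏ e' ∈ B, (X - algebraMap κ Ω e') ^ n e' ∧
      ¬ ℓ ∣ n e) : ∃ t ∈ T, t ≠ 0 ∧ IsU W (t ^ ℓ / u) := by
  classical
  have hp := (Fact.out : ℓ.Prime).pos
  have hcU : ∀ c : κ, c ≠ 0 → IsU W (algebraMap κ Ω c) := fun c hc =>
    ⟨(_root_.map_ne_zero _).2 hc, hW c, by rw [← map_inv₀]; exact hW _⟩
  have hu0 : u ≠ 0 := by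
    rw [hu]
    exact mul_ne_zero ((_root_.map_ne_zero _).2 hc) (Finset.prod_ne_zero_iff.2 fun e _ => hX e)
  obtain ⟨e, he, hxe⟩ : ∃ e ∈ B, X - algebraMap κ Ω e ∈ W.nonunits := by
    by_contra hno
    push Not at hno
    have hinv : u⁻¹ ∈ W := by
      rw [hu, mul_inv, ← Finset.prod_inv_distrib]
      refine mul_mem ?_ (prod_mem fun e he => ?_)
      · rw [← map_inv₀]
        exact hW _
      · exact inv_mem_of_not_nonunit (hno e he)
    rcases (nonunits_iff.1 huW).2 with h9 | h9
    · exact hu0 h9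
    · exact h9 hinv
  have hXW : X ∈ W := by
    have h4 : X = (X - algebraMap κ Ω e) + algebraMap κ Ω e := by ring
    rw [h4]
    exact add_mem (non_mem hxe) (hW e)
  have hother : ∀ e' : κ, e' ≠ e → IsU W (X - algebraMap κ Ω e') := by
    intro e' he'
    have hne : e - e' ≠ 0 := sub_ne_zero.2 he'.symm
    refine isU_of_not_nonunit (sub_mem hXW (hW _)) fun hn => ?_
    have h5 : algebraMap κ Ω (e - e') ∈ W.nonunits := by
      have h6 : algebraMap κ Ω (e - e') =
          (X - algebraMap κ Ω e') - (X - algebraMap κ Ω e) := by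
        rw [map_sub]; ring
      rw [h6]
      exact non_sub hn hxe
    exact (hcU _ hne).not_nonunit h5
  set v := W.valuation with hv
  have hvU : ∀ z : Ω, IsU W z ↔ v z = 1 := fun z => Pool.Agent.Y948.PS.isU_iff W
  set q := v (X - algebraMap κ Ω e) with hq
  have hq0 : q ≠ 0 := (Valuation.ne_zero_iff _).2 (hX e)
  have hprod : ∀ n : κ → ℕ, v (∏ e' ∈ B, (X - algebraMap κ Ω e') ^ n e') = q ^ n e := by
    intro n
    rw [← Finset.mul_prod_erase B _ he, map_mul, map_pow, map_prod]
    have h1 : ∏ e' ∈ B.erase e, v ((X - algebraMap κ Ω e') ^ n e') = 1 := by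
      refine Finset.prod_eq_one fun e' he' => ?_
      rw [map_pow, (hvU _).1 (hother e' (Finset.ne_of_mem_erase he')), one_pow]
    rw [h1, mul_one]
  have hvu : v u = q := by
    have h1 := hprod fun _ => 1
    simp only [pow_one] at h1
    rw [hu, map_mul, (hvU _).1 (hcU c hc), one_mul, h1]
  obtain ⟨y, d, c', n, hyT, hd, hc', hy, hn⟩ := hT e he
  have hvy : v y ^ ℓ = q ^ n e := by
    have h1 := congrArg v hy
    rw [map_mul, map_mul, map_pow, (hvU _).1 (hcU d hd), (hvU _).1 (hcU c' hc'), one_mul, one_mul,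
      hprod] at h1
    exact h1
  have hy0 : y ≠ 0 := by
    rintro rfl
    rw [map_zero, zero_pow hp.ne'] at hvy
    exact (pow_ne_zero _ hq0) hvy.symm
  have hcop : IsCoprime ((n e : ℕ) : ℤ) (ℓ : ℤ) := by
    rw [Int.isCoprime_iff_gcd_eq_one, Int.gcd_natCast_natCast]
    exact (((Fact.out : ℓ.Prime).coprime_iff_not_dvd).2 hn).symm
  obtain ⟨a, b, hab⟩ := hcop
  refine ⟨y ^ a * (X - algebraMap κ Ω e) ^ b, mul_mem (zpow_mem hyT a)
    (zpow_mem (sub_mem hXT (hκT e)) b), mul_ne_zero (zpow_ne_zero _ hy0) (zpow_ne_zero _ (hX e)),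
    ?_⟩
  rw [hvU, map_div₀, hvu, map_pow, map_mul, map_zpow₀, map_zpow₀, ← hq, mul_pow]
  have h1 : (v y ^ a) ^ ℓ = q ^ (a * (n e : ℤ)) := by
    rw [← zpow_natCast, ← zpow_mul, mul_comm a (ℓ : ℤ), zpow_mul, zpow_natCast, hvy,
      ← zpow_natCast, ← zpow_mul, mul_comm]
  have h2 : (q ^ b) ^ ℓ = q ^ (b * (ℓ : ℤ)) := by
    rw [← zpow_natCast, ← zpow_mul]
  rw [h1, h2, ← zpow_add₀ hq0, hab, zpow_one, div_self hq0]

section main

variable {A k F Ω : Type} [CommRing A] [IsDomain A] [IsDiscreteValuationRing A]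
    [IsAdicComplete (IsLocalRing.maximalIdeal A) A]
    [Finite (IsLocalRing.ResidueField A)] [Field k] [CharZero k] [Algebra A k] [IsFractionRing A k]
    [Field F] [Field Ω] [Algebra k F] [Algebra F Ω] [Algebra k Ω] [IsScalarTower k F Ω]
    [IsAlgClosed Ω] [Algebra.IsAlgebraic F Ω]

omit [CharZero k] [IsAdicComplete (IsLocalRing.maximalIdeal A) A]
  [Finite (IsLocalRing.ResidueField A)] [IsDiscreteValuationRing A] [IsDomain A]
  [IsFractionRing A k] [Field Ω] [Algebra F Ω] [Algebra k Ω] [IsScalarTower k F Ω]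
  [IsAlgClosed Ω] [Algebra.IsAlgebraic F Ω] in
theorem alg_expl {ℓ : ℕ} (hp : 0 < ℓ) {ι : Type} (g : ι → A[X]) (d : ι → k) (x : F) (y : ι → F)
    (hd : ∀ i, d i ≠ 0)
    (hxy : ∀ i, algebraMap k F (d i) * y i ^ ℓ = aeval x ((g i).map (algebraMap A k)))
    (hF : IntermediateField.adjoin k (insert x (Set.range y)) = (⊤ : IntermediateField k F)) :
    Algebra.IsAlgebraic (IntermediateField.adjoin k {x}) F := by
  have hmem : ∀ z : F, z ∈ (algebraicClosure (IntermediateField.adjoin k {x}) F).toSubfield := by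
    intro z
    have h1 : z ∈ IntermediateField.adjoin k (insert x (Set.range y)) := by rw [hF]; trivial
    refine adjoin_le_sub (T := (algebraicClosure (IntermediateField.adjoin k {x}) F).toSubfield)
      ?_ ?_ z h1
    · intro c
      exact IntermediateField.algebraMap_mem (algebraicClosure (IntermediateField.adjoin k {x}) F)
        (algebraMap k (IntermediateField.adjoin k {x}) c)
    · have hx : ∀ w : F, w ∈ IntermediateField.adjoin k {x} →
          w ∈ (algebraicClosure (IntermediateField.adjoin k {x}) F).toSubfield := fun w hw =>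
        IntermediateField.algebraMap_mem (algebraicClosure (IntermediateField.adjoin k {x}) F)
          ⟨w, hw⟩
      intro w hw
      rcases hw with hw | ⟨i, rfl⟩
      · rw [hw]
        exact hx _ (IntermediateField.mem_adjoin_simple_self k x)
      · change y i ∈ algebraicClosure (IntermediateField.adjoin k {x}) F
        rw [mem_algebraicClosure_iff]
        have hd' : algebraMap k F (d i) ≠ 0 := (_root_.map_ne_zero _).2 (hd i)
        have h2 : y i ^ ℓ ∈ IntermediateField.adjoin k {x} := by
          have h3 : y i ^ ℓ = (algebraMap k F (d i))⁻¹ * aeval x ((g i).map (algebraMap A k)) := by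
            rw [← hxy, inv_mul_cancel_left₀ hd']
          rw [h3]
          refine mul_mem (inv_mem (IntermediateField.algebraMap_mem _ (d i))) ?_
          have h4 : aeval x ((g i).map (algebraMap A k)) =
              algebraMap (IntermediateField.adjoin k {x}) F
              (aeval (IntermediateField.AdjoinSimple.gen k x) ((g i).map (algebraMap A k))) := by
            rw [← aeval_algebraMap_apply]
            rfl
          rw [h4]
          exact (aeval (IntermediateField.AdjoinSimple.gen k x)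
            ((g i).map (algebraMap A k))).2
        have h3 : IsIntegral (IntermediateField.adjoin k {x}) (y i) := by
          apply IsIntegral.of_pow hp
          exact isIntegral_algebraMap (x := (⟨_, h2⟩ : IntermediateField.adjoin k {x}))
        exact h3.isAlgebraic
  exact ⟨fun z => mem_algebraicClosure_iff.1 (hmem z)⟩

theorem expl {ℓ : ℕ} [Fact ℓ.Prime]
    (f : A[X]) (hlc : IsUnit f.leadingCoeff)
    (hs : (f.map (IsLocalRing.residue A)).Separable) (hdvd : ℓ ∣ f.natDegree)
    (h3 : 3 ≤ f.natDegree) {ι : Type} (g : ι → A[X]) (d : ι → k) (x : F) (y : ι → F)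
    (hx : Transcendental k x) (hd : ∀ i, d i ≠ 0)
    (hxy : ∀ i, algebraMap k F (d i) * y i ^ ℓ = aeval x ((g i).map (algebraMap A k)))
    (hF : IntermediateField.adjoin k (insert x (Set.range y)) = (⊤ : IntermediateField k F))
    (hgf : ∀ i, ∃ n : ℕ, g i ∣ f ^ n) (hdeg : ∀ i, ℓ ∣ (g i).natDegree)
    (hmul : ∀ e : Ω, aeval e (f.map (algebraMap A k)) = 0 → ∃ i,
      ¬ ℓ ∣ ((g i).map ((algebraMap k Ω).comp (algebraMap A k))).rootMultiplicity e) :
    (∀ z : F, algebraMap F Ω z ∈
      orbi (K := IntermediateField.adjoin (algebraicClosure k Ω) {algebraMap F Ω x}) ℓ k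
        (algebraMap F Ω (aeval x (f.map (algebraMap A k))))) ∧
    (∀ W : ValuationSubring Ω, (∀ c : k, algebraMap k Ω c ∈ W) →
      algebraMap F Ω (aeval x (f.map (algebraMap A k))) ∈ W.nonunits →
      ∃ t ∈ geomF k F Ω, t ≠ 0 ∧
        IsU W (t ^ ℓ / algebraMap F Ω (aeval x (f.map (algebraMap A k))))) := by
  classical
  have hp := (Fact.out : ℓ.Prime).pos
  have hac : IsAlgClosure k (algebraicClosure k Ω) := inferInstance
  have hkb : IsAlgClosed (algebraicClosure k Ω) := hac.1
  have hch : CharZero (algebraicClosure k Ω) :=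
    charZero_of_injective_algebraMap (algebraMap k (algebraicClosure k Ω)).injective
  have hAk : Function.Injective (algebraMap A k) := IsFractionRing.injective A k
  have halg := alg_expl (A := A) hp g d x y hd hxy hF
  have hX0 : Transcendental k (algebraMap F Ω x) :=
    (transcendental_algebraMap_iff (R := k) (algebraMap F Ω).injective (a := x)).2 hx
  have hX1 := trans_up hX0
  have hrat := ratF_adj hX1
  haveI hclR : IsAlgClosure (IntermediateField.adjoin (algebraicClosure k Ω) {algebraMap F Ω x}) Ω :=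
    closure_R' halg
  obtain ⟨V, hVa', hVm', hdec⟩ := V_setup A (k := k) (κ := algebraicClosure k Ω)
  obtain ⟨B, M, Y0, c, hGood, hmemB, hc, hfX', hCov, horb⟩ := setup_cov (ℓ := ℓ)
    (R := IntermediateField.adjoin (algebraicClosure k Ω) {algebraMap F Ω x})
    ⟨algebraMap F Ω x, IntermediateField.mem_adjoin_simple_self _ _⟩ hrat V hVa' hVm'
    f hlc hs hdvd h3 x rfl
  have hXe : ∀ e : algebraicClosure k Ω,
      algebraMap F Ω x - algebraMap (algebraicClosure k Ω) Ω e ≠ 0 := by
    intro e h0
    apply hX1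
    rw [sub_eq_zero.1 h0]
    exact isAlgebraic_algebraMap _
  have hgX : ∀ i, ∃ c : algebraicClosure k Ω, c ≠ 0 ∧
      algebraMap F Ω (aeval x ((g i).map (algebraMap A k))) =
      algebraMap (algebraicClosure k Ω) Ω c *
        ∏ e ∈ B, (algebraMap F Ω x - algebraMap (algebraicClosure k Ω) Ω e) ^
          ((g i).map ((algebraMap k (algebraicClosure k Ω)).comp
            (algebraMap A k))).rootMultiplicity e ∧
      ∑ e ∈ B, ((g i).map ((algebraMap k (algebraicClosure k Ω)).comp
        (algebraMap A k))).rootMultiplicity e = (g i).natDegree := by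
    intro i
    obtain ⟨n, hn⟩ := hgf i
    obtain ⟨c, hc, h1, h2⟩ := fact_g hAk f hlc B hmemB (g i) n hn (algebraMap F Ω x)
    refine ⟨c, hc, ?_, h2⟩
    rw [← h1, ← aeval_algebraMap_apply]
  have hyi : ∀ i, algebraMap k Ω (d i) * (algebraMap F Ω (y i)) ^ ℓ =
      algebraMap F Ω (aeval x ((g i).map (algebraMap A k))) := by
    intro i
    rw [← hxy, map_mul, map_pow, ← IsScalarTower.algebraMap_apply]
  have hdκ : ∀ i, algebraMap k Ω (d i) = algebraMap (algebraicClosure k Ω) Ω
      (algebraMap k (algebraicClosure k Ω) (d i)) := fun i =>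
    IsScalarTower.algebraMap_apply k (algebraicClosure k Ω) Ω (d i)
  have hd0 : ∀ i, algebraMap k (algebraicClosure k Ω) (d i) ≠ 0 := fun i =>
    (_root_.map_ne_zero _).2 (hd i)
  constructor
  · intro z
    rw [← horb]
    have hyM : ∀ i, algebraMap F Ω (y i) ∈ M := by
      intro i
      obtain ⟨c, hc, h1, h2⟩ := hgX i
      refine rad_mem hCov (c := (algebraMap k (algebraicClosure k Ω) (d i))⁻¹ * c)
        (mul_ne_zero (inv_ne_zero (hd0 i)) hc)
        (fun e => ((g i).map ((algebraMap k (algebraicClosure k Ω)).comp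
          (algebraMap A k))).rootMultiplicity e) (by rw [h2]; exact hdeg i) ?_
      have h4 := hyi i
      rw [h1, hdκ] at h4
      have h5 : algebraMap (algebraicClosure k Ω) Ω (algebraMap k (algebraicClosure k Ω) (d i)) ≠ 0 :=
        (_root_.map_ne_zero _).2 (hd0 i)
      rw [map_mul, map_inv₀, mul_assoc]
      rw [eq_inv_mul_iff_mul_eq₀ h5]
      exact h4
    have h1 : z ∈ IntermediateField.adjoin k (insert x (Set.range y)) := by rw [hF]; trivial
    have h2 : ∀ w ∈ IntermediateField.adjoin k (insert x (Set.range y)),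
        w ∈ M.toSubfield.comap (algebraMap F Ω) := by
      refine adjoin_le_sub ?_ ?_
      · intro c
        rw [Subfield.mem_comap, ← IsScalarTower.algebraMap_apply]
        exact M_const (κ := algebraicClosure k Ω) (M := M)
          (algebraMap k (algebraicClosure k Ω) c)
      · intro w hw
        rw [Subfield.mem_comap]
        rcases hw with hw | ⟨i, rfl⟩
        · rw [hw]
          exact M.algebraMap_mem (⟨algebraMap F Ω x,
            IntermediateField.mem_adjoin_simple_self _ _⟩ :
            IntermediateField.adjoin (algebraicClosure k Ω) {algebraMap F Ω x})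
        · exact hyM i
    exact h2 z h1
  · intro W hW hu
    have hWκ : ∀ c : algebraicClosure k Ω, algebraMap (algebraicClosure k Ω) Ω c ∈ W :=
      fun c => Pool.Agent.W620.SC.const_mem hW c.2
    refine ram_expl W hWκ (algebraMap F Ω x) B hXe c hc _ hfX' hu (geomF k F Ω).toSubfield
      (fun c => IntermediateField.subset_adjoin F _ c.2) ((geomF k F Ω).algebraMap_mem x) ?_
    intro e he
    obtain ⟨i, hi⟩ := hmul (e : Ω) (by
      have h1 := (hmemB e).1 he
      have h2 := congrArg (algebraMap (algebraicClosure k Ω) Ω) h1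
      rw [map_zero, ← aeval_algebraMap_apply] at h2
      exact h2)
    obtain ⟨c', hc', h1, h2⟩ := hgX i
    refine ⟨algebraMap F Ω (y i), algebraMap k (algebraicClosure k Ω) (d i), c',
      (fun e => ((g i).map ((algebraMap k (algebraicClosure k Ω)).comp
        (algebraMap A k))).rootMultiplicity e),
      (geomF k F Ω).algebraMap_mem (y i), hd0 i, hc', ?_, ?_⟩
    · rw [← hdκ, hyi, h1]
    · have h4 := Polynomial.eq_rootMultiplicity_map (p := (g i).map
        ((algebraMap k (algebraicClosure k Ω)).comp (algebraMap A k)))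
        (f := algebraMap (algebraicClosure k Ω) Ω) (algebraMap (algebraicClosure k Ω) Ω).injective e
      rw [Polynomial.map_map, ← RingHom.comp_assoc,
        ← IsScalarTower.algebraMap_eq k (algebraicClosure k Ω) Ω] at h4
      change ¬ ℓ ∣ rootMultiplicity e ((g i).map ((algebraMap k (algebraicClosure k Ω)).comp
        (algebraMap A k)))
      rw [h4]
      exact hi

end main

end Pool.Agent.H71SC
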