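import Pool.Agent.H71SC.Geo2
import Pool.Agent.Y157.PS.Ind2

/-! # Sections over complete fields, dichotomy -/

set_option autoImplicit false
set_option linter.all false

open Polynomial FF Pool.Agent.Y157.PS

namespace Pool.Agent.H71SC

/-- `O` dominates `A` and the residue class of `X` is transcendental over the residue field of
`O ∩ κ` -/
def GaussO (A k : Type) {Ω : Type} [CommRing A] [IsLocalRing A] [Field k] [Field Ω] [Algebra A k]
    [Algebra k Ω] (X : Ω) (O : ValuationSubring Ω) : Prop :=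
  (∀ a : A, algebraMap k Ω (algebraMap A k a) ∈ O) ∧
  (∀ a ∈ IsLocalRing.maximalIdeal A, algebraMap k Ω (algebraMap A k a) ∈ O.nonunits) ∧
  X ∈ O ∧
  ∀ p : (algebraicClosure k Ω)[X], (∀ n, (p.coeff n : Ω) ∈ O) →
    (∃ n, (p.coeff n : Ω) ∉ O.nonunits) → aeval X p ∉ O.nonunits

/-- the integral closure of `A` -/
theorem V_setup (A : Type) {k κ : Type} [CommRing A] [IsDomain A] [IsDiscreteValuationRing A]
    [IsAdicComplete (IsLocalRing.maximalIdeal A) A] [Field k] [CharZero k] [Algebra A k]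
    [IsFractionRing A k] [Field κ] [Algebra k κ] [IsAlgClosure k κ] :
    ∃ V : ValuationSubring κ, (∀ a : A, algebraMap k κ (algebraMap A k a) ∈ V) ∧
      (∀ a ∈ IsLocalRing.maximalIdeal A, algebraMap k κ (algebraMap A k a) ∈ V.nonunits) ∧
      ∀ σ : κ ≃ₐ[k] κ, Dec V σ := by
  letI : Algebra A κ := ((algebraMap k κ).comp (algebraMap A k)).toAlgebra
  haveI hst : IsScalarTower A k κ := IsScalarTower.of_algebraMap_eq (fun _ => rfl)
  obtain ⟨V, hV⟩ := Pool.Agent.Y809.PS.val A k κ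
  have hVa : ∀ a : A, algebraMap A κ a ∈ V := fun a =>
    (hV _).2 isIntegral_algebraMap
  refine ⟨V, hVa, ?_, ?_⟩
  · intro a ha
    refine nonunits_iff.2 ⟨hVa a, ?_⟩
    by_cases ha0 : a = 0
    · left
      rw [ha0, map_zero, map_zero]
    right
    intro hi
    rw [hV, ← map_inv₀,
      isIntegral_algebraMap_iff (algebraMap k κ).injective] at hi
    obtain ⟨b, hb⟩ := IsIntegrallyClosed.isIntegral_iff.1 hi
    have h1 : a * b = 1 := by
      apply IsFractionRing.injective A k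
      rw [map_mul, hb, map_one, mul_inv_cancel₀]
      rw [Ne, map_eq_zero_iff _ (IsFractionRing.injective A k)]
      exact ha0
    exact (IsLocalRing.mem_maximalIdeal _).1 ha (IsUnit.of_mul_eq_one b h1)
  · intro σ z
    rw [hV, hV]
    have h1 : ∀ (τ : κ ≃ₐ[k] κ) (w : κ),
        IsIntegral A w → IsIntegral A (τ w) := fun τ w hw =>
      hw.map (τ.toAlgHom.restrictScalars A)
    refine ⟨fun h => ?_, h1 σ z⟩
    have h2 := h1 σ.symm _ h
    rwa [σ.symm_apply_apply] at h2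

section gauss

variable {A k Ω : Type} [CommRing A] [IsDomain A] [IsDiscreteValuationRing A]
    [Field k] [CharZero k] [Algebra A k] [IsFractionRing A k]
    [Field Ω] [Algebra k Ω] [IsAlgClosed Ω]

theorem gaussO_mem {V : ValuationSubring (algebraicClosure k Ω)}
    (hVa : ∀ a : A, algebraMap k (algebraicClosure k Ω) (algebraMap A k a) ∈ V)
    (hVm : ∀ a ∈ IsLocalRing.maximalIdeal A,
      algebraMap k (algebraicClosure k Ω) (algebraMap A k a) ∈ V.nonunits)
    (hdec : ∀ σ : algebraicClosure k Ω ≃ₐ[k] algebraicClosure k Ω, Dec V σ) {X : Ω}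
    {O : ValuationSubring Ω} (hO : GaussO A k X O) (c : algebraicClosure k Ω) :
    (c : Ω) ∈ O ↔ c ∈ V := by
  have hac : IsAlgClosure k (algebraicClosure k Ω) := inferInstance
  have : Normal k (algebraicClosure k Ω) := IsAlgClosure.normal k _
  letI : Algebra A (algebraicClosure k Ω) :=
    ((algebraMap k (algebraicClosure k Ω)).comp (algebraMap A k)).toAlgebra
  haveI hst : IsScalarTower A k (algebraicClosure k Ω) :=
    IsScalarTower.of_algebraMap_eq (fun _ => rfl)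
  obtain ⟨hO1, hO2, hO3, hO4⟩ := hO
  have hA1 : ∀ a : A, algebraMap A (algebraicClosure k Ω) a ∈
      O.comap (algebraMap (algebraicClosure k Ω) Ω) := fun a => hO1 a
  have hA2 : ∀ a ∈ IsLocalRing.maximalIdeal A, algebraMap A (algebraicClosure k Ω) a ∈
      (O.comap (algebraMap (algebraicClosure k Ω) Ω)).nonunits := by
    intro a ha
    rw [Pool.Agent.Y157.PS.non_incl]
    exact hO2 a ha
  obtain ⟨γ, hγ⟩ := a_conj k (algebraicClosure k Ω) V
    (O.comap (algebraMap (algebraicClosure k Ω) Ω)) (by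
      ext z
      rw [ValuationSubring.mem_comap, ValuationSubring.mem_comap,
        Pool.Agent.Y529.PS.ND.trace (A := A) V hVa hVm z,
        Pool.Agent.Y529.PS.ND.trace (A := A) _ hA1 hA2 z])
  have h1 : c ∈ O.comap (algebraMap (algebraicClosure k Ω) Ω) ↔ (c : Ω) ∈ O := Iff.rfl
  rw [← h1, hγ, hdec γ c]

theorem gaussO_non {V : ValuationSubring (algebraicClosure k Ω)} {O : ValuationSubring Ω}
    (h : ∀ c : algebraicClosure k Ω, (c : Ω) ∈ O ↔ c ∈ V) (c : algebraicClosure k Ω) :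
    (c : Ω) ∈ O.nonunits ↔ c ∈ V.nonunits := by
  have hOV : O.comap (algebraMap (algebraicClosure k Ω) Ω) = V := by
    ext c
    exact h c
  rw [← hOV, Pool.Agent.Y157.PS.non_incl]
  rfl

theorem gaussO_spec {V : ValuationSubring (algebraicClosure k Ω)}
    (hVa : ∀ a : A, algebraMap k (algebraicClosure k Ω) (algebraMap A k a) ∈ V)
    (hVm : ∀ a ∈ IsLocalRing.maximalIdeal A,
      algebraMap k (algebraicClosure k Ω) (algebraMap A k a) ∈ V.nonunits)
    (hdec : ∀ σ : algebraicClosure k Ω ≃ₐ[k] algebraicClosure k Ω, Dec V σ) {X : Ω}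
    {O : ValuationSubring Ω} (hO : GaussO A k X O) (p : (algebraicClosure k Ω)[X])
    (hp : ∀ n, p.coeff n ∈ V) (hp' : ∃ n, IsU V (p.coeff n)) : IsU O (aeval X p) := by
  have hmemO := gaussO_mem hVa hVm hdec hO
  have hnonO := gaussO_non hmemO
  obtain ⟨hO1, hO2, hO3, hO4⟩ := hO
  have hpO : aeval X p ∈ O := by
    rw [aeval_eq_sum_range]
    refine sum_mem fun i _ => ?_
    rw [Algebra.smul_def]
    exact mul_mem ((hmemO _).2 (hp i)) (pow_mem hO3 i)
  refine isU_of_not_nonunit hpO (hO4 p (fun n => (hmemO _).2 (hp n)) ?_)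
  obtain ⟨n, hn⟩ := hp'
  refine ⟨n, ?_⟩
  rw [hnonO]
  exact hn.not_nonunit

theorem gaussO_of {V : ValuationSubring (algebraicClosure k Ω)}
    (hVa : ∀ a : A, algebraMap k (algebraicClosure k Ω) (algebraMap A k a) ∈ V)
    (hVm : ∀ a ∈ IsLocalRing.maximalIdeal A,
      algebraMap k (algebraicClosure k Ω) (algebraMap A k a) ∈ V.nonunits) {X : Ω}
    {O : ValuationSubring Ω} (hmemO : ∀ c : algebraicClosure k Ω, (c : Ω) ∈ O ↔ c ∈ V)
    (h : ∀ p : (algebraicClosure k Ω)[X], (∀ n, p.coeff n ∈ V) → (∃ n, IsU V (p.coeff n)) →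
      IsU O (aeval X p)) : GaussO A k X O := by
  have hnonO := gaussO_non hmemO
  refine ⟨fun a => (hmemO _).2 (hVa a), fun a ha => (hnonO _).2 (hVm a ha), ?_, ?_⟩
  · have h1 := h Polynomial.X (fun n => by
      rw [coeff_X]
      split_ifs
      · exact one_mem _
      · exact zero_mem _) ⟨1, by rw [coeff_X_one]; exact isU_one⟩
    rw [aeval_X] at h1
    exact h1.2.1
  · rintro p hp ⟨n, hn⟩
    refine (h p (fun n => (hmemO _).1 (hp n)) ⟨n, ?_⟩).not_nonunit
    refine isU_of_not_nonunit ((hmemO _).1 (hp n)) fun h5 => hn ?_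
    rw [hnonO]
    exact h5

end gauss

section main

variable {A k F Ω : Type} [CommRing A] [IsDomain A] [IsDiscreteValuationRing A]
    [IsAdicComplete (IsLocalRing.maximalIdeal A) A]
    [Finite (IsLocalRing.ResidueField A)] [Field k] [CharZero k] [Algebra A k] [IsFractionRing A k]
    [Field F] [Field Ω] [Algebra k F] [Algebra F Ω] [Algebra k Ω] [IsScalarTower k F Ω]
    [IsAlgClosed Ω] [Algebra.IsAlgebraic F Ω]

theorem padic2 {ℓ : ℕ} [Fact ℓ.Prime]
    (hℓ : IsUnit (ℓ : A)) (f : A[X]) (hlc : IsUnit f.leadingCoeff)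
    (hs : (f.map (IsLocalRing.residue A)).Separable) (hdvd : ℓ ∣ f.natDegree)
    (h3 : 3 ≤ f.natDegree)
    (x : F) (hx : Transcendental k x)
    (halg : Algebra.IsAlgebraic (IntermediateField.adjoin k {x}) F)
    (hcov : ∀ z : F, algebraMap F Ω z ∈
      orbi (K := IntermediateField.adjoin (algebraicClosure k Ω) {algebraMap F Ω x}) ℓ k
        (algebraMap F Ω (aeval x (f.map (algebraMap A k)))))
    (hunr : ∀ W : ValuationSubring Ω, (∀ c : k, algebraMap k Ω c ∈ W) →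
      algebraMap F Ω (aeval x (f.map (algebraMap A k))) ∈ W.nonunits →
      ∃ t ∈ geomF k F Ω, t ≠ 0 ∧
        IsU W (t ^ ℓ / algebraMap F Ω (aeval x (f.map (algebraMap A k))))) :
    (∀ z : Ω, z ∈ geomPro ℓ k F Ω ↔
      z ∈ orbi (K := IntermediateField.adjoin (algebraicClosure k Ω) {algebraMap F Ω x}) ℓ k
        (algebraMap F Ω (aeval x (f.map (algebraMap A k))))) ∧
    (∃ O : ValuationSubring Ω, GaussO A k (algebraMap F Ω x) O) ∧
    (∀ O O' : ValuationSubring Ω, GaussO A k (algebraMap F Ω x) O →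
      GaussO A k (algebraMap F Ω x) O' → ∀ z ∈ geomPro ℓ k F Ω, z ∈ O ↔ z ∈ O') ∧
    ∀ (S : (algebraicClosure k Ω ≃ₐ[k] algebraicClosure k Ω) →*
      (geomPro ℓ k F Ω ≃ₐ[F] geomPro ℓ k F Ω)) (hcont : Continuous S)
    (hcompat : ∀ σ (c : algebraicClosure k Ω) (z : geomPro ℓ k F Ω), (z : Ω) = (c : Ω) →
      (S σ z : Ω) = (σ c : Ω)),
    (∀ O : ValuationSubring Ω, GaussO A k (algebraMap F Ω x) O →
      ∀ σ : algebraicClosure k Ω ≃ₐ[k] algebraicClosure k Ω,
      (∀ c : algebraicClosure k Ω, (c : Ω) ∈ O → ((σ c - c : algebraicClosure k Ω) : Ω) ∈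
        O.nonunits) → ∀ z : geomPro ℓ k F Ω, (z : Ω) ∈ O →
        ((S σ z - z : geomPro ℓ k F Ω) : Ω) ∈ O.nonunits) ∨
    ∃ W : ValuationSubring (geomPro ℓ k F Ω),
      ((∀ c : k, algebraMap F (geomPro ℓ k F Ω) (algebraMap k F c) ∈ W) ∧
       (∃ e : k, aeval e (f.map (algebraMap A k)) = 0 ∧
          algebraMap F (geomPro ℓ k F Ω) (x - algebraMap k F e) ∈ W.nonunits) ∧
       (∀ z : F, algebraMap F (geomPro ℓ k F Ω) z ∈ W →
          ∃ c : k, algebraMap F (geomPro ℓ k F Ω) (z - algebraMap k F c) ∈ W.nonunits) ∧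
       ∀ σ z, S σ z ∈ W ↔ z ∈ W) ∧
      ∀ W' : ValuationSubring (geomPro ℓ k F Ω),
        (∀ c : k, algebraMap F (geomPro ℓ k F Ω) (algebraMap k F c) ∈ W') →
        algebraMap F (geomPro ℓ k F Ω) (aeval x (f.map (algebraMap A k))) ∈ W'.nonunits →
        (∀ σ z, S σ z ∈ W' ↔ z ∈ W') → W' = W := by
  have hac : IsAlgClosure k (algebraicClosure k Ω) := inferInstance
  have : Normal k (algebraicClosure k Ω) := IsAlgClosure.normal k _
  have hGal : IsGalois k (algebraicClosure k Ω) := ⟨⟩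
  letI : Algebra A (algebraicClosure k Ω) :=
    ((algebraMap k (algebraicClosure k Ω)).comp (algebraMap A k)).toAlgebra
  haveI hst : IsScalarTower A k (algebraicClosure k Ω) :=
    IsScalarTower.of_algebraMap_eq (fun _ => rfl)
  obtain ⟨V, hVa', hVm', hdec⟩ := V_setup A (k := k) (κ := algebraicClosure k Ω)
  have hVa : ∀ a : A, algebraMap A (algebraicClosure k Ω) a ∈ V := hVa'
  have hVm : ∀ a ∈ IsLocalRing.maximalIdeal A, algebraMap A (algebraicClosure k Ω) a ∈
      V.nonunits := hVm'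
  have hX0 : Transcendental k (algebraMap F Ω x) :=
    (transcendental_algebraMap_iff (R := k) (algebraMap F Ω).injective (a := x)).2 hx
  have hrat := ratF_adj (trans_up hX0)
  haveI hclR : IsAlgClosure (IntermediateField.adjoin (algebraicClosure k Ω) {algebraMap F Ω x}) Ω :=
    closure_R' halg
  obtain ⟨hgeo0, hex, hunq, hgeo⟩ := geo2_abs (R := IntermediateField.adjoin (algebraicClosure k Ω)
    {algebraMap F Ω x}) ⟨algebraMap F Ω x, IntermediateField.mem_adjoin_simple_self _ _⟩ hrat V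
    hVa hVm hℓ f hlc hs hdvd h3 x rfl hcov hunr
  refine ⟨hgeo0, ?_, ?_, ?_⟩
  · obtain ⟨O, h1, h2⟩ := hex
    exact ⟨O, gaussO_of hVa' hVm' h1 h2⟩
  · intro O O' hO hO'
    exact hunq O O' (gaussO_mem hVa' hVm' hdec hO) (gaussO_spec hVa' hVm' hdec hO)
      (gaussO_mem hVa' hVm' hdec hO') (gaussO_spec hVa' hVm' hdec hO')
  intro S hcont hcompat
  rcases hgeo S hcont hcompat with hL | ⟨W, ⟨h1, h2, ⟨e, he0, hfix, z', hz', hz'e⟩, h4⟩, hun⟩
  · left
    intro O hO σ hσ z hz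
    have hmemO := gaussO_mem hVa' hVm' hdec hO
    have hnonO := gaussO_non hmemO
    have h5 := hL (O.comap (algebraMap (geomPro ℓ k F Ω) Ω)) (fun c z hz => by
        rw [← hmemO c, ← hz]
        rfl) (fun p hp hp' z hz => by
        have h6 := gaussO_spec hVa' hVm' hdec hO p hp hp'
        rw [← hz] at h6
        exact ⟨fun h => h6.1 (by rw [h]; rfl), h6.2.1, h6.2.2⟩) σ ⟨hdec σ, fun c hc => by
          rw [← hnonO]
          exact hσ c ((hmemO c).2 hc)⟩ z hz
    rw [non_incl] at h5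
    exact h5
  right
  have hrat' : ∀ c : algebraicClosure k Ω, (∀ σ : algebraicClosure k Ω ≃ₐ[k]
      algebraicClosure k Ω, σ c = c) → ∃ c' : k, algebraMap k (algebraicClosure k Ω) c' = c := by
    intro c hc
    have h5 := (InfiniteGalois.mem_bot_iff_fixed c).2 hc
    exact IntermediateField.mem_bot.1 h5
  refine ⟨W, ⟨h1, ?_, ?_, fun σ z => h4 σ (hdec σ) z⟩, fun W' hW'1 hW'2 hW'3 =>
    hun W' hW'1 hW'2 fun σ _ z => hW'3 σ z⟩
  · obtain ⟨e', rfl⟩ := hrat' e fun σ => hfix σ (hdec σ)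
    refine ⟨e', ?_, ?_⟩
    · rw [aeval_algebraMap_apply] at he0
      exact (_root_.map_eq_zero _).1 he0
    · have h5 : algebraMap F (geomPro ℓ k F Ω) (x - algebraMap k F e') = z' := by
        apply Subtype.ext
        rw [hz'e]
        change algebraMap F Ω (x - algebraMap k F e') = _
        rw [map_sub, ← IsScalarTower.algebraMap_apply]
        rfl
      rw [h5]
      exact hz'
  · intro z hz
    obtain ⟨c, w, hw, hwc⟩ := h2 _ hz
    obtain ⟨c', rfl⟩ := hrat' c fun σ => res_fixed _ W h1 σ (S σ) (h4 σ (hdec σ))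
      (fun c z hz => hcompat σ c z hz) z c w hw hwc
    refine ⟨c', ?_⟩
    have h5 : algebraMap F (geomPro ℓ k F Ω) (z - algebraMap k F c') = w := by
      apply Subtype.ext
      rw [hwc]
      change algebraMap F Ω (z - algebraMap k F c') = _
      rw [map_sub, ← IsScalarTower.algebraMap_apply]
      rfl
    rw [h5]
    exact hw

theorem padicM2 {ℓ : ℕ} [Fact ℓ.Prime]
    (hℓ : IsUnit (ℓ : A)) (f : A[X]) (hlc : IsUnit f.leadingCoeff)
    (hs : (f.map (IsLocalRing.residue A)).Separable) (hdvd : ℓ ∣ f.natDegree)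
    (h3 : 3 ≤ f.natDegree)
    (x : F) (hx : Transcendental k x)
    (halg : Algebra.IsAlgebraic (IntermediateField.adjoin k {x}) F)
    (hcov : ∀ z : F, algebraMap F Ω z ∈
      orbi (K := IntermediateField.adjoin (algebraicClosure k Ω) {algebraMap F Ω x}) ℓ k
        (algebraMap F Ω (aeval x (f.map (algebraMap A k)))))
    (hunr : ∀ W : ValuationSubring Ω, (∀ c : k, algebraMap k Ω c ∈ W) →
      algebraMap F Ω (aeval x (f.map (algebraMap A k))) ∈ W.nonunits →
      ∃ t ∈ geomF k F Ω, t ≠ 0 ∧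
        IsU W (t ^ ℓ / algebraMap F Ω (aeval x (f.map (algebraMap A k)))))
    (M : IntermediateField F Ω) (hM : geomPro ℓ k F Ω ≤ M)
    (S : (algebraicClosure k Ω ≃ₐ[k] algebraicClosure k Ω) →* (M ≃ₐ[F] M)) (hcont : Continuous S)
    (hcompat : ∀ σ (c : algebraicClosure k Ω) (z : M), (z : Ω) = (c : Ω) →
      (S σ z : Ω) = (σ c : Ω)) :
    (∀ O : ValuationSubring Ω, GaussO A k (algebraMap F Ω x) O →
      ∀ σ : algebraicClosure k Ω ≃ₐ[k] algebraicClosure k Ω,
      (∀ c : algebraicClosure k Ω, (c : Ω) ∈ O → ((σ c - c : algebraicClosure k Ω) : Ω) ∈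
        O.nonunits) → ∀ z : M, (z : Ω) ∈ geomPro ℓ k F Ω → (z : Ω) ∈ O →
        ((S σ z - z : M) : Ω) ∈ O.nonunits) ∨
    ∃ W : ValuationSubring M,
      (((∀ c : k, algebraMap F M (algebraMap k F c) ∈ W) ∧
       (∃ e : k, aeval e (f.map (algebraMap A k)) = 0 ∧
          algebraMap F M (x - algebraMap k F e) ∈ W.nonunits) ∧
       (∀ z : F, algebraMap F M z ∈ W →
          ∃ c : k, algebraMap F M (z - algebraMap k F c) ∈ W.nonunits)) ∧
       ∀ σ, ∀ z : M, (z : Ω) ∈ geomPro ℓ k F Ω → (S σ z ∈ W ↔ z ∈ W)) ∧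
      ∀ W' : ValuationSubring M,
        (∀ c : k, algebraMap F M (algebraMap k F c) ∈ W') →
        algebraMap F M (aeval x (f.map (algebraMap A k))) ∈ W'.nonunits →
        (∀ σ, ∀ z : M, (z : Ω) ∈ geomPro ℓ k F Ω → (S σ z ∈ W' ↔ z ∈ W')) →
        ∀ z : M, (z : Ω) ∈ geomPro ℓ k F Ω → (z ∈ W' ↔ z ∈ W) := by
  obtain ⟨T, hTc, hT⟩ := a_ind2 ℓ k F Ω x hx halg M hM _ S hcont
  have hTcompat : ∀ σ (c : algebraicClosure k Ω) (z : geomPro ℓ k F Ω), (z : Ω) = (c : Ω) →
      (T σ z : Ω) = (σ c : Ω) := by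
    intro σ c z hz
    have h1 : (z : Ω) ∈ M := hM z.2
    rw [hT σ ⟨(z : Ω), h1⟩ z rfl]
    exact hcompat σ c _ hz
  obtain ⟨-, -, -, hpad⟩ := padic2 hℓ f hlc hs hdvd h3 x hx halg hcov hunr
  rcases hpad T hTc hTcompat with hL | ⟨W₀, ⟨h1, h2, h3', h4⟩, hun⟩
  · left
    intro O hO σ hσ z hzM hz
    have h5 := hL O hO σ hσ ⟨(z : Ω), hzM⟩ hz
    have h6 : ((S σ z - z : M) : Ω) = ((T σ ⟨(z : Ω), hzM⟩ - ⟨(z : Ω), hzM⟩ :
        geomPro ℓ k F Ω) : Ω) := by
      have h7 := hT σ z ⟨(z : Ω), hzM⟩ rfl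
      change ((S σ z : M) : Ω) - (z : Ω) = ((T σ ⟨(z : Ω), hzM⟩ : geomPro ℓ k F Ω) : Ω) - (z : Ω)
      rw [h7]
    rw [h6]
    exact h5
  right
  obtain ⟨W, ⟨⟨hW1, hW2, hW3⟩, hW4⟩, hWun⟩ := lift_thm (geomPro ℓ k F Ω) M hM S T (fun _ => True) hT
    (fun L W => (∀ c : k, algebraMap F L (algebraMap k F c) ∈ W) ∧
       (∃ e : k, aeval e (f.map (algebraMap A k)) = 0 ∧
          algebraMap F L (x - algebraMap k F e) ∈ W.nonunits) ∧
       (∀ z : F, algebraMap F L z ∈ W →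
          ∃ c : k, algebraMap F L (z - algebraMap k F c) ∈ W.nonunits))
    (fun L W => (∀ c : k, algebraMap F L (algebraMap k F c) ∈ W) ∧
      algebraMap F L (aeval x (f.map (algebraMap A k))) ∈ W.nonunits)
    (by
      rintro W ⟨a1, ⟨e, he, a2⟩, a3⟩
      refine ⟨a1, ⟨e, he, (non_incl ((IntermediateField.inclusion hM :
        geomPro ℓ k F Ω →ₐ[F] M) : geomPro ℓ k F Ω →+* M) W _).1 a2⟩, fun z hz => ?_⟩
      obtain ⟨c, hc⟩ := a3 z hz
      exact ⟨c, (non_incl ((IntermediateField.inclusion hM :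
        geomPro ℓ k F Ω →ₐ[F] M) : geomPro ℓ k F Ω →+* M) W _).1 hc⟩)
    (by
      rintro W ⟨a1, a2⟩
      exact ⟨a1, (non_incl _ _ _).2 a2⟩)
    ⟨W₀, ⟨⟨h1, h2, h3'⟩, fun σ _ z => h4 σ z⟩, fun W' hW' hst =>
      hun W' hW'.1 hW'.2 fun σ z => hst σ trivial z⟩
  exact ⟨W, ⟨⟨hW1, hW2, hW3⟩, fun σ z hz => hW4 σ trivial z hz⟩, fun W' b1 b2 b3 z hz =>
    hWun W' ⟨b1, b2⟩ (fun σ _ z hz => b3 σ z hz) z hz⟩

end main

end Pool.Agent.H71SC
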