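import Pool.Agent.H71SC.GeoM

/-! # Sections: coverings of the line -/

set_option autoImplicit false
set_option linter.all false

open Polynomial FF Pool.Agent.Y157.PS

namespace Pool.Agent.H71SC

/-- `Ω` is an algebraic closure of `κ(x)` -/
theorem closure_R' {k F Ω : Type} [Field k] [Field F] [Field Ω] [Algebra k F] [Algebra F Ω]
    [Algebra k Ω] [IsScalarTower k F Ω] [IsAlgClosed Ω] [Algebra.IsAlgebraic F Ω] {x : F}
    (halg : Algebra.IsAlgebraic (IntermediateField.adjoin k {x}) F) :
    IsAlgClosure (IntermediateField.adjoin (algebraicClosure k Ω) {algebraMap F Ω x}) Ω := by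
  refine ⟨inferInstance, ?_⟩
  set R := IntermediateField.adjoin (algebraicClosure k Ω) {algebraMap F Ω x} with hR
  have hmem : ∀ r : IntermediateField.adjoin k {x}, algebraMap F Ω (r : F) ∈ R := by
    intro r
    have h1 : ∀ w ∈ IntermediateField.adjoin k {x}, w ∈ R.toSubfield.comap (algebraMap F Ω) := by
      refine adjoin_le_sub ?_ ?_
      · intro c
        rw [Subfield.mem_comap, ← IsScalarTower.algebraMap_apply]
        exact R.algebraMap_mem (algebraMap k (algebraicClosure k Ω) c)
      · intro w hw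
        rw [Set.mem_singleton_iff] at hw
        rw [Subfield.mem_comap, hw]
        exact IntermediateField.mem_adjoin_simple_self _ _
    exact h1 r r.2
  haveI : IsScalarTower (IntermediateField.adjoin k {x}) F Ω := inferInstance
  let i : IntermediateField.adjoin k {x} →+* R :=
    ((algebraMap F Ω).comp (algebraMap (IntermediateField.adjoin k {x}) F)).codRestrict
      R.toSubfield hmem
  letI : Algebra (IntermediateField.adjoin k {x}) R := i.toAlgebra
  haveI : IsScalarTower (IntermediateField.adjoin k {x}) R Ω :=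
    IsScalarTower.of_algebraMap_eq fun r => rfl
  have h2 : Algebra.IsAlgebraic (IntermediateField.adjoin k {x}) Ω :=
    Algebra.IsAlgebraic.trans (IntermediateField.adjoin k {x}) F Ω
  exact Algebra.IsAlgebraic.tower_top (K := IntermediateField.adjoin k {x}) R

/-- ramification of `L/K`: the ramification indices divide `ℓ` at the valuation rings with `u` in
the maximal ideal, and are 1 at the others -/
def RamF (ℓ : ℕ) (k : Type) {K Ω : Type} [Field k] [Field K] [Field Ω] [Algebra k Ω] [Algebra K Ω]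
    (u : Ω) (L : IntermediateField K Ω) : Prop :=
  ∀ W : ValuationSubring Ω, (∀ c : k, algebraMap k Ω c ∈ W) → ∀ z ∈ L, z ≠ 0 →
    (u ∈ W.nonunits → ∃ t : K, t ≠ 0 ∧ IsU W (z ^ ℓ / algebraMap K Ω t)) ∧
    (u ∉ W.nonunits → ∃ t : K, t ≠ 0 ∧ IsU W (z / algebraMap K Ω t))

section main

variable {A k F Ω : Type} [CommRing A] [IsDomain A] [IsDiscreteValuationRing A]
    [Finite (IsLocalRing.ResidueField A)] [Field k] [CharZero k] [Algebra A k] [IsFractionRing A k]
    [Field F] [Field Ω] [Algebra k F] [Algebra F Ω] [Algebra k Ω] [IsScalarTower k F Ω]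
    [IsAlgClosed Ω] [Algebra.IsAlgebraic F Ω]

theorem geo' {ℓ : ℕ} [Fact ℓ.Prime]
    (V : ValuationSubring (algebraicClosure k Ω))
    (hVA : ∀ a : A, algebraMap k (algebraicClosure k Ω) (algebraMap A k a) ∈ V)
    (hVm : ∀ a ∈ IsLocalRing.maximalIdeal A,
      algebraMap k (algebraicClosure k Ω) (algebraMap A k a) ∈ V.nonunits)
    (hℓ : IsUnit (ℓ : A)) (f : A[X]) (hlc : IsUnit f.leadingCoeff)
    (hs : (f.map (IsLocalRing.residue A)).Separable) (hdvd : ℓ ∣ f.natDegree)
    (h3 : 3 ≤ f.natDegree) (ϖ : A) (hϖ : Irreducible ϖ) (d : k) (m : ℤ) (hm : ¬ (ℓ : ℤ) ∣ m)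
    (t : A) (ht : IsUnit t) (hd : d = algebraMap A k t * algebraMap A k ϖ ^ m)
    (g : A[X]) (n₀ : ℕ) (hg : g ∣ f ^ n₀)
    (x y : F) (hx : Transcendental k x)
    (halg : Algebra.IsAlgebraic (IntermediateField.adjoin k {x}) F)
    (hxy : algebraMap k F d * y ^ ℓ = aeval x (g.map (algebraMap A k)))
    (hcov : ∀ z : F, ∃ L : IntermediateField
      (IntermediateField.adjoin (algebraicClosure k Ω) {algebraMap F Ω x}) Ω,
      Lev ℓ L ∧ RamF ℓ k (algebraMap F Ω (aeval x (f.map (algebraMap A k)))) L ∧
      algebraMap F Ω z ∈ L)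
    (hun : ∀ W : ValuationSubring Ω, (∀ c : k, algebraMap k Ω c ∈ W) →
      algebraMap F Ω (aeval x (f.map (algebraMap A k))) ∈ W.nonunits →
      ∃ t ∈ geomF k F Ω, t ≠ 0 ∧
        IsU W (t ^ ℓ / algebraMap F Ω (aeval x (f.map (algebraMap A k)))))
    (S : (algebraicClosure k Ω ≃ₐ[k] algebraicClosure k Ω) →*
      (geomPro ℓ k F Ω ≃ₐ[F] geomPro ℓ k F Ω)) (hcont : Continuous S)
    (hcompat : ∀ σ (c : algebraicClosure k Ω) (z : geomPro ℓ k F Ω), (z : Ω) = (c : Ω) →
      (S σ z : Ω) = (σ c : Ω)) :
    ∃ W : ValuationSubring (geomPro ℓ k F Ω),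
      ((∀ c : k, algebraMap F (geomPro ℓ k F Ω) (algebraMap k F c) ∈ W) ∧
       (∀ z ∈ W, ∃ c : algebraicClosure k Ω, ∃ z' ∈ W.nonunits, (z' : Ω) = (z : Ω) - c) ∧
       (∃ e : algebraicClosure k Ω, aeval e (f.map (algebraMap A k)) = 0 ∧
          (∀ σ : algebraicClosure k Ω ≃ₐ[k] algebraicClosure k Ω, Dec V σ → σ e = e) ∧ ∃ z' ∈ W.nonunits, (z' : Ω) = algebraMap F Ω x - e) ∧
       ∀ σ, Dec V σ → ∀ z, S σ z ∈ W ↔ z ∈ W) ∧
      ∀ W' : ValuationSubring (geomPro ℓ k F Ω),
        (∀ c : k, algebraMap F (geomPro ℓ k F Ω) (algebraMap k F c) ∈ W') →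
        algebraMap F (geomPro ℓ k F Ω) (aeval x (f.map (algebraMap A k))) ∈ W'.nonunits →
        (∀ σ, Dec V σ → ∀ z, S σ z ∈ W' ↔ z ∈ W') → W' = W := by
  classical
  have hℓp : ℓ.Prime := Fact.out
  have hac : IsAlgClosure k (algebraicClosure k Ω) := inferInstance
  have hkb : IsAlgClosed (algebraicClosure k Ω) := hac.1
  have hch : CharZero (algebraicClosure k Ω) :=
    charZero_of_injective_algebraMap (algebraMap k (algebraicClosure k Ω)).injective
  letI : Algebra A (algebraicClosure k Ω) :=
    ((algebraMap k (algebraicClosure k Ω)).comp (algebraMap A k)).toAlgebra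
  haveI hst : IsScalarTower A k (algebraicClosure k Ω) :=
    IsScalarTower.of_algebraMap_eq (fun _ => rfl)
  have hVa : ∀ a : A, algebraMap A (algebraicClosure k Ω) a ∈ V := hVA
  have hVm' : ∀ a ∈ IsLocalRing.maximalIdeal A, algebraMap A (algebraicClosure k Ω) a ∈
    V.nonunits := hVm
  have hunit : ∀ b : A, IsUnit b → IsU V (algebraMap A (algebraicClosure k Ω) b) := by
    rintro b ⟨b, rfl⟩
    refine ⟨(b.isUnit.map (algebraMap A (algebraicClosure k Ω))).ne_zero, hVa _, ?_⟩
    have h1 : (algebraMap A (algebraicClosure k Ω) (b : A))⁻¹ =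
        algebraMap A (algebraicClosure k Ω) ((b⁻¹ : Aˣ) : A) := by
      refine inv_eq_of_mul_eq_one_right ?_
      rw [← map_mul, Units.mul_inv, map_one]
    rw [h1]
    exact hVa _
  have hAk : Function.Injective (algebraMap A k) := IsFractionRing.injective A k
  have hAinj : Function.Injective (algebraMap A (algebraicClosure k Ω)) := by
    rw [IsScalarTower.algebraMap_eq A k (algebraicClosure k Ω)]
    exact (algebraMap k (algebraicClosure k Ω)).injective.comp hAk
  have hϖk0 : algebraMap A k ϖ ≠ 0 := by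
    rw [Ne, map_eq_zero_iff _ hAk]
    exact hϖ.ne_zero
  have hlck0 : algebraMap A k f.leadingCoeff ≠ 0 := by
    rw [Ne, map_eq_zero_iff _ hAk]
    exact hlc.ne_zero
  have hlcg : IsUnit g.leadingCoeff := by
    obtain ⟨h, hh⟩ := hg
    have h1 : g.leadingCoeff * h.leadingCoeff = f.leadingCoeff ^ n₀ := by
      rw [← leadingCoeff_mul, ← hh, leadingCoeff_pow]
    exact isUnit_of_mul_isUnit_left (y := h.leadingCoeff) (by rw [h1]; exact hlc.pow _)
  have hlcgk0 : algebraMap A k g.leadingCoeff ≠ 0 := by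
    rw [Ne, map_eq_zero_iff _ hAk]
    exact hlcg.ne_zero
  have hd0 : d ≠ 0 := by
    rw [hd]
    refine mul_ne_zero ?_ (zpow_ne_zero _ hϖk0)
    rw [Ne, map_eq_zero_iff _ hAk]
    exact ht.ne_zero
  -- the element `δ`
  obtain ⟨δ, hδ⟩ : ∃ δ : algebraicClosure k Ω, δ ^ ℓ =
      algebraMap k (algebraicClosure k Ω) (d / algebraMap A k g.leadingCoeff) :=
    IsAlgClosed.exists_pow_nat_eq _ hℓp.pos
  have hδ0 : δ ≠ 0 := by
    rintro rfl
    rw [zero_pow hℓp.ne_zero] at hδ
    exact (_root_.map_ne_zero _).2 (div_ne_zero hd0 hlcgk0) hδ.symm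
  have hBase : Base ℓ A k (algebraicClosure k Ω) V ϖ δ m := by
    refine ⟨hℓ, hVa, hVm', hϖ, hm, ⟨_, hδ⟩, ?_⟩
    have h1 : δ ^ ℓ / algebraMap A (algebraicClosure k Ω) ϖ ^ m =
        algebraMap A (algebraicClosure k Ω) t /
          algebraMap A (algebraicClosure k Ω) g.leadingCoeff := by
      have h2 : algebraMap A (algebraicClosure k Ω) ϖ ≠ 0 := by
        rw [Ne, map_eq_zero_iff _ hAinj]
        exact hϖ.ne_zero
      have h5 : algebraMap A (algebraicClosure k Ω) ϖ ^ m ≠ 0 := zpow_ne_zero _ h2
      rw [hδ, hd, map_div₀, map_mul, map_zpow₀, ← IsScalarTower.algebraMap_apply,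
        ← IsScalarTower.algebraMap_apply, ← IsScalarTower.algebraMap_apply]
      field_simp
    rw [h1]
    exact (hunit t ht).div (hunit _ hlcg)
  -- the roots
  obtain ⟨hnd, hdist⟩ := Pool.Agent.W623.SecC.roots_distinct V hVa hVm' f hlc hs
  set P := f.map (algebraMap A (algebraicClosure k Ω)) with hP
  have hlc0 : algebraMap A (algebraicClosure k Ω) f.leadingCoeff ≠ 0 := (hunit _ hlc).1
  have hP0 : P ≠ 0 := by
    intro h
    apply hlc0
    rw [← leadingCoeff_map_of_leadingCoeff_ne_zero _ hlc0, ← hP, h, leadingCoeff_zero]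
  have hPdeg : P.natDegree = f.natDegree := natDegree_map_of_leadingCoeff_ne_zero _ hlc0
  set B : Finset (algebraicClosure k Ω) := P.roots.toFinset with hBdef
  have hmemB : ∀ θ, θ ∈ B ↔ aeval θ f = 0 := by
    intro θ
    rw [hBdef, Multiset.mem_toFinset, mem_roots hP0, IsRoot.def, hP, eval_map]
    rfl
  have hcard : B.card = f.natDegree := by
    rw [hBdef, Multiset.toFinset_card_of_nodup hnd, ← hPdeg]
    exact (IsAlgClosed.splits P).natDegree_eq_card_roots.symm
  have hGood : Good V B := by
    constructor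
    · intro e he
      exact Pool.Agent.W308.SecC.root_mem V hVa f hlc _ ((hmemB _).1 he)
    · intro e he e' he' hne
      exact hdist e (Multiset.mem_toFinset.1 he) e' (Multiset.mem_toFinset.1 he') hne
  -- the product formula
  have hPx : ∀ z : Ω, P.eval₂ (algebraMap (algebraicClosure k Ω) Ω) z =
      algebraMap (algebraicClosure k Ω) Ω (algebraMap A (algebraicClosure k Ω) f.leadingCoeff) *
        ∏ e ∈ B, (z - algebraMap (algebraicClosure k Ω) Ω e) := by
    intro z
    have h1 := (IsAlgClosed.splits P).eq_prod_roots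
    have h5 : P.leadingCoeff = algebraMap A (algebraicClosure k Ω) f.leadingCoeff :=
      leadingCoeff_map_of_leadingCoeff_ne_zero _ hlc0
    rw [h5] at h1
    have h6 : ∏ e ∈ B, (z - algebraMap (algebraicClosure k Ω) Ω e) =
        (P.roots.map fun e => z - algebraMap (algebraicClosure k Ω) Ω e).prod := by
      rw [hBdef, Finset.prod, Multiset.toFinset_val, Multiset.dedup_eq_self.2 hnd]
    rw [h6]
    conv_lhs => rw [h1]
    rw [eval₂_mul, eval₂_C, ← coe_eval₂RingHom, map_multiset_prod, Multiset.map_map]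
    congr 2
    refine Multiset.map_congr rfl fun a _ => ?_
    simp
  have hfx : algebraMap F Ω (aeval x (f.map (algebraMap A k))) =
      P.eval₂ (algebraMap (algebraicClosure k Ω) Ω) (algebraMap F Ω x) := by
    rw [aeval_def, hom_eval₂, hP, eval₂_map, eval₂_map, ← IsScalarTower.algebraMap_eq k F Ω,
      IsScalarTower.algebraMap_eq A k (algebraicClosure k Ω), ← RingHom.comp_assoc,
      ← IsScalarTower.algebraMap_eq k (algebraicClosure k Ω) Ω]
  -- the radical `Y₁`
  set P₁ := g.map (algebraMap A (algebraicClosure k Ω)) with hP₁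
  have hlcg0 : algebraMap A (algebraicClosure k Ω) g.leadingCoeff ≠ 0 := (hunit _ hlcg).1
  have hP₁0 : P₁ ≠ 0 := by
    intro h
    apply hlcg0
    rw [← leadingCoeff_map_of_leadingCoeff_ne_zero _ hlcg0, ← hP₁, h, leadingCoeff_zero]
  have hP₁B : P₁.roots.toFinset ⊆ B := by
    intro e he
    rw [Multiset.mem_toFinset, mem_roots hP₁0, IsRoot.def] at he
    rw [hBdef, Multiset.mem_toFinset, mem_roots hP0, IsRoot.def]
    have h1 : P₁ ∣ P ^ n₀ := by
      rw [hP, ← Polynomial.map_pow]
      exact Polynomial.map_dvd _ hg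
    obtain ⟨q, hq⟩ := h1
    have h2 : (P ^ n₀).eval e = 0 := by rw [hq, eval_mul, he, zero_mul]
    rw [eval_pow] at h2
    exact eq_zero_of_pow_eq_zero h2
  have hP₁x : ∀ z : Ω, P₁.eval₂ (algebraMap (algebraicClosure k Ω) Ω) z =
      algebraMap (algebraicClosure k Ω) Ω (algebraMap A (algebraicClosure k Ω) g.leadingCoeff) *
        ∏ e ∈ B, (z - algebraMap (algebraicClosure k Ω) Ω e) ^ (P₁.roots.count e) := by
    intro z
    have h1 := (IsAlgClosed.splits P₁).eq_prod_roots
    have h5 : P₁.leadingCoeff = algebraMap A (algebraicClosure k Ω) g.leadingCoeff :=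
      leadingCoeff_map_of_leadingCoeff_ne_zero _ hlcg0
    rw [h5] at h1
    have h6 : ∏ e ∈ B, (z - algebraMap (algebraicClosure k Ω) Ω e) ^ (P₁.roots.count e) =
        (P₁.roots.map fun e => z - algebraMap (algebraicClosure k Ω) Ω e).prod := by
      rw [Finset.prod_multiset_map_count]
      refine (Finset.prod_subset hP₁B fun e _ he => ?_).symm
      rw [Multiset.count_eq_zero_of_notMem (fun h => he (Multiset.mem_toFinset.2 h)), pow_zero]
    rw [h6]
    conv_lhs => rw [h1]
    rw [eval₂_mul, eval₂_C, ← coe_eval₂RingHom, map_multiset_prod, Multiset.map_map]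
    congr 2
    refine Multiset.map_congr rfl fun a _ => ?_
    simp
  have hgx : algebraMap F Ω (aeval x (g.map (algebraMap A k))) =
      P₁.eval₂ (algebraMap (algebraicClosure k Ω) Ω) (algebraMap F Ω x) := by
    rw [aeval_def, hom_eval₂, hP₁, eval₂_map, eval₂_map, ← IsScalarTower.algebraMap_eq k F Ω,
      IsScalarTower.algebraMap_eq A k (algebraicClosure k Ω), ← RingHom.comp_assoc,
      ← IsScalarTower.algebraMap_eq k (algebraicClosure k Ω) Ω]
  have hY₁ : (algebraMap (algebraicClosure k Ω) Ω δ * algebraMap F Ω y) ^ ℓ =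
      ∏ e ∈ B, (algebraMap F Ω x - algebraMap (algebraicClosure k Ω) Ω e) ^
        (P₁.roots.count e) := by
    have h1 := congrArg (algebraMap F Ω) hxy
    rw [map_mul, map_pow, ← IsScalarTower.algebraMap_apply, hgx, hP₁x] at h1
    have h5 : algebraMap (algebraicClosure k Ω) Ω
        (algebraMap A (algebraicClosure k Ω) g.leadingCoeff) ≠ 0 := (_root_.map_ne_zero _).2 hlcg0
    have h6 : (algebraMap (algebraicClosure k Ω) Ω δ) ^ ℓ = algebraMap k Ω d /
        algebraMap (algebraicClosure k Ω) Ω
        (algebraMap A (algebraicClosure k Ω) g.leadingCoeff) := by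
      have h7 := congrArg (algebraMap (algebraicClosure k Ω) Ω) hδ
      rw [map_pow, map_div₀, map_div₀, ← IsScalarTower.algebraMap_apply] at h7
      exact h7
    rw [mul_pow, h6, div_mul_eq_mul_div, h1, mul_div_cancel_left₀ _ h5]
  -- the covering field
  have hX0 : Transcendental k (algebraMap F Ω x) :=
    (transcendental_algebraMap_iff (R := k) (algebraMap F Ω).injective (a := x)).2 hx
  have hX1 := trans_up hX0
  have hrat := ratF_adj hX1
  haveI hclR : IsAlgClosure (IntermediateField.adjoin (algebraicClosure k Ω) {algebraMap F Ω x}) Ω :=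
    closure_R' halg
  haveI halgR : Algebra.IsAlgebraic (IntermediateField.adjoin (algebraicClosure k Ω)
    {algebraMap F Ω x}) Ω := hclR.isAlgebraic
  haveI hnorR : Normal (IntermediateField.adjoin (algebraicClosure k Ω)
    {algebraMap F Ω x}) Ω := IsAlgClosure.normal _ _
  obtain ⟨Y0, hY0⟩ : ∃ Y0 : Ω, Y0 ^ ℓ =
      ∏ e ∈ B, (algebraMap F Ω x - algebraMap (algebraicClosure k Ω) Ω e) :=
    IsAlgClosed.exists_pow_nat_eq _ hℓp.pos
  set R := IntermediateField.adjoin (algebraicClosure k Ω) {algebraMap F Ω x} with hRdef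
  obtain ⟨M, hM⟩ : ∃ M : IntermediateField R Ω, ∀ z, z ∈ M ↔
      z ∈ maxPro ℓ (algebraicClosure k Ω) (IntermediateField.adjoin R {Y0}) Ω :=
    ⟨(maxPro ℓ (algebraicClosure k Ω) (IntermediateField.adjoin R {Y0}) Ω).restrictScalars R,
      fun z => Iff.rfl⟩
  have hYM : Y0 ∈ M := by
    rw [hM]
    exact (maxPro ℓ (algebraicClosure k Ω) (IntermediateField.adjoin R {Y0}) Ω).algebraMap_mem
      ⟨Y0, IntermediateField.mem_adjoin_simple_self _ _⟩
  have hCov : Cov ℓ (algebraicClosure k Ω) R M
      ⟨algebraMap F Ω x, IntermediateField.mem_adjoin_simple_self _ _⟩ B ⟨Y0, hYM⟩ :=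
    a_cov ℓ (algebraicClosure k Ω) R Ω _ hrat B (by rw [hcard]; exact hdvd)
      (by rw [hcard]; exact h3) Y0 hY0 M hM ⟨Y0, hYM⟩ rfl
  have hkW : ∀ W : ValuationSubring Ω, (∀ c : algebraicClosure k Ω,
      algebraMap (algebraicClosure k Ω) Ω c ∈ W) → ∀ c : k, algebraMap k Ω c ∈ W := by
    intro W hW c
    exact hW (algebraMap k (algebraicClosure k Ω) c)
  have hfX : algebraMap F Ω (aeval x (f.map (algebraMap A k))) =
      algebraMap (algebraicClosure k Ω) Ω (algebraMap A (algebraicClosure k Ω) f.leadingCoeff) *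
        ∏ e ∈ B, (algebraMap F Ω x - algebraMap (algebraicClosure k Ω) Ω e) := by
    rw [hfx, hPx]
  have hXe : ∀ e : algebraicClosure k Ω,
      algebraMap F Ω x - algebraMap (algebraicClosure k Ω) Ω e ≠ 0 := by
    intro e h0
    apply hX1
    rw [sub_eq_zero.1 h0]
    exact isAlgebraic_algebraMap _
  -- `k̄ F ⊆ M`
  have hFM : ∀ z : F, algebraMap F Ω z ∈ M := by
    intro z
    obtain ⟨L, hL, hLr, hz⟩ := hcov z
    refine le_ram hCov L hL ?_ _ hz
    intro W hW w hw hw0
    obtain ⟨h1, h2⟩ := hLr W (hkW W hW) w hw hw0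
    by_cases hu : algebraMap F Ω (aeval x (f.map (algebraMap A k))) ∈ W.nonunits
    · obtain ⟨t, ht0, ht1⟩ := h1 hu
      refine ⟨t, ht0, Or.inr ⟨?_, ht1⟩⟩
      by_contra hno
      push Not at hno
      have hinv : (algebraMap F Ω (aeval x (f.map (algebraMap A k))))⁻¹ ∈ W := by
        rw [hfX, mul_inv, ← Finset.prod_inv_distrib]
        refine mul_mem ?_ (prod_mem fun e he => ?_)
        · rw [← map_inv₀]
          exact hW _
        · exact inv_mem_of_not_nonunit (hno e he)
      rcases (nonunits_iff.1 hu).2 with h9 | h9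
      · rw [hfX] at h9
        exact (mul_ne_zero ((_root_.map_ne_zero _).2 hlc0)
          (Finset.prod_ne_zero_iff.2 fun e _ => hXe e)) h9
      · exact h9 hinv
    · obtain ⟨t, ht0, ht1⟩ := h2 hu
      exact ⟨t, ht0, Or.inl ht1⟩
  have hRg : ∀ r : R, algebraMap R Ω r ∈ geomF k F Ω := by
    intro r
    refine adjoin_le_sub (T := (geomF k F Ω).toSubfield) ?_ ?_ _ r.2
    · intro c
      exact IntermediateField.subset_adjoin F _ c.2
    · intro w hw
      rw [Set.mem_singleton_iff] at hw
      rw [hw]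
      exact (geomF k F Ω).algebraMap_mem x
  let K : IntermediateField R Ω := { (geomF k F Ω).toSubfield with algebraMap_mem' := hRg }
  have hKg : ∀ z, z ∈ K ↔ z ∈ geomF k F Ω := fun z => Iff.rfl
  have hKM : K ≤ M := by
    intro z hz
    refine adjoin_le_sub (T := M.toSubfield) hFM ?_ z ((hKg z).1 hz)
    intro c hc
    exact M_const (κ := algebraicClosure k Ω) (M := M) ⟨c, hc⟩
  have hMN : ∀ z, z ∈ M ↔ z ∈ geomPro ℓ k F Ω := by
    intro z
    rw [← eqm hCov K hKM ?_ z]
    · let e : K ≃+* geomF k F Ω :=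
        { toFun := fun w => ⟨w.1, w.2⟩
          invFun := fun w => ⟨w.1, w.2⟩
          left_inv := fun w => rfl
          right_inv := fun w => rfl
          map_mul' := fun w w' => rfl
          map_add' := fun w w' => rfl }
      refine maxPro_congr e (fun a => rfl) (fun W => ⟨fun h c => ?_, fun h c => ?_⟩) z
      · exact Pool.Agent.W620.SC.const_mem h c.2
      · exact h (algebraMap k (algebraicClosure k Ω) c)
    · intro W hW e he hxe
      have h1 : IsU W (algebraMap F Ω (aeval x (f.map (algebraMap A k))) /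
          (algebraMap F Ω x - algebraMap (algebraicClosure k Ω) Ω e)) := by
        have h2 : algebraMap F Ω (aeval x (f.map (algebraMap A k))) /
            (algebraMap F Ω x - algebraMap (algebraicClosure k Ω) Ω e) =
            algebraMap (algebraicClosure k Ω) Ω
              (algebraMap A (algebraicClosure k Ω) f.leadingCoeff) *
            ∏ e' ∈ B.erase e, (algebraMap F Ω x - algebraMap (algebraicClosure k Ω) Ω e') := by
          rw [hfX, ← Finset.mul_prod_erase B _ he]
          have := hXe e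
          field_simp
        rw [h2]
        have hcU : ∀ c : algebraicClosure k Ω, c ≠ 0 →
            IsU W (algebraMap (algebraicClosure k Ω) Ω c) := fun c hc =>
          ⟨(_root_.map_ne_zero _).2 hc, hW c, by rw [← map_inv₀]; exact hW _⟩
        refine (hcU _ hlc0).mul ?_
        have h3 : ∀ e' ∈ B.erase e,
            IsU W (algebraMap F Ω x - algebraMap (algebraicClosure k Ω) Ω e') := by
          intro e' he'
          have hne : e - e' ≠ 0 := sub_ne_zero.2 (Finset.ne_of_mem_erase he').symm
          have h4 : algebraMap F Ω x - algebraMap (algebraicClosure k Ω) Ω e' =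
              (algebraMap F Ω x - algebraMap (algebraicClosure k Ω) Ω e) +
              algebraMap (algebraicClosure k Ω) Ω (e - e') := by
            rw [map_sub]; ring
          refine isU_of_not_nonunit ?_ fun hn => ?_
          · rw [h4]
            exact add_mem (non_mem hxe) (hW _)
          · have h5 : algebraMap (algebraicClosure k Ω) Ω (e - e') ∈ W.nonunits := by
              have h6 : algebraMap (algebraicClosure k Ω) Ω (e - e') =
                  (algebraMap F Ω x - algebraMap (algebraicClosure k Ω) Ω e') -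
                  (algebraMap F Ω x - algebraMap (algebraicClosure k Ω) Ω e) := by
                rw [map_sub]; ring
              rw [h6]
              exact non_sub hn hxe
            exact (hcU _ hne).not_nonunit h5
        have h5 : ∀ T : Finset (algebraicClosure k Ω), T ⊆ B.erase e →
            IsU W (∏ e' ∈ T, (algebraMap F Ω x - algebraMap (algebraicClosure k Ω) Ω e')) := by
          intro T
          induction T using Finset.induction_on with
          | empty => intro _; rw [Finset.prod_empty]; exact isU_one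
          | insert a T ha ih =>
            intro hT
            rw [Finset.prod_insert ha]
            exact (h3 a (hT (Finset.mem_insert_self a T))).mul
              (ih fun b hb => hT (Finset.mem_insert_of_mem hb))
        exact h5 _ (Finset.Subset.refl _)
      have h2 : algebraMap F Ω (aeval x (f.map (algebraMap A k))) ∈ W.nonunits := by
        have h3 : algebraMap F Ω (aeval x (f.map (algebraMap A k))) =
            (algebraMap F Ω (aeval x (f.map (algebraMap A k))) /
            (algebraMap F Ω x - algebraMap (algebraicClosure k Ω) Ω e)) *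
            (algebraMap F Ω x - algebraMap (algebraicClosure k Ω) Ω e) := by
          rw [div_mul_cancel₀ _ (hXe e)]
        rw [h3]
        exact non_mul h1.2.1 hxe
      obtain ⟨t, htg, ht0, ht1⟩ := hun W (hkW W hW) h2
      refine ⟨t, (hKg t).2 htg, ht0, ?_⟩
      have h3 : t ^ ℓ / (algebraMap F Ω x - algebraMap (algebraicClosure k Ω) Ω e) =
          (t ^ ℓ / algebraMap F Ω (aeval x (f.map (algebraMap A k)))) *
          (algebraMap F Ω (aeval x (f.map (algebraMap A k))) /
            (algebraMap F Ω x - algebraMap (algebraicClosure k Ω) Ω e)) := by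
        have h4 : algebraMap F Ω (aeval x (f.map (algebraMap A k))) ≠ 0 := by
          intro h0
          apply ht1.1
          rw [h0, div_zero]
        have := hXe e
        field_simp
      change IsU W (t ^ ℓ / (algebraMap F Ω x - algebraMap (algebraicClosure k Ω) Ω e))
      rw [h3]
      exact ht1.mul h1
  have hBstab : ∀ σ : algebraicClosure k Ω ≃ₐ[k] algebraicClosure k Ω, ∀ e ∈ B, σ e ∈ B := by
    intro σ e he
    rw [hmemB] at he ⊢
    have h1 : aeval e (f.map (algebraMap A k)) = 0 := by rw [aeval_map_algebraMap]; exact he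
    have h2 : aeval (σ e) (f.map (algebraMap A k)) = 0 := by
      have h3 := aeval_algHom_apply σ.toAlgHom e (f.map (algebraMap A k))
      rw [h1, map_zero] at h3
      exact h3
    rwa [aeval_map_algebraMap] at h2
  obtain ⟨W, ⟨h1, h2, ⟨e, heB, hfix, he⟩, h4⟩, hun'⟩ :=
    geoI' V hVa hVm' ϖ δ m hBase ⟨algebraMap F Ω x, IntermediateField.mem_adjoin_simple_self _ _⟩
      B hGood hBstab M ⟨Y0, hYM⟩ hCov (fun e => P₁.roots.count e) x y rfl hY₁
      (geomPro ℓ k F Ω) hMN S hcont (fun σ c z hz => hcompat σ c z hz)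
  refine ⟨W, ⟨?_, h2, ⟨e, ?_, hfix, he⟩, h4⟩, ?_⟩
  · intro c
    exact h1 (algebraMap k (algebraicClosure k Ω) c) _
      (IsScalarTower.algebraMap_apply k F Ω c).symm
  · rw [aeval_map_algebraMap]
    exact (hmemB e).1 heB
  · intro W' hW'1 hW'2 hW'3
    have hconst : ∀ (c : algebraicClosure k Ω) (z : geomPro ℓ k F Ω), (z : Ω) = (c : Ω) →
        z ∈ W' := by
      intro c z hz
      have h5 : IsIntegral k (c : Ω) := c.2
      obtain ⟨p, hp, hpc⟩ := h5
      refine alg_mem ((algebraMap F (geomPro ℓ k F Ω)).comp (algebraMap k F)) W' hW'1 z p hp ?_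
      apply (algebraMap (geomPro ℓ k F Ω) Ω).injective
      rw [hom_eval₂, map_zero]
      have h6 : (algebraMap (geomPro ℓ k F Ω) Ω).comp
          ((algebraMap F (geomPro ℓ k F Ω)).comp (algebraMap k F)) = algebraMap k Ω := by
        ext a
        exact (IsScalarTower.algebraMap_apply k F Ω a).symm
      have h7 : algebraMap (geomPro ℓ k F Ω) Ω z = (c : Ω) := hz
      rw [h6, h7]
      exact hpc
    refine hun' W' hconst ?_ hW'3
    by_contra hno
    push Not at hno
    let ι : algebraicClosure k Ω → geomPro ℓ k F Ω := fun c => ⟨(c : Ω), const_geomPro ℓ k c⟩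
    have hno' : ∀ e ∈ B, (algebraMap F (geomPro ℓ k F Ω) x - ι e)⁻¹ ∈ W' := by
      intro e he
      apply inv_mem_of_not_nonunit
      intro hn
      exact hno e he _ hn rfl
    have hlcι : (ι (algebraMap A (algebraicClosure k Ω) f.leadingCoeff))⁻¹ ∈ W' := by
      have h5 : (ι (algebraMap A (algebraicClosure k Ω) f.leadingCoeff))⁻¹ =
          ι (algebraMap A (algebraicClosure k Ω) f.leadingCoeff)⁻¹ := Subtype.ext rfl
      rw [h5]
      exact hconst (algebraMap A (algebraicClosure k Ω) f.leadingCoeff)⁻¹ _ rfl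
    have hfN : algebraMap F (geomPro ℓ k F Ω) (aeval x (f.map (algebraMap A k))) =
        ι (algebraMap A (algebraicClosure k Ω) f.leadingCoeff) *
          ∏ e ∈ B, (algebraMap F (geomPro ℓ k F Ω) x - ι e) := by
      apply (algebraMap (geomPro ℓ k F Ω) Ω).injective
      rw [map_mul, map_prod]
      have h5 : algebraMap (geomPro ℓ k F Ω) Ω
          (algebraMap F (geomPro ℓ k F Ω) (aeval x (f.map (algebraMap A k)))) =
          algebraMap F Ω (aeval x (f.map (algebraMap A k))) := rfl
      rw [h5, hfx, hPx]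
      rfl
    have h8 : (algebraMap F (geomPro ℓ k F Ω) (aeval x (f.map (algebraMap A k))))⁻¹ ∈ W' := by
      rw [hfN, mul_inv, ← Finset.prod_inv_distrib]
      exact mul_mem hlcι (prod_mem hno')
    rcases (nonunits_iff.1 hW'2).2 with h9 | h9
    · rw [map_eq_zero] at h9
      have h10 : f.map (algebraMap A k) ≠ 0 := by
        intro h11
        apply hlck0
        rw [← leadingCoeff_map_of_leadingCoeff_ne_zero _ hlck0, h11, leadingCoeff_zero]
      exact h10 ((transcendental_iff.1 hx) _ h9)
    · exact h9 h8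

end main

end Pool.Agent.H71SC
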