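import Pool.Agent.H71SC.Setup

/-! # Sections: coverings of the line, dichotomy -/

set_option autoImplicit false
set_option linter.all false

open Polynomial FF Pool.Agent.Y157.PS

namespace Pool.Agent.H71SC

section main

variable {A k F Ω : Type} [CommRing A] [IsDomain A] [IsDiscreteValuationRing A]
    [Finite (IsLocalRing.ResidueField A)] [Field k] [CharZero k] [Algebra A k] [IsFractionRing A k]
    [Field F] [Field Ω] [Algebra k F] [Algebra F Ω] [Algebra k Ω] [IsScalarTower k F Ω]
    [IsAlgClosed Ω] [Algebra.IsAlgebraic F Ω]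

/-- the roots of a good polynomial -/
theorem roots_setup (V : ValuationSubring (algebraicClosure k Ω))
    (hVA : ∀ a : A, algebraMap k (algebraicClosure k Ω) (algebraMap A k a) ∈ V)
    (hVm : ∀ a ∈ IsLocalRing.maximalIdeal A,
      algebraMap k (algebraicClosure k Ω) (algebraMap A k a) ∈ V.nonunits)
    {ℓ : ℕ} [Fact ℓ.Prime] (f : A[X]) (hlc : IsUnit f.leadingCoeff)
    (hs : (f.map (IsLocalRing.residue A)).Separable) (x : F) :
    ∃ B : Finset (algebraicClosure k Ω), B.card = f.natDegree ∧ Good V B ∧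
      (∀ θ, θ ∈ B ↔ aeval θ (f.map (algebraMap A k)) = 0) ∧
      ∃ c : algebraicClosure k Ω, c ≠ 0 ∧
        algebraMap F Ω (aeval x (f.map (algebraMap A k))) =
          algebraMap (algebraicClosure k Ω) Ω c *
            ∏ e ∈ B, (algebraMap F Ω x - algebraMap (algebraicClosure k Ω) Ω e) := by
  classical
  have hℓp : ℓ.Prime := Fact.out
  have hac : IsAlgClosure k (algebraicClosure k Ω) := inferInstance
  have hkb : IsAlgClosed (algebraicClosure k Ω) := hac.1
  have hch : CharZero (algebraicClosure k Ω) :=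
    charZero_of_injective_algebraMap (algebraMap k (algebraicClosure k Ω)).injective
  letI : Algebra A (algebraicClosure k Ω) :=
    ((algebraMap k (algebraicClosure k Ω)).comp (algebraMap A k)).toAlgebra
  haveI hst : IsScalarTower A k (algebraicClosure k Ω) :=
    IsScalarTower.of_algebraMap_eq (fun _ => rfl)
  have hVa : ∀ a : A, algebraMap A (algebraicClosure k Ω) a ∈ V := hVA
  have hVm' : ∀ a ∈ IsLocalRing.maximalIdeal A, algebraMap A (algebraicClosure k Ω) a ∈
    V.nonunits := hVm
  have hunit : ∀ b : A, IsUnit b → IsU V (algebraMap A (algebraicClosure k Ω) b) := by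
    rintro b ⟨b, rfl⟩
    refine ⟨(b.isUnit.map (algebraMap A (algebraicClosure k Ω))).ne_zero, hVa _, ?_⟩
    have h1 : (algebraMap A (algebraicClosure k Ω) (b : A))⁻¹ =
        algebraMap A (algebraicClosure k Ω) ((b⁻¹ : Aˣ) : A) := by
      refine inv_eq_of_mul_eq_one_right ?_
      rw [← map_mul, Units.mul_inv, map_one]
    rw [h1]
    exact hVa _
  have hAk : Function.Injective (algebraMap A k) := IsFractionRing.injective A k
  have hAinj : Function.Injective (algebraMap A (algebraicClosure k Ω)) := by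
    rw [IsScalarTower.algebraMap_eq A k (algebraicClosure k Ω)]
    exact (algebraMap k (algebraicClosure k Ω)).injective.comp hAk
  -- the roots
  obtain ⟨hnd, hdist⟩ := Pool.Agent.W623.SecC.roots_distinct V hVa hVm' f hlc hs
  set P := f.map (algebraMap A (algebraicClosure k Ω)) with hP
  have hlc0 : algebraMap A (algebraicClosure k Ω) f.leadingCoeff ≠ 0 := (hunit _ hlc).1
  have hP0 : P ≠ 0 := by
    intro h
    apply hlc0
    rw [← leadingCoeff_map_of_leadingCoeff_ne_zero _ hlc0, ← hP, h, leadingCoeff_zero]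
  have hPdeg : P.natDegree = f.natDegree := natDegree_map_of_leadingCoeff_ne_zero _ hlc0
  set B : Finset (algebraicClosure k Ω) := P.roots.toFinset with hBdef
  have hmemB : ∀ θ, θ ∈ B ↔ aeval θ f = 0 := by
    intro θ
    rw [hBdef, Multiset.mem_toFinset, mem_roots hP0, IsRoot.def, hP, eval_map]
    rfl
  have hcard : B.card = f.natDegree := by
    rw [hBdef, Multiset.toFinset_card_of_nodup hnd, ← hPdeg]
    exact (IsAlgClosed.splits P).natDegree_eq_card_roots.symm
  have hGood : Good V B := by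
    constructor
    · intro e he
      exact Pool.Agent.W308.SecC.root_mem V hVa f hlc _ ((hmemB _).1 he)
    · intro e he e' he' hne
      exact hdist e (Multiset.mem_toFinset.1 he) e' (Multiset.mem_toFinset.1 he') hne
  -- the product formula
  have hPx : ∀ z : Ω, P.eval₂ (algebraMap (algebraicClosure k Ω) Ω) z =
      algebraMap (algebraicClosure k Ω) Ω (algebraMap A (algebraicClosure k Ω) f.leadingCoeff) *
        ∏ e ∈ B, (z - algebraMap (algebraicClosure k Ω) Ω e) := by
    intro z
    have h1 := (IsAlgClosed.splits P).eq_prod_roots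
    have h5 : P.leadingCoeff = algebraMap A (algebraicClosure k Ω) f.leadingCoeff :=
      leadingCoeff_map_of_leadingCoeff_ne_zero _ hlc0
    rw [h5] at h1
    have h6 : ∏ e ∈ B, (z - algebraMap (algebraicClosure k Ω) Ω e) =
        (P.roots.map fun e => z - algebraMap (algebraicClosure k Ω) Ω e).prod := by
      rw [hBdef, Finset.prod, Multiset.toFinset_val, Multiset.dedup_eq_self.2 hnd]
    rw [h6]
    conv_lhs => rw [h1]
    rw [eval₂_mul, eval₂_C, ← coe_eval₂RingHom, map_multiset_prod, Multiset.map_map]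
    congr 2
    refine Multiset.map_congr rfl fun a _ => ?_
    simp
  have hfx : algebraMap F Ω (aeval x (f.map (algebraMap A k))) =
      P.eval₂ (algebraMap (algebraicClosure k Ω) Ω) (algebraMap F Ω x) := by
    rw [aeval_def, hom_eval₂, hP, eval₂_map, eval₂_map, ← IsScalarTower.algebraMap_eq k F Ω,
      IsScalarTower.algebraMap_eq A k (algebraicClosure k Ω), ← RingHom.comp_assoc,
      ← IsScalarTower.algebraMap_eq k (algebraicClosure k Ω) Ω]
  refine ⟨B, hcard, hGood, fun θ => ?_, _, hlc0, by rw [hfx, hPx]⟩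
  rw [aeval_map_algebraMap]
  exact hmemB θ

/-- the covering field of a good polynomial -/
theorem setup_cov {ℓ : ℕ} [Fact ℓ.Prime] {R : Type} [Field R] [Algebra (algebraicClosure k Ω) R]
    [Algebra R Ω] [IsScalarTower (algebraicClosure k Ω) R Ω] [IsAlgClosure R Ω]
    (x' : R) (hrat : RatF (algebraicClosure k Ω) x')
    (V : ValuationSubring (algebraicClosure k Ω))
    (hVA : ∀ a : A, algebraMap k (algebraicClosure k Ω) (algebraMap A k a) ∈ V)
    (hVm : ∀ a ∈ IsLocalRing.maximalIdeal A,
      algebraMap k (algebraicClosure k Ω) (algebraMap A k a) ∈ V.nonunits)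
    (f : A[X]) (hlc : IsUnit f.leadingCoeff)
    (hs : (f.map (IsLocalRing.residue A)).Separable) (hdvd : ℓ ∣ f.natDegree)
    (h3 : 3 ≤ f.natDegree) (x : F) (hx' : algebraMap R Ω x' = algebraMap F Ω x) :
    ∃ (B : Finset (algebraicClosure k Ω)) (M : IntermediateField R Ω) (Y : M)
      (c : algebraicClosure k Ω), Good V B ∧
      (∀ θ, θ ∈ B ↔ aeval θ (f.map (algebraMap A k)) = 0) ∧ c ≠ 0 ∧
      algebraMap F Ω (aeval x (f.map (algebraMap A k))) =
        algebraMap (algebraicClosure k Ω) Ω c *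
          ∏ e ∈ B, (algebraMap R Ω x' - algebraMap (algebraicClosure k Ω) Ω e) ∧
      Cov ℓ (algebraicClosure k Ω) R M x' B Y ∧
      ∀ z : Ω, z ∈ M ↔
        z ∈ orbi (K := R) ℓ k (algebraMap F Ω (aeval x (f.map (algebraMap A k)))) := by
  have hℓp : ℓ.Prime := Fact.out
  have hac : IsAlgClosure k (algebraicClosure k Ω) := inferInstance
  have hkb : IsAlgClosed (algebraicClosure k Ω) := hac.1
  have hch : CharZero (algebraicClosure k Ω) :=
    charZero_of_injective_algebraMap (algebraMap k (algebraicClosure k Ω)).injective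
  haveI halgR : Algebra.IsAlgebraic R Ω := IsAlgClosure.isAlgebraic
  haveI hnorR : Normal R Ω := IsAlgClosure.normal _ _
  obtain ⟨B, hcard, hGood, hmemB, c, hc, hfX⟩ := roots_setup (ℓ := ℓ) V hVA hVm f hlc hs x
  obtain ⟨Y0, hY0⟩ : ∃ Y0 : Ω, Y0 ^ ℓ =
      ∏ e ∈ B, (algebraMap R Ω x' - algebraMap (algebraicClosure k Ω) Ω e) :=
    IsAlgClosed.exists_pow_nat_eq _ hℓp.pos
  obtain ⟨M, hM⟩ : ∃ M : IntermediateField R Ω, ∀ z, z ∈ M ↔
      z ∈ maxPro ℓ (algebraicClosure k Ω) (IntermediateField.adjoin R {Y0}) Ω :=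
    ⟨(maxPro ℓ (algebraicClosure k Ω) (IntermediateField.adjoin R {Y0}) Ω).restrictScalars R,
      fun z => Iff.rfl⟩
  have hYM : Y0 ∈ M := by
    rw [hM]
    exact (maxPro ℓ (algebraicClosure k Ω) (IntermediateField.adjoin R {Y0}) Ω).algebraMap_mem
      ⟨Y0, IntermediateField.mem_adjoin_simple_self _ _⟩
  have hCov : Cov ℓ (algebraicClosure k Ω) R M x' B ⟨Y0, hYM⟩ :=
    a_cov ℓ (algebraicClosure k Ω) R Ω _ hrat B (by rw [hcard]; exact hdvd)
      (by rw [hcard]; exact h3) Y0 hY0 M hM ⟨Y0, hYM⟩ rfl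
  have hfX' : algebraMap F Ω (aeval x (f.map (algebraMap A k))) =
      algebraMap (algebraicClosure k Ω) Ω c *
        ∏ e ∈ B, (algebraMap R Ω x' - algebraMap (algebraicClosure k Ω) Ω e) := by
    rw [hx', hfX]
  exact ⟨B, M, ⟨Y0, hYM⟩, c, hGood, hmemB, hc, hfX', hCov, mem_orbi (k := k) hCov hc hfX'⟩

theorem geo2_abs {ℓ : ℕ} [Fact ℓ.Prime] {R : Type} [Field R] [Algebra (algebraicClosure k Ω) R]
    [Algebra R Ω] [IsScalarTower (algebraicClosure k Ω) R Ω] [IsAlgClosure R Ω]
    (x' : R) (hrat : RatF (algebraicClosure k Ω) x')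
    (V : ValuationSubring (algebraicClosure k Ω))
    (hVA : ∀ a : A, algebraMap k (algebraicClosure k Ω) (algebraMap A k a) ∈ V)
    (hVm : ∀ a ∈ IsLocalRing.maximalIdeal A,
      algebraMap k (algebraicClosure k Ω) (algebraMap A k a) ∈ V.nonunits)
    (hℓ : IsUnit (ℓ : A)) (f : A[X]) (hlc : IsUnit f.leadingCoeff)
    (hs : (f.map (IsLocalRing.residue A)).Separable) (hdvd : ℓ ∣ f.natDegree)
    (h3 : 3 ≤ f.natDegree) (x : F) (hx' : algebraMap R Ω x' = algebraMap F Ω x)
    (hcov : ∀ z : F, algebraMap F Ω z ∈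
      orbi (K := R) ℓ k (algebraMap F Ω (aeval x (f.map (algebraMap A k)))))
    (hun : ∀ W : ValuationSubring Ω, (∀ c : k, algebraMap k Ω c ∈ W) →
      algebraMap F Ω (aeval x (f.map (algebraMap A k))) ∈ W.nonunits →
      ∃ t ∈ geomF k F Ω, t ≠ 0 ∧
        IsU W (t ^ ℓ / algebraMap F Ω (aeval x (f.map (algebraMap A k))))) :
    (∀ z : Ω, z ∈ geomPro ℓ k F Ω ↔
      z ∈ orbi (K := R) ℓ k (algebraMap F Ω (aeval x (f.map (algebraMap A k))))) ∧
    (∃ O : ValuationSubring Ω, (∀ c : algebraicClosure k Ω, (c : Ω) ∈ O ↔ c ∈ V) ∧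
      ∀ p : (algebraicClosure k Ω)[X], (∀ n, p.coeff n ∈ V) → (∃ n, IsU V (p.coeff n)) →
        IsU O (aeval (algebraMap F Ω x) p)) ∧
    (∀ O O' : ValuationSubring Ω, (∀ c : algebraicClosure k Ω, (c : Ω) ∈ O ↔ c ∈ V) →
      (∀ p : (algebraicClosure k Ω)[X], (∀ n, p.coeff n ∈ V) → (∃ n, IsU V (p.coeff n)) →
        IsU O (aeval (algebraMap F Ω x) p)) →
      (∀ c : algebraicClosure k Ω, (c : Ω) ∈ O' ↔ c ∈ V) →
      (∀ p : (algebraicClosure k Ω)[X], (∀ n, p.coeff n ∈ V) → (∃ n, IsU V (p.coeff n)) →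
        IsU O' (aeval (algebraMap F Ω x) p)) →
      ∀ z ∈ geomPro ℓ k F Ω, z ∈ O ↔ z ∈ O') ∧
    ∀ (S : (algebraicClosure k Ω ≃ₐ[k] algebraicClosure k Ω) →*
      (geomPro ℓ k F Ω ≃ₐ[F] geomPro ℓ k F Ω)) (hcont : Continuous S)
    (hcompat : ∀ σ (c : algebraicClosure k Ω) (z : geomPro ℓ k F Ω), (z : Ω) = (c : Ω) →
      (S σ z : Ω) = (σ c : Ω)),
    (∀ O : ValuationSubring (geomPro ℓ k F Ω),
      (∀ (c : algebraicClosure k Ω) (z : geomPro ℓ k F Ω), (z : Ω) = (c : Ω) →
        (z ∈ O ↔ c ∈ V)) →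
      (∀ p : (algebraicClosure k Ω)[X], (∀ n, p.coeff n ∈ V) → (∃ n, IsU V (p.coeff n)) →
        ∀ z : geomPro ℓ k F Ω, (z : Ω) = aeval (algebraMap F Ω x) p → IsU O z) →
      ∀ σ, Ine V σ → ∀ z ∈ O, S σ z - z ∈ O.nonunits) ∨
    ∃ W : ValuationSubring (geomPro ℓ k F Ω),
      ((∀ c : k, algebraMap F (geomPro ℓ k F Ω) (algebraMap k F c) ∈ W) ∧
       (∀ z ∈ W, ∃ c : algebraicClosure k Ω, ∃ z' ∈ W.nonunits, (z' : Ω) = (z : Ω) - c) ∧
       (∃ e : algebraicClosure k Ω, aeval e (f.map (algebraMap A k)) = 0 ∧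
          (∀ σ : algebraicClosure k Ω ≃ₐ[k] algebraicClosure k Ω, Dec V σ → σ e = e) ∧ ∃ z' ∈ W.nonunits, (z' : Ω) = algebraMap F Ω x - e) ∧
       ∀ σ, Dec V σ → ∀ z, S σ z ∈ W ↔ z ∈ W) ∧
      ∀ W' : ValuationSubring (geomPro ℓ k F Ω),
        (∀ c : k, algebraMap F (geomPro ℓ k F Ω) (algebraMap k F c) ∈ W') →
        algebraMap F (geomPro ℓ k F Ω) (aeval x (f.map (algebraMap A k))) ∈ W'.nonunits →
        (∀ σ, Dec V σ → ∀ z, S σ z ∈ W' ↔ z ∈ W') → W' = W := by
  classical
  have hℓp : ℓ.Prime := Fact.out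
  have hac : IsAlgClosure k (algebraicClosure k Ω) := inferInstance
  have hkb : IsAlgClosed (algebraicClosure k Ω) := hac.1
  have hch : CharZero (algebraicClosure k Ω) :=
    charZero_of_injective_algebraMap (algebraMap k (algebraicClosure k Ω)).injective
  haveI halgR : Algebra.IsAlgebraic R Ω := IsAlgClosure.isAlgebraic
  haveI hnorR : Normal R Ω := IsAlgClosure.normal _ _
  letI : Algebra A (algebraicClosure k Ω) :=
    ((algebraMap k (algebraicClosure k Ω)).comp (algebraMap A k)).toAlgebra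
  haveI hst : IsScalarTower A k (algebraicClosure k Ω) :=
    IsScalarTower.of_algebraMap_eq (fun _ => rfl)
  have hVa : ∀ a : A, algebraMap A (algebraicClosure k Ω) a ∈ V := hVA
  have hVm' : ∀ a ∈ IsLocalRing.maximalIdeal A, algebraMap A (algebraicClosure k Ω) a ∈
    V.nonunits := hVm
  have hAk : Function.Injective (algebraMap A k) := IsFractionRing.injective A k
  obtain ⟨ϖ, hϖ⟩ := IsDiscreteValuationRing.exists_irreducible A
  have hϖk0 : algebraMap A k ϖ ≠ 0 := by
    rw [Ne, map_eq_zero_iff _ hAk]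
    exact hϖ.ne_zero
  obtain ⟨δ, hδ⟩ : ∃ δ : algebraicClosure k Ω, δ ^ ℓ =
      algebraMap k (algebraicClosure k Ω) (algebraMap A k ϖ) :=
    IsAlgClosed.exists_pow_nat_eq _ hℓp.pos
  have hBase : Base ℓ A k (algebraicClosure k Ω) V ϖ δ 1 := by
    refine ⟨hℓ, hVa, hVm', hϖ, ?_, ⟨_, hδ⟩, ?_⟩
    · intro h
      have h1 := Int.eq_one_of_dvd_one (by positivity) h
      exact hℓp.one_lt.ne' (by exact_mod_cast h1)
    · rw [hδ, zpow_one, ← IsScalarTower.algebraMap_apply, div_self]
      · exact isU_one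
      · rw [IsScalarTower.algebraMap_apply A k]
        exact (_root_.map_ne_zero _).2 hϖk0
  obtain ⟨B, M, Y0, c, hGood, hmemB, hc, hfX', hCov, horb⟩ := setup_cov (ℓ := ℓ) x' hrat V hVA hVm
    f hlc hs hdvd h3 x hx'
  have hkW : ∀ W : ValuationSubring Ω, (∀ c : algebraicClosure k Ω,
      algebraMap (algebraicClosure k Ω) Ω c ∈ W) → ∀ c : k, algebraMap k Ω c ∈ W := by
    intro W hW c
    exact hW (algebraMap k (algebraicClosure k Ω) c)
  have hXe : ∀ e : algebraicClosure k Ω,
      algebraMap R Ω x' - algebraMap (algebraicClosure k Ω) Ω e ≠ 0 := by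
    intro e h0
    have h2 : Transcendental (algebraicClosure k Ω) (algebraMap R Ω x') :=
      (transcendental_algebraMap_iff (algebraMap R Ω).injective).2 hrat.trans
    apply h2
    rw [sub_eq_zero.1 h0]
    exact isAlgebraic_algebraMap _
  have hFM : ∀ z : F, algebraMap F Ω z ∈ M := fun z => (horb _).2 (hcov z)
  have hRg : ∀ r : R, algebraMap R Ω r ∈ geomF k F Ω := by
    intro r
    have h1 : r ∈ IntermediateField.adjoin (algebraicClosure k Ω) {x'} := by
      rw [hrat.gen]; trivial
    have h2 : ∀ w ∈ IntermediateField.adjoin (algebraicClosure k Ω) {x'},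
        w ∈ (geomF k F Ω).toSubfield.comap (algebraMap R Ω) := by
      refine adjoin_le_sub ?_ ?_
      · intro c
        rw [Subfield.mem_comap, ← IsScalarTower.algebraMap_apply]
        exact IntermediateField.subset_adjoin F _ c.2
      · intro w hw
        rw [Set.mem_singleton_iff] at hw
        rw [Subfield.mem_comap, hw, hx']
        exact (geomF k F Ω).algebraMap_mem x
    exact h2 r h1
  let K : IntermediateField R Ω := { (geomF k F Ω).toSubfield with algebraMap_mem' := hRg }
  have hKg : ∀ z, z ∈ K ↔ z ∈ geomF k F Ω := fun z => Iff.rfl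
  have hKM : K ≤ M := by
    intro z hz
    refine adjoin_le_sub (T := M.toSubfield) hFM ?_ z ((hKg z).1 hz)
    intro c hc
    exact M_const (κ := algebraicClosure k Ω) (M := M) ⟨c, hc⟩
  have hMN : ∀ z, z ∈ M ↔ z ∈ geomPro ℓ k F Ω := by
    intro z
    rw [← eqm hCov K hKM ?_ z]
    · let e : K ≃+* geomF k F Ω :=
        { toFun := fun w => ⟨w.1, w.2⟩
          invFun := fun w => ⟨w.1, w.2⟩
          left_inv := fun w => rfl
          right_inv := fun w => rfl
          map_mul' := fun w w' => rfl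
          map_add' := fun w w' => rfl }
      refine maxPro_congr e (fun a => rfl) (fun W => ⟨fun h c => ?_, fun h c => ?_⟩) z
      · exact Pool.Agent.W620.SC.const_mem h c.2
      · exact h (algebraMap k (algebraicClosure k Ω) c)
    · intro W hW e he hxe
      have hXW : algebraMap R Ω x' ∈ W := by
        have h4 : algebraMap R Ω x' = (algebraMap R Ω x' -
          algebraMap (algebraicClosure k Ω) Ω e) + algebraMap (algebraicClosure k Ω) Ω e := by
          ring
        rw [h4]
        exact add_mem (non_mem hxe) (hW e)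
      have h1 : IsU W (algebraMap F Ω (aeval x (f.map (algebraMap A k))) /
          (algebraMap R Ω x' - algebraMap (algebraicClosure k Ω) Ω e)) := by
        have h2 : algebraMap F Ω (aeval x (f.map (algebraMap A k))) /
            (algebraMap R Ω x' - algebraMap (algebraicClosure k Ω) Ω e) =
            algebraMap (algebraicClosure k Ω) Ω c *
            ∏ e' ∈ B.erase e, (algebraMap R Ω x' - algebraMap (algebraicClosure k Ω) Ω e') := by
          rw [hfX', ← Finset.mul_prod_erase B _ he]
          have := hXe e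
          field_simp
        rw [h2]
        have hcU : ∀ c : algebraicClosure k Ω, c ≠ 0 →
            IsU W (algebraMap (algebraicClosure k Ω) Ω c) := fun c hc =>
          ⟨(_root_.map_ne_zero _).2 hc, hW c, by rw [← map_inv₀]; exact hW _⟩
        refine (hcU _ hc).mul ?_
        have h3 : ∀ e' ∈ B.erase e,
            IsU W (algebraMap R Ω x' - algebraMap (algebraicClosure k Ω) Ω e') := by
          intro e' he'
          have hne : e - e' ≠ 0 := sub_ne_zero.2 (Finset.ne_of_mem_erase he').symm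
          refine isU_of_not_nonunit (sub_mem hXW (hW _)) fun hn => ?_
          have h5 : algebraMap (algebraicClosure k Ω) Ω (e - e') ∈ W.nonunits := by
            have h6 : algebraMap (algebraicClosure k Ω) Ω (e - e') =
                (algebraMap R Ω x' - algebraMap (algebraicClosure k Ω) Ω e') -
                (algebraMap R Ω x' - algebraMap (algebraicClosure k Ω) Ω e) := by
              rw [map_sub]; ring
            rw [h6]
            exact non_sub hn hxe
          exact (hcU _ hne).not_nonunit h5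
        have h5 : ∀ T : Finset (algebraicClosure k Ω), T ⊆ B.erase e →
            IsU W (∏ e' ∈ T, (algebraMap R Ω x' - algebraMap (algebraicClosure k Ω) Ω e')) := by
          intro T
          induction T using Finset.induction_on with
          | empty => intro _; rw [Finset.prod_empty]; exact isU_one
          | insert a T ha ih =>
            intro hT
            rw [Finset.prod_insert ha]
            exact (h3 a (hT (Finset.mem_insert_self a T))).mul
              (ih fun b hb => hT (Finset.mem_insert_of_mem hb))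
        exact h5 _ (Finset.Subset.refl _)
      have h2 : algebraMap F Ω (aeval x (f.map (algebraMap A k))) ∈ W.nonunits := by
        have h3 : algebraMap F Ω (aeval x (f.map (algebraMap A k))) =
            (algebraMap F Ω (aeval x (f.map (algebraMap A k))) /
            (algebraMap R Ω x' - algebraMap (algebraicClosure k Ω) Ω e)) *
            (algebraMap R Ω x' - algebraMap (algebraicClosure k Ω) Ω e) := by
          rw [div_mul_cancel₀ _ (hXe e)]
        rw [h3]
        exact non_mul h1.2.1 hxe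
      obtain ⟨t, htg, ht0, ht1⟩ := hun W (hkW W hW) h2
      refine ⟨t, (hKg t).2 htg, ht0, ?_⟩
      have h3 : t ^ ℓ / (algebraMap R Ω x' - algebraMap (algebraicClosure k Ω) Ω e) =
          (t ^ ℓ / algebraMap F Ω (aeval x (f.map (algebraMap A k)))) *
          (algebraMap F Ω (aeval x (f.map (algebraMap A k))) /
            (algebraMap R Ω x' - algebraMap (algebraicClosure k Ω) Ω e)) := by
        have h4 : algebraMap F Ω (aeval x (f.map (algebraMap A k))) ≠ 0 := by
          intro h0
          apply ht1.1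
          rw [h0, div_zero]
        have := hXe e
        field_simp
      rw [h3]
      exact ht1.mul h1
  have hBstab : ∀ σ : algebraicClosure k Ω ≃ₐ[k] algebraicClosure k Ω, ∀ e ∈ B, σ e ∈ B := by
    intro σ e he
    rw [hmemB] at he ⊢
    have h3 := aeval_algHom_apply σ.toAlgHom e (f.map (algebraMap A k))
    rw [he, map_zero] at h3
    exact h3
  obtain ⟨F0, iF0, r, hr, ⟨D⟩⟩ := a_ndisc A k (algebraicClosure k Ω) V hVa hVm' ℓ hℓ
  have hRot := a_gex ℓ (algebraicClosure k Ω) R M x' B Y0 hCov F0 V r hr hGood D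
  have hGun := a_gun ℓ (algebraicClosure k Ω) R M x' B Y0 hCov V hRot
  haveI : IsScalarTower (algebraicClosure k Ω) M Ω := IsScalarTower.of_algebraMap_eq fun c => rfl
  have hGauss : ∀ O : ValuationSubring Ω, (∀ c : algebraicClosure k Ω, (c : Ω) ∈ O ↔ c ∈ V) →
      (∀ p : (algebraicClosure k Ω)[X], (∀ n, p.coeff n ∈ V) → (∃ n, IsU V (p.coeff n)) →
        IsU O (aeval (algebraMap F Ω x) p)) →
      Gauss V (algebraMap R M x') (O.comap (algebraMap M Ω)) := by
    intro O hO1 hO2
    refine ⟨fun c => hO1 c, fun p hp hp' => ?_⟩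
    have h5 : aeval (algebraMap M Ω (algebraMap R M x')) p =
        algebraMap M Ω (aeval (algebraMap R M x') p) := aeval_algebraMap_apply Ω _ p
    have h6 := hO2 p hp hp'
    rw [← hx'] at h6
    change IsU O (aeval (algebraMap M Ω (algebraMap R M x')) p) at h6
    rw [h5] at h6
    refine ⟨fun h => h6.1 (by rw [h, map_zero]), h6.2.1, ?_⟩
    have h7 := h6.2.2
    rw [← map_inv₀] at h7
    exact h7
  obtain ⟨e0, he0⟩ : B.Nonempty := by
    rw [← Finset.card_pos]
    have := hCov.three
    omega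
  refine ⟨fun z => (hMN z).symm.trans (horb z), ?_, ?_, ?_⟩
  · obtain ⟨O, -, -, hO, -⟩ := hRot e0 he0
    obtain ⟨O', hO'⟩ := a_extv M Ω O
    have hmemO' : ∀ z : M, z ∈ O ↔ (z : Ω) ∈ O' := fun z => by rw [← hO']; rfl
    refine ⟨O', fun c => ?_, fun p hp hp' => ?_⟩
    · rw [← hO.1 c, hmemO']
      rfl
    · obtain ⟨h6, h7, h8⟩ := hO.2 p hp hp'
      have h5 : aeval (algebraMap M Ω (algebraMap R M x')) p =
          algebraMap M Ω (aeval (algebraMap R M x') p) := aeval_algebraMap_apply Ω _ p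
      rw [← hx']
      change IsU O' (aeval (algebraMap M Ω (algebraMap R M x')) p)
      rw [h5]
      refine ⟨(_root_.map_ne_zero _).2 h6, (hmemO' _).1 h7, ?_⟩
      rw [← map_inv₀]
      exact (hmemO' _).1 h8
  · intro O O' h1 h2 h3 h4 z hz
    have h5 := hGun _ _ (hGauss O h1 h2) (hGauss O' h3 h4)
    have hzM : z ∈ M := (hMN z).2 hz
    have h6 : (⟨z, hzM⟩ : M) ∈ O.comap (algebraMap M Ω) ↔
        (⟨z, hzM⟩ : M) ∈ O'.comap (algebraMap M Ω) := by rw [h5]
    exact h6
  intro S hcont hcompat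
  rcases geoI2 V hVa hVm' ϖ δ 1 hBase x' B hGood hBstab M Y0 hCov x hx'
      (geomPro ℓ k F Ω) hMN S hcont (fun σ c z hz => hcompat σ c z hz) with
    hL | ⟨W, ⟨h1, h2, ⟨e, heB, hfix, he⟩, h4⟩, hun'⟩
  · left
    exact hL
  right
  refine ⟨W, ⟨?_, h2, ⟨e, ?_, hfix, he⟩, h4⟩, ?_⟩
  · intro c
    exact h1 (algebraMap k (algebraicClosure k Ω) c) _
      (IsScalarTower.algebraMap_apply k F Ω c).symm
  · exact (hmemB e).1 heB
  · intro W' hW'1 hW'2 hW'3
    have hconst : ∀ (c : algebraicClosure k Ω) (z : geomPro ℓ k F Ω), (z : Ω) = (c : Ω) →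
        z ∈ W' := by
      intro c z hz
      have h5 : IsIntegral k (c : Ω) := c.2
      obtain ⟨p, hp, hpc⟩ := h5
      refine alg_mem ((algebraMap F (geomPro ℓ k F Ω)).comp (algebraMap k F)) W' hW'1 z p hp ?_
      apply (algebraMap (geomPro ℓ k F Ω) Ω).injective
      rw [hom_eval₂, map_zero]
      have h6 : (algebraMap (geomPro ℓ k F Ω) Ω).comp
          ((algebraMap F (geomPro ℓ k F Ω)).comp (algebraMap k F)) = algebraMap k Ω := by
        ext a
        exact (IsScalarTower.algebraMap_apply k F Ω a).symm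
      have h7 : algebraMap (geomPro ℓ k F Ω) Ω z = (c : Ω) := hz
      rw [h6, h7]
      exact hpc
    refine hun' W' hconst ?_ hW'3
    by_contra hno
    push Not at hno
    let ι : algebraicClosure k Ω → geomPro ℓ k F Ω := fun c => ⟨(c : Ω), const_geomPro ℓ k c⟩
    have hno' : ∀ e ∈ B, (algebraMap F (geomPro ℓ k F Ω) x - ι e)⁻¹ ∈ W' := by
      intro e he
      apply inv_mem_of_not_nonunit
      intro hn
      exact hno e he _ hn rfl
    have hlcι : (ι c)⁻¹ ∈ W' := by
      have h5 : (ι c)⁻¹ = ι c⁻¹ := Subtype.ext rfl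
      rw [h5]
      exact hconst c⁻¹ _ rfl
    have hfN : algebraMap F (geomPro ℓ k F Ω) (aeval x (f.map (algebraMap A k))) =
        ι c * ∏ e ∈ B, (algebraMap F (geomPro ℓ k F Ω) x - ι e) := by
      apply (algebraMap (geomPro ℓ k F Ω) Ω).injective
      rw [map_mul, map_prod]
      have h5 : algebraMap (geomPro ℓ k F Ω) Ω
          (algebraMap F (geomPro ℓ k F Ω) (aeval x (f.map (algebraMap A k)))) =
          algebraMap F Ω (aeval x (f.map (algebraMap A k))) := rfl
      rw [h5, hfX', hx']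
      rfl
    have h8 : (algebraMap F (geomPro ℓ k F Ω) (aeval x (f.map (algebraMap A k))))⁻¹ ∈ W' := by
      rw [hfN, mul_inv, ← Finset.prod_inv_distrib]
      exact mul_mem hlcι (prod_mem hno')
    rcases (nonunits_iff.1 hW'2).2 with h9 | h9
    · have h10 : algebraMap F Ω (aeval x (f.map (algebraMap A k))) = 0 := by
        rw [map_eq_zero] at h9
        rw [h9, map_zero]
      rw [hfX'] at h10
      exact (mul_ne_zero ((_root_.map_ne_zero _).2 hc)
        (Finset.prod_ne_zero_iff.2 fun e _ => hXe e)) h10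
    · exact h9 h8

end main

end Pool.Agent.H71SC
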