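import Pool.Agent.H71SC.Loc
import Pool.Agent.H71SC.Eqm

/-! # Sections: abstract form -/

set_option autoImplicit false
set_option linter.all false

open Polynomial FF Pool.Agent.Y157.PS

namespace Pool.Agent.H71SC

/-- the cocycle of `Y` -/
theorem exists_delta {k κ R M : Type} [Field k] [CharZero k] [Field κ] [Algebra k κ]
    [IsAlgClosure k κ] [Field R] [Field M] [Algebra κ R] [Algebra R M] [Algebra κ M]
    [IsScalarTower κ R M] {ℓ : ℕ} [Fact ℓ.Prime] {x' : R} {B : Finset κ} {Y' : M}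
    (hCov : Cov ℓ κ R M x' B Y') (hB : ∀ σ : κ ≃ₐ[k] κ, ∀ e ∈ B, σ e ∈ B)
    (s' : (κ ≃ₐ[k] κ) →* RingAut M)
    (hconst : ∀ σ c, s' σ (algebraMap κ M c) = algebraMap κ M (σ c))
    (hx : ∀ σ, s' σ (algebraMap R M x') = algebraMap R M x')
    (hcont : ∀ z : M, ∃ E : IntermediateField k κ, FiniteDimensional k E ∧
      ∀ σ ∈ E.fixingSubgroup, s' σ z = z) :
    ∃ δ : κ, δ ≠ 0 ∧ (∃ d : k, δ ^ ℓ = algebraMap k κ d) ∧ Sec k κ R M x' Y' δ s' := by
  classical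
  haveI : IsAlgClosed κ := IsAlgClosure.isAlgClosed k
  have hp := (Fact.out : ℓ.Prime).pos
  have htr : Transcendental κ (algebraMap R M x') :=
    (transcendental_algebraMap_iff (algebraMap R M).injective).2 hCov.rat.trans
  have hne : ∀ e : κ, algebraMap R M x' - algebraMap κ M e ≠ 0 := by
    intro e h0
    apply htr
    rw [sub_eq_zero.1 h0]
    exact isAlgebraic_algebraMap _
  have hY0 : Y' ≠ 0 := by
    rintro h
    have h1 := hCov.eqn
    rw [h, zero_pow hp.ne'] at h1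
    exact (Finset.prod_ne_zero_iff.2 fun e _ => hne e) h1.symm
  have hBσ : ∀ σ : κ ≃ₐ[k] κ, B.image σ = B := by
    intro σ
    refine Finset.eq_of_subset_of_card_le ?_ ?_
    · intro e he
      obtain ⟨e', he', rfl⟩ := Finset.mem_image.1 he
      exact hB σ e' he'
    · rw [Finset.card_image_of_injective _ σ.injective]
  have h1 : ∀ σ : κ ≃ₐ[k] κ, (s' σ Y') ^ ℓ = Y' ^ ℓ := by
    intro σ
    rw [← map_pow, hCov.eqn, map_prod]
    conv_rhs => rw [← hBσ σ, Finset.prod_image (fun a _ b _ h => σ.injective h)]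
    refine Finset.prod_congr rfl fun e _ => ?_
    rw [map_sub, hx, hconst]
  have h2 : ∀ σ : κ ≃ₐ[k] κ, ∃ c : κ, algebraMap κ M c = s' σ Y' / Y' ∧ c ^ ℓ = 1 := by
    intro σ
    exact const_of_pow hp (by rw [div_pow, h1, div_self (pow_ne_zero _ hY0), map_one])
  choose c hc hc1 using h2
  have hcY : ∀ σ, s' σ Y' = algebraMap κ M (c σ) * Y' := by
    intro σ
    rw [hc, div_mul_cancel₀ _ hY0]
  have hc0 : ∀ σ, c σ ≠ 0 := by
    intro σ h0
    have := hc1 σ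
    rw [h0, zero_pow hp.ne'] at this
    exact zero_ne_one this
  have hcoc : ∀ g h : κ ≃ₐ[k] κ, c (g * h) = c g * g (c h) := by
    intro g h
    apply (algebraMap κ M).injective
    apply mul_right_cancel₀ hY0
    rw [← hcY, map_mul, map_mul]
    change s' g (s' h Y') = _
    rw [hcY h, map_mul, hconst, hcY g]
    ring
  obtain ⟨E, hE, hE'⟩ := hcont Y'
  obtain ⟨δ, hδ0, hδ⟩ := H90 c hc0 hcoc E hE (fun g hg => by
    apply (algebraMap κ M).injective
    apply mul_right_cancel₀ hY0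
    rw [← hcY, hE' g hg, map_one, one_mul])
  have hn : Normal k κ := IsAlgClosure.normal k κ
  haveI hgal : IsGalois k κ := ⟨⟩
  refine ⟨δ, hδ0, ?_, hconst, hx, fun σ => ?_, hcont⟩
  · have h3 : ∀ σ : κ ≃ₐ[k] κ, σ (δ ^ ℓ) = δ ^ ℓ := by
      intro σ
      rw [map_pow, hδ, mul_pow, hc1, one_mul]
    obtain ⟨d, hd⟩ := IntermediateField.mem_bot.1 ((InfiniteGalois.mem_bot_iff_fixed _).2 h3)
    exact ⟨d, hd.symm⟩
  · rw [hδ, mul_div_cancel_right₀ _ hδ0, hcY]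

section absM

variable {A k κ R F M N : Type} [CommRing A] [IsDomain A] [IsDiscreteValuationRing A]
    [Finite (IsLocalRing.ResidueField A)] [Field k] [CharZero k] [Algebra A k] [IsFractionRing A k]
    [Field κ] [Algebra k κ] [Algebra A κ] [IsScalarTower A k κ] [IsAlgClosure k κ]
    [Field R] [Field F] [Field M] [Field N] [Algebra κ R] [Algebra R M] [Algebra κ M]
    [IsScalarTower κ R M] [Algebra F N]

/-- the abstract form: `M` is the covering field and `N` is isomorphic to `M` -/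
theorem geoM' {ℓ : ℕ} [Fact ℓ.Prime] (V : ValuationSubring κ)
    (hVa : ∀ a : A, algebraMap A κ a ∈ V)
    (hVm : ∀ a ∈ IsLocalRing.maximalIdeal A, algebraMap A κ a ∈ V.nonunits)
    (ϖ : A) (δ₁ : κ) (m : ℤ) (hBase : Base ℓ A k κ V ϖ δ₁ m)
    (x' : R) (B : Finset κ) (Y' : M)
    (hCov : Cov ℓ κ R M x' B Y') (hGood : Good V B)
    (hB : ∀ σ : κ ≃ₐ[k] κ, ∀ e ∈ B, σ e ∈ B) (Y₁ : M) (n : κ → ℕ)
    (hY₁ : Y₁ ^ ℓ = ∏ e ∈ B, (algebraMap R M x' - algebraMap κ M e) ^ n e)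
    (eqv : M ≃+* N) (x y : F)
    (hx : eqv (algebraMap R M x') = algebraMap F N x)
    (hy : eqv Y₁ = eqv (algebraMap κ M δ₁) * algebraMap F N y)
    (S : (κ ≃ₐ[k] κ) →* (N ≃ₐ[F] N))
    (hcont : ∀ z : N, ∃ E : IntermediateField k κ, FiniteDimensional k E ∧
      ∀ σ ∈ E.fixingSubgroup, S σ z = z)
    (hcompat : ∀ σ c, S σ (eqv (algebraMap κ M c)) = eqv (algebraMap κ M (σ c))) :
    ∃ W : ValuationSubring N,
      ((∀ c : κ, eqv (algebraMap κ M c) ∈ W) ∧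
       (∀ z ∈ W, ∃ c : κ, z - eqv (algebraMap κ M c) ∈ W.nonunits) ∧
       (∃ e ∈ B, (∀ σ : κ ≃ₐ[k] κ, Dec V σ → σ e = e) ∧
          algebraMap F N x - eqv (algebraMap κ M e) ∈ W.nonunits) ∧
       ∀ σ : κ ≃ₐ[k] κ, Dec V σ → ∀ z, S σ z ∈ W ↔ z ∈ W) ∧
      ∀ W' : ValuationSubring N, (∀ c : κ, eqv (algebraMap κ M c) ∈ W') →
        (∃ e ∈ B, algebraMap F N x - eqv (algebraMap κ M e) ∈ W'.nonunits) →
        (∀ σ : κ ≃ₐ[k] κ, Dec V σ → ∀ z, S σ z ∈ W' ↔ z ∈ W') → W' = W := by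
  classical
  have hkb : IsAlgClosed κ := IsAlgClosure.isAlgClosed k
  have hch : CharZero κ := charZero_of_injective_algebraMap (algebraMap k κ).injective
  let s' : (κ ≃ₐ[k] κ) →* RingAut M := conjSec eqv S
  have hs' : ∀ σ z, eqv (s' σ z) = S σ (eqv z) := fun σ z => conjSec_apply eqv S σ z
  have hconst : ∀ σ c, s' σ (algebraMap κ M c) = algebraMap κ M (σ c) := by
    intro σ c
    apply eqv.injective
    rw [hs', hcompat]
  have hbase : ∀ σ (z : F) (w : M), eqv w = algebraMap F N z → s' σ w = w := by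
    intro σ z w hw
    apply eqv.injective
    rw [hs', hw]
    exact (S σ).commutes z
  have hδ₁0 : δ₁ ≠ 0 := hBase.δ0
  have hyY : Y₁ = algebraMap κ M δ₁ * eqv.symm (algebraMap F N y) := by
    apply eqv.injective
    rw [hy, map_mul, eqv.apply_symm_apply]
  have hcont' : ∀ z : M, ∃ E : IntermediateField k κ, FiniteDimensional k E ∧
      ∀ σ ∈ E.fixingSubgroup, s' σ z = z := by
    intro z
    obtain ⟨E, hE, hE'⟩ := hcont (eqv z)
    refine ⟨E, hE, fun σ hσ => eqv.injective ?_⟩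
    rw [hs', hE' σ hσ]
  have hSec₁ : Sec k κ R M x' Y₁ δ₁ s' := by
    refine ⟨hconst, fun σ => hbase σ x _ hx, fun σ => ?_, hcont'⟩
    have h2 : algebraMap κ M (σ δ₁ / δ₁) * Y₁ =
        algebraMap κ M (σ δ₁) * eqv.symm (algebraMap F N y) := by
      rw [hyY, ← mul_assoc, ← map_mul, div_mul_cancel₀ _ hδ₁0]
    rw [h2]
    conv_lhs => rw [hyY]
    rw [map_mul, hconst, hbase σ y _ (eqv.apply_symm_apply _)]
  obtain ⟨δ, hδ0, hδk, hSec⟩ := exists_delta (k := k) hCov hB s' hconst (fun σ => hbase σ x _ hx)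
    hcont'
  obtain ⟨F0, iF0, r, hr, ⟨D⟩⟩ := a_ndisc A k κ V hVa hVm ℓ hBase.lunit
  obtain ⟨Q, ⟨e, heB, hQe, hfix⟩, hQfix, hQun⟩ := loc' ℓ A k κ R M V ϖ δ₁ m
    hBase x' B Y' hCov hGood F0 r hr D s' Y₁ n hY₁ hSec₁ δ hδ0 hδk hSec
  have hmem : ∀ z : N, z ∈ Q.O.comap (eqv.symm : N →+* M) ↔ eqv.symm z ∈ Q.O := fun z => Iff.rfl
  refine ⟨Q.O.comap (eqv.symm : N →+* M), ⟨?_, ?_, ?_, ?_⟩, ?_⟩
  · intro c
    rw [hmem, eqv.symm_apply_apply, Place.mem_O]
    exact Q.reg_const c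
  · intro z hz
    rw [hmem] at hz
    by_cases hz0 : z = 0
    · refine ⟨0, ?_⟩
      rw [comap_non, hz0, map_zero, map_zero, sub_zero, map_zero]
      exact nonunits_iff.2 ⟨zero_mem _, Or.inl rfl⟩
    have hz0' : eqv.symm z ≠ 0 := (map_ne_zero_iff _ eqv.symm.injective).2 hz0
    rw [O_iff Q hz0'] at hz
    obtain ⟨c, hc⟩ := Pool.Agent.Y536.PS.res_const κ M (algebraMap R M x') hCov.alg Q _ hz
    refine ⟨c, ?_⟩
    rw [comap_non, map_sub, eqv.symm_apply_apply]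
    rcases hc with hc | hc
    · rw [hc, sub_self]
      exact nonunits_iff.2 ⟨zero_mem _, Or.inl rfl⟩
    · have h0 : eqv.symm z - algebraMap κ M c ≠ 0 := by
        intro h0
        rw [h0, Q.ord_zero] at hc
        exact lt_irrefl _ hc
      exact (O_non_iff Q h0).2 hc
  · refine ⟨e, heB, hfix, ?_⟩
    rw [comap_non, map_sub, eqv.symm_apply_apply, ← hx, eqv.symm_apply_apply]
    have h0 : algebraMap R M x' - algebraMap κ M e ≠ 0 := by
      intro h0
      rw [h0, Q.ord_zero] at hQe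
      exact lt_irrefl _ hQe
    exact (O_non_iff Q h0).2 hQe
  · intro σ hσ z
    rw [hmem, hmem]
    have h1 : eqv.symm (S σ z) = s' σ (eqv.symm z) := by
      apply eqv.injective
      rw [hs', eqv.apply_symm_apply, eqv.apply_symm_apply]
    rw [h1]
    exact O_of_fixes Q (s' σ) (hQfix σ hσ) _
  · rintro W' hW'1 ⟨e', he'B, he'⟩ hW'3
    have hmem' : ∀ z : M, z ∈ W'.comap (eqv : M →+* N) ↔ eqv z ∈ W' := fun z => Iff.rfl
    have hnon' : ∀ z : M, z ∈ (W'.comap (eqv : M →+* N)).nonunits ↔ eqv z ∈ W'.nonunits :=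
      fun z => comap_non eqv W' z
    have h1 : algebraMap R M x' - algebraMap κ M e' ∈ (W'.comap (eqv : M →+* N)).nonunits := by
      rw [hnon', map_sub, hx]
      exact he'
    have hne : algebraMap R M x' - algebraMap κ M e' ≠ 0 := by
      intro h0
      have h2 : Transcendental κ (algebraMap R M x') :=
        (transcendental_algebraMap_iff (algebraMap R M).injective).2 hCov.rat.trans
      apply h2
      rw [sub_eq_zero.1 h0]
      exact isAlgebraic_algebraMap _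
    have htop : W'.comap (eqv : M →+* N) ≠ ⊤ := by
      intro h0
      rw [h0, nonunits_iff] at h1
      rcases h1.2 with h2 | h2
      · exact hne h2
      · exact h2 trivial
    obtain ⟨Q', hQ', -⟩ := hCov.loc _ (fun c => (hmem' _).2 (hW'1 c)) htop
    have h2 : Q' = Q := by
      refine hQun Q' ⟨e', he'B, ?_⟩ fun σ hσ => ?_
      · rw [← O_non_iff Q' hne, hQ']
        exact h1
      · refine fixes_of_O Q' (s' σ) (σ : κ ≃+* κ) (fun c => hconst σ c) fun z => ?_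
        rw [hQ', hmem', hmem', hs']
        exact hW'3 σ hσ _
    ext z
    rw [hmem, ← h2, hQ', hmem', eqv.apply_symm_apply]

end absM


section absI

variable {A k κ R F Ω : Type} [CommRing A] [IsDomain A] [IsDiscreteValuationRing A]
    [Finite (IsLocalRing.ResidueField A)] [Field k] [CharZero k] [Algebra A k] [IsFractionRing A k]
    [Field κ] [Algebra k κ] [Algebra A κ] [IsScalarTower A k κ] [IsAlgClosure k κ]
    [Field R] [Field F] [Field Ω] [Algebra κ R] [Algebra R Ω] [Algebra κ Ω]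
    [IsScalarTower κ R Ω] [IsAlgClosure R Ω] [Algebra F Ω] [Algebra.IsAlgebraic F Ω]

theorem geoI' {ℓ : ℕ} [Fact ℓ.Prime]
    (V : ValuationSubring κ)
    (hVa : ∀ a : A, algebraMap A κ a ∈ V)
    (hVm : ∀ a ∈ IsLocalRing.maximalIdeal A, algebraMap A κ a ∈ V.nonunits)
    (ϖ : A) (δ₁ : κ) (m : ℤ) (hBase : Base ℓ A k κ V ϖ δ₁ m)
    (x' : R) (B : Finset κ) (hGood : Good V B) (hB : ∀ σ : κ ≃ₐ[k] κ, ∀ e ∈ B, σ e ∈ B)
    (M : IntermediateField R Ω) (Y' : M) (hCov : Cov ℓ κ R M x' B Y') (n : κ → ℕ)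
    (x y : F) (hx : algebraMap R Ω x' = algebraMap F Ω x)
    (hY₁ : (algebraMap κ Ω δ₁ * algebraMap F Ω y) ^ ℓ =
      ∏ e ∈ B, (algebraMap R Ω x' - algebraMap κ Ω e) ^ n e)
    (N : IntermediateField F Ω) (hMN : ∀ z, z ∈ M ↔ z ∈ N)
    (S : (κ ≃ₐ[k] κ) →* (N ≃ₐ[F] N)) (hcont : Continuous S)
    (hcompat : ∀ σ c (z : N), (z : Ω) = algebraMap κ Ω c → (S σ z : Ω) = algebraMap κ Ω (σ c)) :
    ∃ W : ValuationSubring N,
      ((∀ (c : κ) (z : N), (z : Ω) = algebraMap κ Ω c → z ∈ W) ∧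
       (∀ z ∈ W, ∃ c : κ, ∃ z' ∈ W.nonunits, (z' : Ω) = (z : Ω) - algebraMap κ Ω c) ∧
       (∃ e ∈ B, (∀ σ : κ ≃ₐ[k] κ, Dec V σ → σ e = e) ∧
          ∃ z' ∈ W.nonunits, (z' : Ω) = algebraMap F Ω x - algebraMap κ Ω e) ∧
       ∀ σ : κ ≃ₐ[k] κ, Dec V σ → ∀ z, S σ z ∈ W ↔ z ∈ W) ∧
      ∀ W' : ValuationSubring N, (∀ (c : κ) (z : N), (z : Ω) = algebraMap κ Ω c → z ∈ W') →
        (∃ e ∈ B, ∃ z' ∈ W'.nonunits, (z' : Ω) = algebraMap F Ω x - algebraMap κ Ω e) →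
        (∀ σ : κ ≃ₐ[k] κ, Dec V σ → ∀ z, S σ z ∈ W' ↔ z ∈ W') → W' = W := by
  classical
  have hkb : IsAlgClosed κ := IsAlgClosure.isAlgClosed k
  have hch : CharZero κ := charZero_of_injective_algebraMap (algebraMap k κ).injective
  have hcM : ∀ c : κ, algebraMap κ Ω c ∈ M := fun c => M_const c
  have hY₁M : algebraMap κ Ω δ₁ * algebraMap F Ω y ∈ M :=
    mul_mem (hcM _) ((hMN _).2 (N.algebraMap_mem y))
  let eqv : M ≃+* N :=
    { toFun := fun w => ⟨w.1, (hMN _).1 w.2⟩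
      invFun := fun w => ⟨w.1, (hMN _).2 w.2⟩
      left_inv := fun w => rfl
      right_inv := fun w => rfl
      map_mul' := fun w w' => rfl
      map_add' := fun w w' => rfl }
  have heqv : ∀ w : M, ((eqv w : N) : Ω) = (w : Ω) := fun w => rfl
  have hc : ∀ c : κ, ((eqv (algebraMap κ M c) : N) : Ω) = algebraMap κ Ω c := fun c => rfl
  obtain ⟨W, ⟨h1, h2, ⟨e, heB, hfix, he⟩, h4⟩, hun⟩ := geoM' V hVa hVm ϖ δ₁ m hBase x' B
    Y' hCov hGood hB ⟨_, hY₁M⟩ n (Subtype.ext (by push_cast; exact hY₁)) eqv x y (Subtype.ext hx)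
    (Subtype.ext rfl) S (fun z => cont_fix S hcont z)
    (fun σ c => Subtype.ext (hcompat σ c _ rfl))
  refine ⟨W, ⟨?_, ?_, ⟨e, heB, hfix, _, he, rfl⟩, h4⟩, ?_⟩
  · intro c z hz
    have h5 : z = eqv (algebraMap κ M c) := Subtype.ext hz
    rw [h5]
    exact h1 c
  · intro z hz
    obtain ⟨c, hc'⟩ := h2 z hz
    exact ⟨c, _, hc', rfl⟩
  · rintro W' hW'1 ⟨e', he', z', hz', hz''⟩ hW'3
    refine hun W' (fun c => hW'1 c _ rfl) ⟨e', he', ?_⟩ hW'3
    have h5 : algebraMap F N x - eqv (algebraMap κ M e') = z' := Subtype.ext hz''.symm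
    rw [h5]
    exact hz'

end absI


end Pool.Agent.H71SC
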