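import Pool.Agent.H71SC.Loc2
import Pool.Agent.H71SC.GeoM

/-! # Sections: abstract form, dichotomy -/

set_option autoImplicit false
set_option linter.all false

open Polynomial FF Pool.Agent.Y157.PS

namespace Pool.Agent.H71SC

section absM

variable {A k κ R F M N : Type} [CommRing A] [IsDomain A] [IsDiscreteValuationRing A]
    [Finite (IsLocalRing.ResidueField A)] [Field k] [CharZero k] [Algebra A k] [IsFractionRing A k]
    [Field κ] [Algebra k κ] [Algebra A κ] [IsScalarTower A k κ] [IsAlgClosure k κ]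
    [Field R] [Field F] [Field M] [Field N] [Algebra κ R] [Algebra R M] [Algebra κ M]
    [IsScalarTower κ R M] [Algebra F N]

/-- the abstract form: `M` is the covering field and `N` is isomorphic to `M` -/
theorem geoM2 {ℓ : ℕ} [Fact ℓ.Prime] (V : ValuationSubring κ)
    (hVa : ∀ a : A, algebraMap A κ a ∈ V)
    (hVm : ∀ a ∈ IsLocalRing.maximalIdeal A, algebraMap A κ a ∈ V.nonunits)
    (ϖ : A) (δ₁ : κ) (m : ℤ) (hBase : Base ℓ A k κ V ϖ δ₁ m)
    (x' : R) (B : Finset κ) (Y' : M)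
    (hCov : Cov ℓ κ R M x' B Y') (hGood : Good V B)
    (hB : ∀ σ : κ ≃ₐ[k] κ, ∀ e ∈ B, σ e ∈ B)
    (eqv : M ≃+* N) (x : F)
    (hx : eqv (algebraMap R M x') = algebraMap F N x)
    (S : (κ ≃ₐ[k] κ) →* (N ≃ₐ[F] N))
    (hcont : ∀ z : N, ∃ E : IntermediateField k κ, FiniteDimensional k E ∧
      ∀ σ ∈ E.fixingSubgroup, S σ z = z)
    (hcompat : ∀ σ c, S σ (eqv (algebraMap κ M c)) = eqv (algebraMap κ M (σ c))) :
    (∀ O : ValuationSubring N, (∀ c : κ, eqv (algebraMap κ M c) ∈ O ↔ c ∈ V) →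
      (∀ p : κ[X], (∀ n, p.coeff n ∈ V) → (∃ n, IsU V (p.coeff n)) →
        IsU O (eqv (aeval (algebraMap R M x') p))) →
      ∀ σ : κ ≃ₐ[k] κ, Ine V σ → ∀ z ∈ O, S σ z - z ∈ O.nonunits) ∨
    ∃ W : ValuationSubring N,
      ((∀ c : κ, eqv (algebraMap κ M c) ∈ W) ∧
       (∀ z ∈ W, ∃ c : κ, z - eqv (algebraMap κ M c) ∈ W.nonunits) ∧
       (∃ e ∈ B, (∀ σ : κ ≃ₐ[k] κ, Dec V σ → σ e = e) ∧
          algebraMap F N x - eqv (algebraMap κ M e) ∈ W.nonunits) ∧
       ∀ σ : κ ≃ₐ[k] κ, Dec V σ → ∀ z, S σ z ∈ W ↔ z ∈ W) ∧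
      ∀ W' : ValuationSubring N, (∀ c : κ, eqv (algebraMap κ M c) ∈ W') →
        (∃ e ∈ B, algebraMap F N x - eqv (algebraMap κ M e) ∈ W'.nonunits) →
        (∀ σ : κ ≃ₐ[k] κ, Dec V σ → ∀ z, S σ z ∈ W' ↔ z ∈ W') → W' = W := by
  classical
  have hkb : IsAlgClosed κ := IsAlgClosure.isAlgClosed k
  have hch : CharZero κ := charZero_of_injective_algebraMap (algebraMap k κ).injective
  let s' : (κ ≃ₐ[k] κ) →* RingAut M := conjSec eqv S
  have hs' : ∀ σ z, eqv (s' σ z) = S σ (eqv z) := fun σ z => conjSec_apply eqv S σ z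
  have hconst : ∀ σ c, s' σ (algebraMap κ M c) = algebraMap κ M (σ c) := by
    intro σ c
    apply eqv.injective
    rw [hs', hcompat]
  have hbase : ∀ σ (z : F) (w : M), eqv w = algebraMap F N z → s' σ w = w := by
    intro σ z w hw
    apply eqv.injective
    rw [hs', hw]
    exact (S σ).commutes z
  have hcont' : ∀ z : M, ∃ E : IntermediateField k κ, FiniteDimensional k E ∧
      ∀ σ ∈ E.fixingSubgroup, s' σ z = z := by
    intro z
    obtain ⟨E, hE, hE'⟩ := hcont (eqv z)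
    refine ⟨E, hE, fun σ hσ => eqv.injective ?_⟩
    rw [hs', hE' σ hσ]
  obtain ⟨δ, hδ0, hδk, hSec⟩ := exists_delta (k := k) hCov hB s' hconst (fun σ => hbase σ x _ hx)
    hcont'
  obtain ⟨F0, iF0, r, hr, ⟨D⟩⟩ := a_ndisc A k κ V hVa hVm ℓ hBase.lunit
  rcases loc2 ℓ A k κ R M V ϖ δ₁ m hBase x' B Y' hCov hGood F0 r hr D s' δ hδ0 hδk hSec with
    hL | ⟨Q, ⟨e, heB, hQe, hfix⟩, hQfix, hQun⟩
  · left
    intro O hO1 hO2 σ hσ z hz
    have hmem' : ∀ z : M, z ∈ O.comap (eqv : M →+* N) ↔ eqv z ∈ O := fun z => Iff.rfl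
    have hG : Gauss V (algebraMap R M x') (O.comap (eqv : M →+* N)) := by
      refine ⟨fun c => ?_, fun p hp hp' => ?_⟩
      · rw [hmem', hO1]
      · obtain ⟨h1, h2, h3⟩ := hO2 p hp hp'
        refine ⟨fun h0 => h1 ?_, ?_, ?_⟩
        · rw [h0, map_zero]
        · rw [hmem']; exact h2
        · rw [hmem', map_inv₀]; exact h3
    have h1 := hL _ hG σ hσ (eqv.symm z) (by rw [hmem', eqv.apply_symm_apply]; exact hz)
    rw [comap_non, map_sub, hs', eqv.apply_symm_apply] at h1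
    exact h1
  right
  have hmem : ∀ z : N, z ∈ Q.O.comap (eqv.symm : N →+* M) ↔ eqv.symm z ∈ Q.O := fun z => Iff.rfl
  refine ⟨Q.O.comap (eqv.symm : N →+* M), ⟨?_, ?_, ?_, ?_⟩, ?_⟩
  · intro c
    rw [hmem, eqv.symm_apply_apply, Place.mem_O]
    exact Q.reg_const c
  · intro z hz
    rw [hmem] at hz
    by_cases hz0 : z = 0
    · refine ⟨0, ?_⟩
      rw [comap_non, hz0, map_zero, map_zero, sub_zero, map_zero]
      exact nonunits_iff.2 ⟨zero_mem _, Or.inl rfl⟩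
    have hz0' : eqv.symm z ≠ 0 := (map_ne_zero_iff _ eqv.symm.injective).2 hz0
    rw [O_iff Q hz0'] at hz
    obtain ⟨c, hc⟩ := Pool.Agent.Y536.PS.res_const κ M (algebraMap R M x') hCov.alg Q _ hz
    refine ⟨c, ?_⟩
    rw [comap_non, map_sub, eqv.symm_apply_apply]
    rcases hc with hc | hc
    · rw [hc, sub_self]
      exact nonunits_iff.2 ⟨zero_mem _, Or.inl rfl⟩
    · have h0 : eqv.symm z - algebraMap κ M c ≠ 0 := by
        intro h0
        rw [h0, Q.ord_zero] at hc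
        exact lt_irrefl _ hc
      exact (O_non_iff Q h0).2 hc
  · refine ⟨e, heB, hfix, ?_⟩
    rw [comap_non, map_sub, eqv.symm_apply_apply, ← hx, eqv.symm_apply_apply]
    have h0 : algebraMap R M x' - algebraMap κ M e ≠ 0 := by
      intro h0
      rw [h0, Q.ord_zero] at hQe
      exact lt_irrefl _ hQe
    exact (O_non_iff Q h0).2 hQe
  · intro σ hσ z
    rw [hmem, hmem]
    have h1 : eqv.symm (S σ z) = s' σ (eqv.symm z) := by
      apply eqv.injective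
      rw [hs', eqv.apply_symm_apply, eqv.apply_symm_apply]
    rw [h1]
    exact O_of_fixes Q (s' σ) (hQfix σ hσ) _
  · rintro W' hW'1 ⟨e', he'B, he'⟩ hW'3
    have hmem' : ∀ z : M, z ∈ W'.comap (eqv : M →+* N) ↔ eqv z ∈ W' := fun z => Iff.rfl
    have hnon' : ∀ z : M, z ∈ (W'.comap (eqv : M →+* N)).nonunits ↔ eqv z ∈ W'.nonunits :=
      fun z => comap_non eqv W' z
    have h1 : algebraMap R M x' - algebraMap κ M e' ∈ (W'.comap (eqv : M →+* N)).nonunits := by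
      rw [hnon', map_sub, hx]
      exact he'
    have hne : algebraMap R M x' - algebraMap κ M e' ≠ 0 := by
      intro h0
      have h2 : Transcendental κ (algebraMap R M x') :=
        (transcendental_algebraMap_iff (algebraMap R M).injective).2 hCov.rat.trans
      apply h2
      rw [sub_eq_zero.1 h0]
      exact isAlgebraic_algebraMap _
    have htop : W'.comap (eqv : M →+* N) ≠ ⊤ := by
      intro h0
      rw [h0, nonunits_iff] at h1
      rcases h1.2 with h2 | h2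
      · exact hne h2
      · exact h2 trivial
    obtain ⟨Q', hQ', -⟩ := hCov.loc _ (fun c => (hmem' _).2 (hW'1 c)) htop
    have h2 : Q' = Q := by
      refine hQun Q' ⟨e', he'B, ?_⟩ fun σ hσ => ?_
      · rw [← O_non_iff Q' hne, hQ']
        exact h1
      · refine fixes_of_O Q' (s' σ) (σ : κ ≃+* κ) (fun c => hconst σ c) fun z => ?_
        rw [hQ', hmem', hmem', hs']
        exact hW'3 σ hσ _
    ext z
    rw [hmem, ← h2, hQ', hmem', eqv.apply_symm_apply]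

end absM


section absI

variable {A k κ R F Ω : Type} [CommRing A] [IsDomain A] [IsDiscreteValuationRing A]
    [Finite (IsLocalRing.ResidueField A)] [Field k] [CharZero k] [Algebra A k] [IsFractionRing A k]
    [Field κ] [Algebra k κ] [Algebra A κ] [IsScalarTower A k κ] [IsAlgClosure k κ]
    [Field R] [Field F] [Field Ω] [Algebra κ R] [Algebra R Ω] [Algebra κ Ω]
    [IsScalarTower κ R Ω] [IsAlgClosure R Ω] [Algebra F Ω] [Algebra.IsAlgebraic F Ω]

theorem geoI2 {ℓ : ℕ} [Fact ℓ.Prime]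
    (V : ValuationSubring κ)
    (hVa : ∀ a : A, algebraMap A κ a ∈ V)
    (hVm : ∀ a ∈ IsLocalRing.maximalIdeal A, algebraMap A κ a ∈ V.nonunits)
    (ϖ : A) (δ₁ : κ) (m : ℤ) (hBase : Base ℓ A k κ V ϖ δ₁ m)
    (x' : R) (B : Finset κ) (hGood : Good V B) (hB : ∀ σ : κ ≃ₐ[k] κ, ∀ e ∈ B, σ e ∈ B)
    (M : IntermediateField R Ω) (Y' : M) (hCov : Cov ℓ κ R M x' B Y')
    (x : F) (hx : algebraMap R Ω x' = algebraMap F Ω x)
    (N : IntermediateField F Ω) (hMN : ∀ z, z ∈ M ↔ z ∈ N)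
    (S : (κ ≃ₐ[k] κ) →* (N ≃ₐ[F] N)) (hcont : Continuous S)
    (hcompat : ∀ σ c (z : N), (z : Ω) = algebraMap κ Ω c → (S σ z : Ω) = algebraMap κ Ω (σ c)) :
    (∀ O : ValuationSubring N, (∀ (c : κ) (z : N), (z : Ω) = algebraMap κ Ω c → (z ∈ O ↔ c ∈ V)) →
      (∀ p : κ[X], (∀ n, p.coeff n ∈ V) → (∃ n, IsU V (p.coeff n)) →
        ∀ z : N, (z : Ω) = aeval (algebraMap F Ω x) p → IsU O z) →
      ∀ σ : κ ≃ₐ[k] κ, Ine V σ → ∀ z ∈ O, S σ z - z ∈ O.nonunits) ∨
    ∃ W : ValuationSubring N,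
      ((∀ (c : κ) (z : N), (z : Ω) = algebraMap κ Ω c → z ∈ W) ∧
       (∀ z ∈ W, ∃ c : κ, ∃ z' ∈ W.nonunits, (z' : Ω) = (z : Ω) - algebraMap κ Ω c) ∧
       (∃ e ∈ B, (∀ σ : κ ≃ₐ[k] κ, Dec V σ → σ e = e) ∧
          ∃ z' ∈ W.nonunits, (z' : Ω) = algebraMap F Ω x - algebraMap κ Ω e) ∧
       ∀ σ : κ ≃ₐ[k] κ, Dec V σ → ∀ z, S σ z ∈ W ↔ z ∈ W) ∧
      ∀ W' : ValuationSubring N, (∀ (c : κ) (z : N), (z : Ω) = algebraMap κ Ω c → z ∈ W') →
        (∃ e ∈ B, ∃ z' ∈ W'.nonunits, (z' : Ω) = algebraMap F Ω x - algebraMap κ Ω e) →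
        (∀ σ : κ ≃ₐ[k] κ, Dec V σ → ∀ z, S σ z ∈ W' ↔ z ∈ W') → W' = W := by
  classical
  have hkb : IsAlgClosed κ := IsAlgClosure.isAlgClosed k
  have hch : CharZero κ := charZero_of_injective_algebraMap (algebraMap k κ).injective
  let eqv : M ≃+* N :=
    { toFun := fun w => ⟨w.1, (hMN _).1 w.2⟩
      invFun := fun w => ⟨w.1, (hMN _).2 w.2⟩
      left_inv := fun w => rfl
      right_inv := fun w => rfl
      map_mul' := fun w w' => rfl
      map_add' := fun w w' => rfl }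
  have heqv : ∀ w : M, ((eqv w : N) : Ω) = (w : Ω) := fun w => rfl
  have hc : ∀ c : κ, ((eqv (algebraMap κ M c) : N) : Ω) = algebraMap κ Ω c := fun c => rfl
  rcases geoM2 V hVa hVm ϖ δ₁ m hBase x' B
    Y' hCov hGood hB eqv x (Subtype.ext hx) S (fun z => cont_fix S hcont z)
    (fun σ c => Subtype.ext (hcompat σ c _ rfl)) with hL | ⟨W, ⟨h1, h2, ⟨e, heB, hfix, he⟩, h4⟩, hun⟩
  · left
    intro O hO1 hO2 σ hσ z hz
    refine hL O (fun c => hO1 c _ rfl) (fun p hp hp' => hO2 p hp hp' _ ?_) σ hσ z hz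
    rw [heqv, ← hx]
    haveI : IsScalarTower κ M Ω := IsScalarTower.of_algebraMap_eq fun c => rfl
    have h5 : aeval (algebraMap M Ω (algebraMap R M x')) p =
        algebraMap M Ω (aeval (algebraMap R M x') p) := aeval_algebraMap_apply Ω _ p
    exact h5.symm
  right
  refine ⟨W, ⟨?_, ?_, ⟨e, heB, hfix, _, he, rfl⟩, h4⟩, ?_⟩
  · intro c z hz
    have h5 : z = eqv (algebraMap κ M c) := Subtype.ext hz
    rw [h5]
    exact h1 c
  · intro z hz
    obtain ⟨c, hc'⟩ := h2 z hz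
    exact ⟨c, _, hc', rfl⟩
  · rintro W' hW'1 ⟨e', he', z', hz', hz''⟩ hW'3
    refine hun W' (fun c => hW'1 c _ rfl) ⟨e', he', ?_⟩ hW'3
    have h5 : algebraMap F N x - eqv (algebraMap κ M e') = z' := Subtype.ext hz''.symm
    rw [h5]
    exact hz'

end absI



end Pool.Agent.H71SC
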