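import Mathlib

/-!
# Hilbert's theorem 90 for locally constant cocycles with values in an algebraic extension
-/

set_option autoImplicit false
set_option linter.all false

namespace Pool.Agent.H71SC

open scoped Classical

variable {k κ : Type} [Field k] [Field κ] [Algebra k κ]

theorem H90 (f : (κ ≃ₐ[k] κ) → κ) (h0 : ∀ g, f g ≠ 0)
    (h1 : ∀ g h, f (g * h) = f g * g (f h)) (M : IntermediateField k κ)
    (hM : FiniteDimensional k M) (h2 : ∀ g ∈ M.fixingSubgroup, f g = 1) :
    ∃ t : κ, t ≠ 0 ∧ ∀ g, g t = f g * t := by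
  haveI := hM
  have hfin : Finite (M →ₐ[k] κ) := inferInstance
  have : Fintype (M →ₐ[k] κ) := Fintype.ofFinite _
  let S : (M →ₐ[k] κ) → Prop := fun σ => ∃ g : κ ≃ₐ[k] κ, ∀ x : M, σ x = g x
  let F : (M →ₐ[k] κ) → κ := fun σ => if h : S σ then (f h.choose)⁻¹ else 0
  have hwd : ∀ g h : κ ≃ₐ[k] κ, (∀ x : M, g x = h x) → f g = f h := by
    intro g h hgh
    have e : (g⁻¹ * h) ∈ M.fixingSubgroup := by
      rw [IntermediateField.mem_fixingSubgroup_iff]
      intro x hx
      rw [AlgEquiv.mul_apply, ← hgh ⟨x, hx⟩]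
      exact g.symm_apply_apply x
    have e2 := h2 _ e
    have e3 := h1 g (g⁻¹ * h)
    rw [mul_inv_cancel_left, e2, map_one, mul_one] at e3
    exact e3.symm
  have hF : ∀ σ, ∀ g : κ ≃ₐ[k] κ, (∀ x : M, σ x = g x) → F σ = (f g)⁻¹ := by
    intro σ g hσ
    have hS : S σ := ⟨g, hσ⟩
    have h3 : F σ = (f hS.choose)⁻¹ := dif_pos hS
    rw [h3]
    congr 1
    exact hwd _ _ (fun x => by rw [← hS.choose_spec, hσ])
  have hF0 : ∀ σ, ¬ S σ → F σ = 0 := fun σ h => dif_neg h
  have hex : ∃ z : M, ∑ σ : M →ₐ[k] κ, F σ * σ z ≠ 0 := by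
    by_contra hno
    push Not at hno
    have hli := linearIndependent_algHom_toLinearMap k M κ
    rw [Fintype.linearIndependent_iff] at hli
    have h3 := hli F (by
      ext z
      simp only [LinearMap.coe_sum, Finset.sum_apply, LinearMap.smul_apply, AlgHom.toLinearMap_apply,
        smul_eq_mul, LinearMap.zero_apply]
      exact hno z) M.val
    have h4 := hF M.val 1 (fun x => rfl)
    rw [h4] at h3
    exact h0 1 (inv_eq_zero.1 h3)
  obtain ⟨z, hz⟩ := hex
  refine ⟨_, hz, fun g => ?_⟩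
  let φ : (M →ₐ[k] κ) ≃ (M →ₐ[k] κ) :=
    { toFun := fun σ => g.toAlgHom.comp σ
      invFun := fun σ => (g⁻¹ : κ ≃ₐ[k] κ).toAlgHom.comp σ
      left_inv := fun σ => by
        ext x
        exact g.symm_apply_apply (σ x)
      right_inv := fun σ => by
        ext x
        exact g.apply_symm_apply (σ x) }
  have hφ : ∀ σ x, φ σ x = g (σ x) := fun σ x => rfl
  have key : ∀ σ, g (F σ) = f g * F (φ σ) := by
    intro σ
    by_cases hS : S σ
    · obtain ⟨h, hσ⟩ := hS
      rw [hF σ h hσ, hF (φ σ) (g * h)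
        (fun x => by rw [hφ, hσ, AlgEquiv.mul_apply]), h1 g h, mul_inv, map_inv₀]
      have := h0 g
      field_simp
    · rw [hF0 σ hS, map_zero, hF0 (φ σ), mul_zero]
      rintro ⟨h, hh⟩
      apply hS
      refine ⟨g⁻¹ * h, fun x => ?_⟩
      rw [AlgEquiv.mul_apply, ← hh x, hφ]
      exact (g.symm_apply_apply _).symm
  rw [map_sum, Finset.mul_sum, ← Equiv.sum_comp φ (fun σ => f g * (F σ * σ z))]
  refine Finset.sum_congr rfl fun σ _ => ?_
  rw [map_mul, key, hφ]
  ring

end Pool.Agent.H71SC
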