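import Pool.Agent.H71SC.Wgt2

/-!
# The abstract local theorem for elementary abelian coverings
-/

set_option autoImplicit false
set_option linter.all false

open Polynomial FF Pool.Agent.Y157.PS

namespace Pool.Agent.H71SC

section lifts

variable {ℓ : ℕ} {κ R M : Type} [Field κ] [Field R]
  [Field M] [Algebra κ R] [Algebra R M] [Algebra κ M] [IsScalarTower κ R M] {x : R}
  {B : Finset κ} {Y₁ : M} {n : κ → ℕ}

/-- radicals of products of the `x - e` are units for the Gauss valuation -/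
theorem isU_Y₁ (hp : 0 < ℓ) {V : ValuationSubring κ} (hG : Good V B)
    {O : ValuationSubring M} (hO : Gauss V (algebraMap R M x) O)
    (hY₁ : Y₁ ^ ℓ = ∏ e ∈ B, (algebraMap R M x - algebraMap κ M e) ^ n e) : IsU O Y₁ := by
  refine isU_of_pow hp ?_
  rw [hY₁]
  have h1 : ∀ e ∈ B, IsU O ((algebraMap R M x - algebraMap κ M e) ^ n e) := by
    intro e he
    have h2 : aeval (algebraMap R M x) (X - C e) = algebraMap R M x - algebraMap κ M e := by
      rw [map_sub, aeval_X, aeval_C]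
    rw [← h2]
    refine Pool.Agent.Y748.PS.isU_pow (hO.2 _ (fun n => ?_) ⟨1, ?_⟩) _
    · rw [coeff_sub, coeff_X, coeff_C]
      refine sub_mem ?_ ?_
      · split_ifs
        · exact one_mem _
        · exact zero_mem _
      · split_ifs
        · exact hG.1 e he
        · exact zero_mem _
    · rw [coeff_sub, coeff_X_one, coeff_C, if_neg one_ne_zero, sub_zero]
      exact isU_one
  have : ∀ T : Finset κ, T ⊆ B →
      IsU O (∏ e ∈ T, (algebraMap R M x - algebraMap κ M e) ^ n e) := by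
    classical
    intro T
    induction T using Finset.induction_on with
    | empty => intro _; rw [Finset.prod_empty]; exact isU_one
    | insert a T ha ih =>
      intro hT
      rw [Finset.prod_insert ha]
      exact (h1 a (hT (Finset.mem_insert_self a T))).mul
        (ih fun b hb => hT (Finset.mem_insert_of_mem hb))
  exact this B (Finset.Subset.refl _)

/-- `γ Y₁ = ζ Y₁` -/
theorem actY₁ [Fact ℓ.Prime] [IsAlgClosed κ]
    (hY₁ : Y₁ ^ ℓ = ∏ e ∈ B, (algebraMap R M x - algebraMap κ M e) ^ n e) (hY : Y₁ ≠ 0)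
    (γ : M ≃ₐ[R] M) : ∃ ζ : κ, ζ ^ ℓ = 1 ∧ γ Y₁ = algebraMap κ M ζ * Y₁ := by
  have hℓ := (Fact.out : ℓ.Prime).pos
  have hγ : ∀ c : κ, γ (algebraMap κ M c) = algebraMap κ M c := by
    intro c
    rw [IsScalarTower.algebraMap_apply κ R M, γ.commutes]
  have h1 : (γ Y₁) ^ ℓ = Y₁ ^ ℓ := by
    rw [← map_pow, hY₁, map_prod]
    refine Finset.prod_congr rfl fun e _ => ?_
    rw [map_pow, map_sub, γ.commutes, hγ]
  have h2 : (γ Y₁ / Y₁) ^ ℓ = 1 := by
    rw [div_pow, h1, div_self (pow_ne_zero _ hY)]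
  obtain ⟨ζ, hζ, hζ1⟩ := const_of_pow (κ := κ) (z := γ Y₁ / Y₁) (a := 1) hℓ (by rw [h2, map_one])
  exact ⟨ζ, hζ1, by rw [hζ, div_mul_cancel₀ _ hY]⟩

end lifts

/-- **the abstract local theorem**, for a covering which contains a radical `Y₁ / δ₁` of an element
whose leading coefficient has valuation prime to `ℓ` -/
theorem loc' (ℓ : ℕ) [Fact ℓ.Prime] (A k κ R M : Type) [CommRing A] [IsDomain A]
    [IsDiscreteValuationRing A] [Field k] [Field κ] [Algebra A k] [Algebra k κ] [Algebra A κ]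
    [IsScalarTower A k κ] [IsFractionRing A k] [CharZero k] [IsAlgClosure k κ]
    [Finite (IsLocalRing.ResidueField A)] [Field R] [Field M] [Algebra κ R] [Algebra R M]
    [Algebra κ M] [IsScalarTower κ R M] (V : ValuationSubring κ) (ϖ : A) (δ₁ : κ) (m : ℤ)
    (hB : Base ℓ A k κ V ϖ δ₁ m) (x : R) (B : Finset κ) (Y : M) (hC : Cov ℓ κ R M x B Y)
    (hGood : Good V B) (F : Type) [Field F] (r : V →+* F) (hr : Res V r) (D : Disc ℓ V r)
    (s : (κ ≃ₐ[k] κ) →* RingAut M) (Y₁ : M) (n : κ → ℕ)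
    (hY₁ : Y₁ ^ ℓ = ∏ e ∈ B, (algebraMap R M x - algebraMap κ M e) ^ n e)
    (hs₁ : Sec k κ R M x Y₁ δ₁ s) (δ : κ) (hδ0 : δ ≠ 0)
    (hδk : ∃ d : k, δ ^ ℓ = algebraMap k κ d) (hs : Sec k κ R M x Y δ s) :
    ∃ W : Place κ M, (∃ e ∈ B, 0 < W.ord (algebraMap R M x - algebraMap κ M e) ∧
        ∀ σ : κ ≃ₐ[k] κ, Dec V σ → σ e = e) ∧
      (∀ σ : κ ≃ₐ[k] κ, Dec V σ → Fixes W (s σ)) ∧
      ∀ W' : Place κ M, (∃ e ∈ B, 0 < W'.ord (algebraMap R M x - algebraMap κ M e)) →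
        (∀ σ : κ ≃ₐ[k] κ, Dec V σ → Fixes W' (s σ)) → W' = W := by
  have hac : IsAlgClosed κ := IsAlgClosure.isAlgClosed k
  have hcz : CharZero κ := charZero_of_injective_algebraMap (algebraMap k κ).injective
  have hp := (Fact.out : ℓ.Prime).pos
  have hℓ : IsU V (ℓ : κ) := hB.isU
  have hδ₁0 := hB.δ0
  obtain ⟨e0, he0⟩ : B.Nonempty := by
    rw [← Finset.card_pos]
    have := hC.three
    omega
  have hRot := a_gex ℓ κ R M x B Y hC F V r hr hGood D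
  obtain ⟨O, -, -, hO, -⟩ := hRot e0 he0
  have hun : ∀ O' : ValuationSubring M, Gauss V (algebraMap R M x) O' → O' = O :=
    fun O' h => a_gun ℓ κ R M x B Y hC V hRot O' O h hO
  have hYU : IsU O Y := hC.Y_isU hGood hO
  have hY0 : Y ≠ 0 := hYU.1
  have hY₁U : IsU O Y₁ := isU_Y₁ hp hGood hO hY₁
  have hconst : ∀ (γ : M ≃ₐ[R] M) (c : κ), γ (algebraMap κ M c) = algebraMap κ M c := by
    intro γ c
    rw [IsScalarTower.algebraMap_apply κ R M, γ.commutes]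
  have st : ∀ σ : κ ≃ₐ[k] κ, Dec V σ → ∀ z, s σ z ∈ O ↔ z ∈ O := fun σ hσ =>
    hO.stable hun (s σ) (σ : κ ≃+* κ) (hs.const σ) (hs.fixx σ) hσ
  have stn : ∀ σ : κ ≃ₐ[k] κ, Dec V σ → ∀ z, s σ z ∈ O.nonunits ↔ z ∈ O.nonunits := fun σ hσ =>
    stable_non (st σ hσ)
  have gt : ∀ (γ : M ≃ₐ[R] M) z, γ z ∈ O ↔ z ∈ O := fun γ => hO.stable' hun γ
  have gtn : ∀ (γ : M ≃ₐ[R] M) z, γ z ∈ O.nonunits ↔ z ∈ O.nonunits := fun γ =>
    stable_non (τ := (γ : M ≃+* M)) (gt γ)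
  have wgt : ∀ σ : κ ≃ₐ[k] κ, Ine V σ → σ δ₁ = δ₁ → ∀ z ∈ O, s σ z - z ∈ O.nonunits :=
    wgt' ℓ A k κ R M V ϖ δ₁ m hB x B Y hC hGood F r hr D s Y₁ hs₁ δ hδ0 hδk hs O hO hun
  have UL : ∀ γ γ' : M ≃ₐ[R] M, (∀ z ∈ O, γ z - γ' z ∈ O.nonunits) → γ = γ' :=
    unique_lift a_g2 hC hℓ hO hun
  have smul : ∀ (σ σ' : κ ≃ₐ[k] κ) z, s (σ * σ') z = s σ (s σ' z) := by
    intro σ σ' z
    rw [map_mul]; rfl
  have sinv : ∀ (σ : κ ≃ₐ[k] κ) z, s σ⁻¹ (s σ z) = z := by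
    intro σ z
    rw [← smul, inv_mul_cancel, map_one]; rfl
  have sinv' : ∀ (σ : κ ≃ₐ[k] κ) z, s σ (s σ⁻¹ z) = z := by
    intro σ z
    rw [← smul, mul_inv_cancel, map_one]; rfl
  have ssymm : ∀ (σ : κ ≃ₐ[k] κ) z, (s σ).symm z = s σ⁻¹ z := by
    intro σ z
    rw [RingEquiv.symm_apply_eq, sinv']
  obtain ⟨-, τ, hτ, hτδ, hτℓ, hτa⟩ := a_tau ℓ A k κ V ϖ δ₁ m hB
  -- the lift of `s τ`
  obtain ⟨γ, hγ⟩ := exists_lift a_g3 hC hO hun (s τ) (st τ hτ.1) (fun c hc => by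
    rw [hs.const, ← map_sub, hO.nonunit]; exact hτ.2 c hc) (hs.fixx τ)
  have hpow : ∀ (n : ℕ), ∀ z ∈ O, (γ ^ n) z - s (τ ^ n) z ∈ O.nonunits := by
    intro n
    induction n with
    | zero =>
      intro z hz
      rw [pow_zero, pow_zero, map_one]
      change z - z ∈ _
      rw [sub_self]; exact nonunits_iff.2 ⟨zero_mem _, Or.inl rfl⟩
    | succ n ih =>
      intro z hz
      rw [pow_succ, pow_succ, smul]
      change (γ ^ n) (γ z) - _ ∈ _
      have h1 : (γ ^ n) (γ z) - s (τ ^ n) (s τ z) =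
          ((γ ^ n) (γ z) - s (τ ^ n) (γ z)) + s (τ ^ n) (γ z - s τ z) := by
        rw [map_sub]; ring
      rw [h1]
      exact non_add (ih _ ((gt γ z).2 hz)) ((stn _ (hτ.pow n).1 _).2 (hγ z hz))
  have hγℓ : γ ^ ℓ = 1 := by
    apply UL
    intro z hz
    change _ - z ∈ _
    have h1 : (γ ^ ℓ) z - z = ((γ ^ ℓ) z - s (τ ^ ℓ) z) + (s (τ ^ ℓ) z - z) := by ring
    rw [h1]
    exact non_add (hpow ℓ z hz) (wgt _ (hτ.pow ℓ) hτℓ z hz)
  have hζℓ : (τ δ / δ) ^ ℓ = 1 := by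
    obtain ⟨d, hd⟩ := hδk
    rw [div_pow, ← map_pow, hd, τ.commutes, ← hd, div_self (pow_ne_zero _ hδ0)]
  have hζ₁ℓ : (τ δ₁ / δ₁) ^ ℓ = 1 := hB.ratio τ
  have hζ₁1 : τ δ₁ / δ₁ ≠ 1 := by
    intro h
    rw [div_eq_one_iff_eq hδ₁0] at h
    exact hτδ h
  have hγY : γ Y = algebraMap κ M (τ δ / δ) * Y := by
    obtain ⟨ζ, hζ, h1⟩ := hC.actY hY0 γ
    have h2 := hγ Y hYU.2.1
    rw [h1, hs.fixy, ← sub_mul, mul_comm, ← map_sub] at h2
    have h3 := (hO.nonunit).1 (non_of_isU_mul hYU h2)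
    rw [h1, root_eq hℓ hp hζ hζℓ h3]
  have hγY₁ : γ Y₁ = algebraMap κ M (τ δ₁ / δ₁) * Y₁ := by
    obtain ⟨ζ, hζ, h1⟩ := actY₁ hY₁ hY₁U.1 γ
    have h2 := hγ Y₁ hY₁U.2.1
    rw [h1, hs₁.fixy, ← sub_mul, mul_comm, ← map_sub] at h2
    have h3 := (hO.nonunit).1 (non_of_isU_mul hY₁U h2)
    rw [h1, root_eq hℓ hp hζ hζ₁ℓ h3]
  have hγ1 : γ ≠ 1 := by
    intro h
    rw [h] at hγY₁
    change Y₁ = _ at hγY₁
    have h1 : algebraMap κ M (τ δ₁ / δ₁) = 1 := by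
      have h2 : algebraMap κ M (τ δ₁ / δ₁) * Y₁ = 1 * Y₁ := by rw [← hγY₁, one_mul]
      exact mul_right_cancel₀ hY₁U.1 h2
    apply hζ₁1
    rw [← map_one (algebraMap κ M)] at h1
    exact (algebraMap κ M).injective h1
  obtain ⟨W, hW⟩ := a_exf ℓ κ R M x B Y hC γ hγℓ hγ1
  obtain ⟨-, e, he, hWe, hWY⟩ := hC.fixed a_stab W γ hW hγ1
  -- the image of the section fixes `W`
  have hfix : ∀ σ : κ ≃ₐ[k] κ, Dec V σ → Fixes W (s σ) := by
    intro σ hσ
    obtain ⟨η, hη⟩ := conjR hC.rat (s σ) (σ : κ ≃+* κ) (hs.const σ) (hs.fixx σ) γ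
    have hη' : ∀ z, s σ (η z) = γ (s σ z) := by
      intro z
      rw [hη, RingEquiv.apply_symm_apply]
    obtain ⟨a, ha⟩ := hτa (σ⁻¹ * τ * σ) (Ine.conj hσ hτ)
    have hρI : Ine V (τ⁻¹ ^ a * (σ⁻¹ * τ * σ)) := (hτ.inv.pow a).mul (Ine.conj hσ hτ)
    have hηγ : η = γ ^ a := by
      apply UL
      intro z hz
      have h1 : s (σ⁻¹ * τ * σ) z = s σ⁻¹ (s τ (s σ z)) := by rw [smul, smul]
      have h2 : σ⁻¹ * τ * σ = τ ^ a * (τ⁻¹ ^ a * (σ⁻¹ * τ * σ)) := by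
        rw [inv_pow, mul_inv_cancel_left]
      have h3 : η z - s (σ⁻¹ * τ * σ) z ∈ O.nonunits := by
        rw [h1, hη, ssymm, ← map_sub]
        exact (stn _ hσ.inv _).2 (hγ _ ((st σ hσ z).2 hz))
      have h4 : s (σ⁻¹ * τ * σ) z - s (τ ^ a) z ∈ O.nonunits := by
        rw [h2, smul, ← map_sub]
        exact (stn _ (hτ.pow a).1 _).2 (wgt _ hρI ha z hz)
      have h5 := hpow a z hz
      have h6 : η z - (γ ^ a) z = (η z - s (σ⁻¹ * τ * σ) z) +
          ((s (σ⁻¹ * τ * σ) z - s (τ ^ a) z) - ((γ ^ a) z - s (τ ^ a) z)) := by ring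
      rw [h6]
      exact non_add h3 (non_sub h4 h5)
    have hηℓ : η ^ ℓ = 1 := by rw [hηγ, ← pow_mul, mul_comm, pow_mul, hγℓ, one_pow]
    have hη1 : η ≠ 1 := by
      intro h
      apply hγ1
      ext z
      have h1 := hη' (s σ⁻¹ z)
      rw [h, sinv'] at h1
      change s σ (s σ⁻¹ z) = _ at h1
      rw [sinv'] at h1
      exact h1.symm
    let Wσ := Place.comapEquiv W (s σ) (σ : κ ≃+* κ) (hs.const σ)
    have h1 : Wσ = W := by
      refine a_unq ℓ κ R M x B Y hC η hηℓ hη1 Wσ W ?_ ?_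
      · intro z
        change W.ord (s σ (η z)) = W.ord (s σ z)
        rw [hη', hW]
      · rw [hηγ]; exact hW.pow a
    intro z
    change Wσ.ord z = W.ord z
    rw [h1]
  refine ⟨W, ⟨e, he, hWe, ?_⟩, hfix, ?_⟩
  · intro σ hσ
    by_contra hne
    have h1 := hfix σ hσ (algebraMap R M x - algebraMap κ M e)
    rw [map_sub, hs.fixx, hs.const] at h1
    have h2 := ord_sub_const hWe (Ne.symm hne)
    omega
  · -- uniqueness
    rintro W' ⟨e', he', hWe'⟩ hfix'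
    obtain ⟨-, c, We, -, -, hc, hWc, hcY⟩ := hRot e' he'
    have hnor : Normal R M := by
      have := hC.gal
      infer_instance
    obtain ⟨g, hg⟩ := a_conj R M W'.O We.O (trace_eq hC.rat e' hWe' hWc)
    have hgW : ∀ z, We.ord z = W'.ord (g z) := by
      let W1 := Place.comapEquiv W' (g : M ≃+* M) (RingEquiv.refl κ) (hconst g)
      have h1 : We = W1 := by
        apply Place.ext_O
        ext z
        rw [hg, Place.mem_O, Place.mem_O]
        unfold Place.Reg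
        change g z = 0 ∨ _ ↔ z = 0 ∨ _
        rw [map_eq_zero_iff g g.injective]
        rfl
      intro z
      rw [h1]; rfl
    let c' : M ≃ₐ[R] M := g * c * g⁻¹
    have hc'z : ∀ z, c' z = g (c (g⁻¹ z)) := fun z => rfl
    have hginv : ∀ z, g (g⁻¹ z) = z := fun z => g.apply_symm_apply z
    have hc' : Fixes W' c' := by
      intro z
      rw [hc'z, ← hgW, hc, hgW, hginv]
    have hY' : W'.ord Y = 1 := hC.ordY W' he' hWe'
    have hc'Y : c' Y ≠ Y := by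
      intro h
      obtain ⟨ξ, hξ, h1⟩ := hC.actY hY0 g⁻¹
      rw [hc'z, h1, map_mul, hconst, map_mul, hconst] at h
      have h2 : g (g⁻¹ Y) = Y := hginv Y
      rw [h1, map_mul, hconst] at h2
      have hξ0 : algebraMap κ M ξ ≠ 0 := by
        intro h0
        rw [h0, zero_mul] at h2
        exact hY0 h2.symm
      have h3 : g (c Y) = g Y := mul_left_cancel₀ hξ0 (h.trans h2.symm)
      exact hcY (g.injective h3)
    obtain ⟨ζ', hζ', hc'Y'⟩ := hC.actY hY0 c'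
    have hζ'1 : ζ' ≠ 1 := by
      rintro rfl
      apply hc'Y
      rw [hc'Y', map_one, one_mul]
    have hprim : IsPrimitiveRoot ζ' ℓ := by
      have h1 : orderOf ζ' = ℓ := orderOf_eq_prime hζ' hζ'1
      rw [← h1]
      exact IsPrimitiveRoot.orderOf ζ'
    obtain ⟨i, -, hi⟩ := hprim.eq_pow_of_pow_eq_one hζℓ
    let c2 : M ≃ₐ[R] M := c' ^ i
    have hc2 : Fixes W' c2 := hc'.pow i
    have hpowY : ∀ n : ℕ, (c' ^ n) Y = algebraMap κ M (ζ' ^ n) * Y := by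
      intro n
      induction n with
      | zero => rw [pow_zero, pow_zero, map_one, one_mul]; rfl
      | succ n ih =>
        rw [pow_succ, pow_succ]
        change (c' ^ n) (c' Y) = _
        rw [hc'Y', map_mul, hconst, ih, map_mul]
        ring
    have hc2Y : c2 Y = algebraMap κ M (τ δ / δ) * Y := by
      rw [← hi]; exact hpowY i
    have hc2ℓ : c2 ^ ℓ = 1 := by
      refine hC.stabR a_stab W' _ (hc2.pow ℓ) Y hY' ?_
      have h1 : c2 ^ ℓ = c' ^ (i * ℓ) := (pow_mul c' i ℓ).symm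
      rw [h1, hpowY, pow_mul, hi, hζℓ, map_one, one_mul]
    -- `s τ` commutes with `c2`
    obtain ⟨θ, hθ⟩ := conjR hC.rat (s τ⁻¹) ((τ⁻¹ : κ ≃ₐ[k] κ) : κ ≃+* κ) (hs.const τ⁻¹)
      (hs.fixx τ⁻¹) c2
    have hθ' : ∀ z, θ z = s τ (c2 (s τ⁻¹ z)) := by
      intro z
      rw [hθ, ssymm, inv_inv]
    have hτζ : τ (τ δ / δ) = τ δ / δ := hτ.fix_root hℓ hζℓ
    have hζ0 : τ δ / δ ≠ 0 := by
      intro h
      rw [h, zero_pow hp.ne'] at hζℓ
      exact zero_ne_one hζℓ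
    have hτinv : τ⁻¹ δ / δ = (τ δ / δ)⁻¹ := by
      have h1 : τ (τ⁻¹ δ / δ) = τ ((τ δ / δ)⁻¹) := by
        rw [map_inv₀, hτζ, map_div₀, inv_div]
        congr 1
        exact τ.apply_symm_apply δ
      exact τ.injective h1
    have hθY : θ Y = algebraMap κ M (τ δ / δ) * Y := by
      rw [hθ', hs.fixy, hτinv, map_mul, hconst, hc2Y, ← mul_assoc, ← map_mul,
        inv_mul_cancel₀ hζ0, map_one, one_mul, hs.fixy]
    have hθW : Fixes W' θ := by
      intro z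
      rw [hθ', hfix' τ hτ.1, hc2, hfix' τ⁻¹ hτ.1.inv]
    have hθc : θ = c2 := by
      have h1 : c2⁻¹ * θ = 1 := by
        refine hC.stabR a_stab W' _ (hc2.inv.mul hθW) Y hY' ?_
        change c2.symm (θ Y) = Y
        rw [AlgEquiv.symm_apply_eq, hθY, hc2Y]
      exact (inv_mul_eq_one.1 h1).symm
    have hcomm : ∀ z, s τ (c2 z) = c2 (s τ z) := by
      intro z
      have h1 := hθ' (s τ z)
      rw [sinv, hθc] at h1
      exact h1.symm
    have hcomm' : γ * c2 = c2 * γ := by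
      apply UL
      intro z hz
      change γ (c2 z) - c2 (γ z) ∈ _
      have h1 : γ (c2 z) - c2 (γ z) = (γ (c2 z) - s τ (c2 z)) - c2 (γ z - s τ z) := by
        rw [hcomm, map_sub]; ring
      rw [h1]
      exact non_sub (hγ _ ((gt c2 z).2 hz)) ((gtn c2 _).2 (hγ z hz))
    have hηY : (γ * c2⁻¹) Y = Y := by
      change γ (c2.symm Y) = Y
      have h1 : c2.symm Y = algebraMap κ M (τ δ / δ)⁻¹ * Y := by
        rw [AlgEquiv.symm_apply_eq, map_mul, hconst, hc2Y, ← mul_assoc, ← map_mul,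
          inv_mul_cancel₀ hζ0, map_one, one_mul]
      rw [h1, map_mul, hconst, hγY, ← mul_assoc, ← map_mul, inv_mul_cancel₀ hζ0, map_one, one_mul]
    have hη1 : γ * c2⁻¹ = 1 := by
      by_contra hne
      have hηℓ : (γ * c2⁻¹) ^ ℓ = 1 := by
        have hcm : Commute γ c2⁻¹ := (show Commute γ c2 from hcomm').inv_right
        rw [hcm.mul_pow, hγℓ, inv_pow, hc2ℓ, inv_one, mul_one]
      obtain ⟨W2, hW2⟩ := a_exf ℓ κ R M x B Y hC _ hηℓ hne
      exact (hC.fixed a_stab W2 _ hW2 hne).1 hηY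
    have hγc : γ = c2 := by
      rw [mul_inv_eq_one] at hη1
      exact hη1
    exact a_unq ℓ κ R M x B Y hC γ hγℓ hγ1 W' W (by rw [hγc]; exact hc2) hW

end Pool.Agent.H71SC
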