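import Pool.Agent.H71SC.GeoM2
import Pool.Agent.H71SC.Geo

/-! # The covering field as maximal pro-`ℓ` extension of `κ(x)` with given ramification -/

set_option autoImplicit false
set_option linter.all false

open Polynomial FF Pool.Agent.Y157.PS

namespace Pool.Agent.H71SC

/-- the maximal pro-`ℓ` extension of `K` whose ramification indices divide `ℓ` at the valuation rings
with `u` in the maximal ideal, and which is unramified at the others -/
noncomputable def orbi (ℓ : ℕ) (k : Type) {K Ω : Type} [Field k] [Field K] [Field Ω] [Algebra k Ω]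
    [Algebra K Ω] (u : Ω) : IntermediateField K Ω :=
  ⨆ L : {L : IntermediateField K Ω // Lev ℓ L ∧ RamF ℓ k u L}, L.1

section places

variable {κ R Ω : Type} [Field κ] [IsAlgClosed κ] [CharZero κ] [Field R] [Field Ω] [Algebra κ R]
  [Algebra R Ω] [Algebra κ Ω] [IsScalarTower κ R Ω] {ℓ : ℕ} [Fact ℓ.Prime]
  {x : R} {B : Finset κ} {M : IntermediateField R Ω} {Y : M}

theorem isU_of_ord {W : Place κ M} {V : ValuationSubring Ω}
    (hV : V.comap (algebraMap M Ω) = W.O) {a b : M} (ha : a ≠ 0) (hb : b ≠ 0)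
    (h : W.ord a = W.ord b) : IsU V ((a : Ω) / (b : Ω)) := by
  have ha' : (a : Ω) ≠ 0 := fun h => ha (Subtype.ext h)
  have hb' : (b : Ω) ≠ 0 := fun h => hb (Subtype.ext h)
  have h1 : a / b ∈ W.O := by
    rw [O_iff W (div_ne_zero ha hb), W.ord_div ha hb]
    omega
  have h2 : b / a ∈ W.O := by
    rw [O_iff W (div_ne_zero hb ha), W.ord_div hb ha]
    omega
  rw [← hV, ValuationSubring.mem_comap] at h1 h2
  refine ⟨div_ne_zero ha' hb', h1, ?_⟩
  rw [inv_div]
  exact h2

/-- a product over the branch points and one of its factors -/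
theorem quot_mem {W : ValuationSubring Ω} (hW : ∀ c : κ, algebraMap κ Ω c ∈ W) {X : Ω}
    (hX : X ∈ W) (c : κ) (e : κ) (he : e ∈ B) (hne : X - algebraMap κ Ω e ≠ 0) :
    algebraMap κ Ω c * (∏ e ∈ B, (X - algebraMap κ Ω e)) / (X - algebraMap κ Ω e) ∈ W := by
  classical
  have h2 : algebraMap κ Ω c * (∏ e ∈ B, (X - algebraMap κ Ω e)) / (X - algebraMap κ Ω e) =
      algebraMap κ Ω c * ∏ e' ∈ B.erase e, (X - algebraMap κ Ω e') := by
    rw [← Finset.mul_prod_erase B _ he]
    field_simp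
  rw [h2]
  exact mul_mem (hW c) (prod_mem fun e' _ => sub_mem hX (hW e'))

/-- values of elements of `M` -/
theorem level_val (hC : Cov ℓ κ R M x B Y) {u : Ω} {c : κ} (hc : c ≠ 0)
    (hu : u = algebraMap κ Ω c * ∏ e ∈ B, (algebraMap R Ω x - algebraMap κ Ω e))
    (W : ValuationSubring Ω) (hW : ∀ c : κ, algebraMap κ Ω c ∈ W) {z : Ω} (hz : z ∈ M)
    (hz0 : z ≠ 0) :
    (u ∈ W.nonunits → ∃ t : R, t ≠ 0 ∧ IsU W (z ^ ℓ / algebraMap R Ω t)) ∧
    (u ∉ W.nonunits → ∃ t : R, t ≠ 0 ∧ IsU W (z / algebraMap R Ω t)) := by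
  have hp := (Fact.out : ℓ.Prime).pos
  have hz0' : (⟨z, hz⟩ : M) ≠ 0 := fun h => hz0 (congrArg Subtype.val h)
  -- the second property implies the first
  have key : (∃ t : R, t ≠ 0 ∧ IsU W (z / algebraMap R Ω t)) →
      ∃ t : R, t ≠ 0 ∧ IsU W (z ^ ℓ / algebraMap R Ω t) := by
    rintro ⟨t, ht, h⟩
    refine ⟨t ^ ℓ, pow_ne_zero _ ht, ?_⟩
    rw [map_pow, ← div_pow]
    exact Pool.Agent.Y748.PS.isU_pow h ℓ
  by_cases htop : W.comap (algebraMap M Ω) = ⊤
  · have h1 : ∀ y : M, (y : Ω) ∈ W := by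
      intro y
      have h2 : y ∈ W.comap (algebraMap M Ω) := by rw [htop]; trivial
      exact h2
    have h3 : ∃ t : R, t ≠ 0 ∧ IsU W (z / algebraMap R Ω t) := by
      refine ⟨1, one_ne_zero, ?_, ?_, ?_⟩
      · rw [map_one, div_one]; exact hz0
      · rw [map_one, div_one]; exact h1 ⟨z, hz⟩
      · rw [map_one, div_one]; exact h1 ((⟨z, hz⟩ : M)⁻¹)
    exact ⟨fun _ => key h3, fun _ => h3⟩
  obtain ⟨P, hP, hcase⟩ := hC.loc (W.comap (algebraMap M Ω)) (fun c => hW c) htop
  have hV : W.comap (algebraMap M Ω) = P.O := hP.symm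
  set n := P.ord (⟨z, hz⟩ : M) with hn
  have hR : ∀ t : R, P.ord (algebraMap R M t) = 1 → ∃ t : R, t ≠ 0 ∧
      IsU W (z / algebraMap R Ω t) := by
    intro t ht
    have ht0 : algebraMap R M t ≠ 0 := by
      intro h0
      rw [h0, P.ord_zero] at ht
      exact zero_ne_one ht
    have ht0' : t ≠ 0 := fun h => ht0 (by rw [h, map_zero])
    refine ⟨t ^ n, zpow_ne_zero _ ht0', ?_⟩
    have h1 := isU_of_ord hV hz0' (zpow_ne_zero n ht0) (by rw [P.ord_zpow, ht, mul_one])
    have h2 : (((algebraMap R M t) ^ n : M) : Ω) = algebraMap R Ω (t ^ n) := by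
      rw [map_zpow₀ (algebraMap R Ω)]
      exact map_zpow₀ (algebraMap M Ω) (algebraMap R M t) n
    rw [h2] at h1
    exact h1
  rcases hcase with ⟨e, he, h1, h2⟩ | ⟨a, ha, h1⟩ | h1
  · have hne : algebraMap R M x - algebraMap κ M e ≠ 0 := by
      intro h0
      rw [h0, P.ord_zero] at h1
      have : (0 : ℤ) < ℓ := by exact_mod_cast hp
      omega
    have hne' : algebraMap R Ω x - algebraMap κ Ω e ≠ 0 := fun h => hne (Subtype.ext h)
    have h3 : algebraMap R Ω x - algebraMap κ Ω e ∈ W.nonunits := by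
      have h4 : algebraMap R M x - algebraMap κ M e ∈ P.O.nonunits := by
        rw [O_non_iff P hne, h1]
        exact_mod_cast hp
      exact (non_iff hV _).1 h4
    have hXW : algebraMap R Ω x ∈ W := by
      have h4 : algebraMap R Ω x = (algebraMap R Ω x - algebraMap κ Ω e) + algebraMap κ Ω e := by
        ring
      rw [h4]
      exact add_mem (non_mem h3) (hW e)
    have hun : u ∈ W.nonunits := by
      have h4 : u = (algebraMap κ Ω c * (∏ e ∈ B, (algebraMap R Ω x - algebraMap κ Ω e)) /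
          (algebraMap R Ω x - algebraMap κ Ω e)) * (algebraMap R Ω x - algebraMap κ Ω e) := by
        rw [div_mul_cancel₀ _ hne', hu]
      rw [h4]
      exact non_mul (quot_mem hW hXW c e he hne') h3
    refine ⟨fun _ => ?_, fun h => absurd hun h⟩
    refine ⟨(x - algebraMap κ R e) ^ n, zpow_ne_zero _ ?_, ?_⟩
    · intro h0
      apply hne
      have h4 := congrArg (algebraMap R M) h0
      rw [map_sub, map_zero, ← IsScalarTower.algebraMap_apply] at h4
      exact h4
    · have h4 := isU_of_ord hV (pow_ne_zero ℓ hz0') (zpow_ne_zero n hne)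
        (by rw [P.ord_pow, P.ord_zpow, h1, ← hn, mul_comm])
      have h5 : (((algebraMap R M x - algebraMap κ M e) ^ n : M) : Ω) =
          algebraMap R Ω ((x - algebraMap κ R e) ^ n) := by
        rw [map_zpow₀ (algebraMap R Ω), map_sub (algebraMap R Ω), ← IsScalarTower.algebraMap_apply]
        exact map_zpow₀ (algebraMap M Ω) (algebraMap R M x - algebraMap κ M e) n
      rw [h5] at h4
      have h6 : (((⟨z, hz⟩ : M) ^ ℓ : M) : Ω) = z ^ ℓ := by push_cast; rfl
      rw [h6] at h4
      exact h4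
  · have h3 := hR (x - algebraMap κ R a) (by
      rw [map_sub, ← IsScalarTower.algebraMap_apply, h1])
    exact ⟨fun _ => key h3, fun _ => h3⟩
  · have h3 := hR x⁻¹ (by rw [map_inv₀, P.ord_inv, h1]; rfl)
    exact ⟨fun _ => key h3, fun _ => h3⟩

/-- `M` is the maximal pro-`ℓ` extension with given ramification -/
theorem mem_orbi {k : Type} [Field k] [Algebra k κ] [Algebra k Ω] [IsScalarTower k κ Ω]
    [Algebra.IsAlgebraic k κ] [Algebra.IsAlgebraic R Ω] [Normal R Ω]
    (hC : Cov ℓ κ R M x B Y) {u : Ω} {c : κ} (hc : c ≠ 0)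
    (hu : u = algebraMap κ Ω c * ∏ e ∈ B, (algebraMap R Ω x - algebraMap κ Ω e)) (z : Ω) :
    z ∈ M ↔ z ∈ orbi (K := R) ℓ k u := by
  have hp := (Fact.out : ℓ.Prime).pos
  have hXe : ∀ e : κ, algebraMap R Ω x - algebraMap κ Ω e ≠ 0 := by
    intro e h0
    have h2 : Transcendental κ (algebraMap R Ω x) :=
      (transcendental_algebraMap_iff (algebraMap R Ω).injective).2 hC.rat.trans
    apply h2
    rw [sub_eq_zero.1 h0]
    exact isAlgebraic_algebraMap _
  have hkW : ∀ W : ValuationSubring Ω, (∀ c : κ, algebraMap κ Ω c ∈ W) →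
      ∀ c : k, algebraMap k Ω c ∈ W := by
    intro W hW c
    rw [IsScalarTower.algebraMap_apply k κ Ω]
    exact hW _
  have hWk : ∀ W : ValuationSubring Ω, (∀ c : k, algebraMap k Ω c ∈ W) →
      ∀ c : κ, algebraMap κ Ω c ∈ W := by
    intro W hW c
    refine Pool.Agent.W620.SC.const_mem hW ?_
    rw [mem_algebraicClosure_iff]
    exact (Algebra.IsAlgebraic.isAlgebraic (R := k) c).algebraMap
  constructor
  · intro hz
    obtain ⟨N, hzN, hN⟩ := hC.pow ⟨z, hz⟩
    have h1 := hN.fin
    have h2 := hN.gal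
    obtain ⟨m, hm⟩ := hN.card
    let N' : IntermediateField R Ω := IntermediateField.lift N
    let e : N ≃ₐ[R] N' := IntermediateField.liftAlgEquiv N
    haveI : FiniteDimensional R N' := Module.Finite.equiv e.toLinearEquiv
    haveI : IsGalois R N' := IsGalois.of_algEquiv e
    have h3 : z ∈ N' := (IntermediateField.mem_lift (⟨z, hz⟩ : M)).2 hzN
    have hlev : Lev ℓ N' := ⟨inferInstance, inferInstance, m, by
      rw [← hm]
      exact e.toLinearEquiv.finrank_eq.symm⟩
    have hN'M : N' ≤ M := IntermediateField.lift_le N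
    have hram : RamF ℓ k u N' := by
      intro W hW w hw hw0
      exact level_val hC hc hu W (hWk W hW) (hN'M hw) hw0
    exact (le_iSup (fun L : {L : IntermediateField R Ω // Lev ℓ L ∧ RamF ℓ k u L} => L.1)
      ⟨N', hlev, hram⟩) h3
  · intro hz
    have h1 : (orbi (K := R) ℓ k u : IntermediateField R Ω) ≤ M := by
      refine iSup_le fun L => ?_
      intro w hw
      refine le_ram hC L.1 L.2.1 ?_ w hw
      intro W hW w' hw' hw0
      obtain ⟨a1, a2⟩ := L.2.2 W (hkW W hW) w' hw' hw0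
      by_cases huW : u ∈ W.nonunits
      · obtain ⟨t, ht0, ht1⟩ := a1 huW
        refine ⟨t, ht0, Or.inr ⟨?_, ht1⟩⟩
        by_contra hno
        push Not at hno
        have hinv : u⁻¹ ∈ W := by
          rw [hu, mul_inv, ← Finset.prod_inv_distrib]
          refine mul_mem ?_ (prod_mem fun e he => ?_)
          · rw [← map_inv₀]
            exact hW _
          · exact inv_mem_of_not_nonunit (hno e he)
        rcases (nonunits_iff.1 huW).2 with h9 | h9
        · rw [hu] at h9
          exact (mul_ne_zero ((_root_.map_ne_zero _).2 hc)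
            (Finset.prod_ne_zero_iff.2 fun e _ => hXe e)) h9
        · exact h9 hinv
      · obtain ⟨t, ht0, ht1⟩ := a2 huW
        exact ⟨t, ht0, Or.inl ht1⟩
    exact h1 hz

end places

end Pool.Agent.H71SC
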