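import Pool.Agent.Y748.PS.WGT
import Pool.Agent.Y157.PS.Loc
import Pool.Agent.H71SC.H90

/-!
# The weight argument for elementary abelian coverings

The semilinear action multiplies the radical `Y₁` by `σ δ₁ / δ₁`, where the valuation of `δ₁ ^ ℓ` is
prime to `ℓ`, and the radical `Y` of the covering field by `σ δ / δ`, where `δ` is arbitrary.
-/

set_option autoImplicit false
set_option linter.all false

open Polynomial FF Pool.Agent.Y157.PS Pool.Agent.Y748.PS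

namespace Pool.Agent.H71SC

section

variable {κ R M : Type} [Field κ] [Field R] [Field M] [Algebra κ R] [Algebra R M] [Algebra κ M]
  [IsScalarTower κ R M] {x : R}
variable {k : Type} [Field k] [Algebra k κ] {Y Y₁ : M} {δ : κ} {s : (κ ≃ₐ[k] κ) →* RingAut M}

/-- a level inside `L`, stable under `s(φ)`, with given elements -/
theorem exists_level' {ℓ : ℕ} [Fact ℓ.Prime] [CharZero κ] {B : Finset κ}
    (hk : Algebra.IsAlgebraic k κ)
    (hC : Cov ℓ κ R M x B Y) {V : ValuationSubring κ} {O : ValuationSubring M}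
    (hO : Gauss V (algebraMap R M x) O)
    (hu : ∀ O' : ValuationSubring M, Gauss V (algebraMap R M x) O' → O' = O)
    (hs : Sec k κ R M x Y₁ δ s) {φ : κ ≃ₐ[k] κ} (hφ : Dec V φ) (hφδ : φ δ = δ)
    {z₁ z₂ : M} (hz₁ : z₁ ∈ LL R V O s δ) (hz₂ : z₂ ∈ LL R V O s δ) :
    ∃ N : IntermediateField R M, Lev ℓ N ∧ z₁ ∈ N ∧ z₂ ∈ N ∧ N ≤ LL R V O s δ ∧
      ∀ z, s φ z ∈ N ↔ z ∈ N := by
  haveI := hC.gal
  have hR := hC.rat
  haveI : CharZero R := charZero_of_injective_algebraMap (algebraMap κ R).injective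
  have hM : Algebra.IsAlgebraic R M := inferInstance
  obtain ⟨T₁, hT₁, hm₁, hs₁⟩ := exists_orbit (k := k) hk hR hM z₁
  obtain ⟨T₂, hT₂, hm₂, hs₂⟩ := exists_orbit (k := k) hk hR hM z₂
  set T : Set M := {w | (w ∈ T₁ ∨ w ∈ T₂) ∧ w ∈ LL R V O s δ} with hT
  have hTfin : T.Finite := (hT₁.union hT₂).subset fun w hw => hw.1
  have hTgal : ∀ g : M ≃ₐ[R] M, ∀ w ∈ T, g w ∈ T := by
    intro g w hw
    have h1 : ∀ c : k, (g : M ≃+* M) (algebraMap κ M (algebraMap k κ c)) =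
      algebraMap κ M (algebraMap k κ c) := fun c => gal_const g _
    have h2 : (g : M ≃+* M) (algebraMap R M x) = algebraMap R M x := g.commutes x
    refine ⟨?_, LL_gal hw.2 g⟩
    rcases hw.1 with h | h
    · exact Or.inl (hs₁ (g : M ≃+* M) h1 h2 w h)
    · exact Or.inr (hs₂ (g : M ≃+* M) h1 h2 w h)
  have hTs : ∀ φ : κ ≃ₐ[k] κ, Dec V φ → φ δ = δ → ∀ w ∈ T, s φ w ∈ T := by
    intro φ hφ hφδ w hw
    have h1 : ∀ c : k, (s φ) (algebraMap κ M (algebraMap k κ c)) =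
      algebraMap κ M (algebraMap k κ c) := fun c => by rw [hs.const, AlgEquiv.commutes]
    have h2 : (s φ) (algebraMap R M x) = algebraMap R M x := hs.fixx φ
    refine ⟨?_, LL_s hO hu hR hs hφ hφδ hw.2⟩
    rcases hw.1 with h | h
    · exact Or.inl (hs₁ (s φ) h1 h2 w h)
    · exact Or.inr (hs₂ (s φ) h1 h2 w h)
  haveI : Finite T := hTfin
  set N := IntermediateField.adjoin R T with hN
  haveI hfin : FiniteDimensional R N :=
    IntermediateField.finiteDimensional_adjoin fun w _ => (hM.isAlgebraic w).isIntegral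
  have hnorm : Normal R N := by
    rw [IntermediateField.normal_iff_forall_map_le']
    intro g
    rw [hN, IntermediateField.adjoin_map, IntermediateField.adjoin_le_iff]
    rintro _ ⟨w, hw, rfl⟩
    exact IntermediateField.subset_adjoin R T (hTgal g w hw)
  haveI : Algebra.IsSeparable R N := inferInstance
  have hgal : IsGalois R N := ⟨⟩
  have hNs : ∀ φ : κ ≃ₐ[k] κ, Dec V φ → φ δ = δ → ∀ z ∈ N, s φ z ∈ N := by
    intro φ hφ hφδ z hz
    induction hz using IntermediateField.adjoin_induction with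
    | mem y hy => exact IntermediateField.subset_adjoin R T (hTs φ hφ hφδ y hy)
    | algebraMap c =>
      obtain ⟨c', hc'⟩ := sec_R hR hs φ c
      rw [hc']
      exact N.algebraMap_mem c'
    | add a b _ _ ha hb => rw [map_add]; exact add_mem ha hb
    | inv a _ ha => rw [map_inv₀]; exact inv_mem ha
    | mul a b _ _ ha hb => rw [map_mul]; exact mul_mem ha hb
  refine ⟨N, lev_of_galois hC.pow N hfin hgal, ?_, ?_, ?_, fun z => ⟨fun h => ?_, hNs φ hφ hφδ z⟩⟩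
  · exact IntermediateField.subset_adjoin R T ⟨Or.inl hm₁, hz₁⟩
  · exact IntermediateField.subset_adjoin R T ⟨Or.inr hm₂, hz₂⟩
  · rw [hN, IntermediateField.adjoin_le_iff]
    exact fun w hw => hw.2
  · have := hNs φ⁻¹ (dec_inv hφ) (fix_inv hφδ) _ h
    rwa [s_inv_apply] at this

end

section

variable {A k κ R M : Type} [CommRing A] [IsDomain A]
    [IsDiscreteValuationRing A] [Field k] [Field κ] [Algebra A k] [Algebra k κ] [Algebra A κ]
    [IsScalarTower A k κ] [IsFractionRing A k] [CharZero k] [IsAlgClosure k κ]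
    [Finite (IsLocalRing.ResidueField A)] [Field R] [Field M] [Algebra κ R] [Algebra R M]
    [Algebra κ M] [IsScalarTower κ R M]

variable {ℓ : ℕ} [Fact ℓ.Prime] [IsAlgClosed κ] [CharZero κ] {V : ValuationSubring κ}
  {ϖ : A} {δ : κ} {m : ℤ} {x : R} {B : Finset κ} {Y Y₁ : M} {s : (κ ≃ₐ[k] κ) →* RingAut M}
  {O : ValuationSubring M}

theorem chi_kum' (hB : Base ℓ A k κ V ϖ δ m) (hG2 : S_G2) (hKUM : S_KUM)
    (hC : Cov ℓ κ R M x B Y) (hO : Gauss V (algebraMap R M x) O)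
    (hu : ∀ O' : ValuationSubring M, Gauss V (algebraMap R M x) O' → O' = O)
    (hs : Sec k κ R M x Y₁ δ s)
    (hex : ∀ σ : κ ≃ₐ[k] κ, Ine V σ → ∃ γ : M ≃ₐ[R] M, Rel O s σ γ)
    {φ : κ ≃ₐ[k] κ} (hφ : Fro V (Nat.card (IsLocalRing.ResidueField A)) φ) (hφδ : φ δ = δ)
    {h : M} (hh : h ≠ 0) {n : ℕ} {χ : (κ ≃ₐ[k] κ) → κ}
    (hχ : ∀ σ, Ine V σ → σ δ = δ → χ σ ^ (ℓ ^ n) = 1 ∧
      ∀ γ : M ≃ₐ[R] M, Rel O s σ γ → γ h = algebraMap κ M (χ σ) * h)
    {σ : κ ≃ₐ[k] κ} (hσ : Ine V σ) (hσδ : σ δ = δ) :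
    χ (φ * σ * φ⁻¹) = χ σ ^ Nat.card (IsLocalRing.ResidueField A) := by
  refine hKUM ℓ A k κ V ϖ δ m hB φ hφ hφδ n χ (fun σ h1 h2 => (hχ σ h1 h2).1) ?_ ?_ σ hσ hσδ
  · intro σ σ' h1 h2 h1' h2'
    obtain ⟨γ, hγ⟩ := hex σ h1
    obtain ⟨γ', hγ'⟩ := hex σ' h1'
    have h3 := (hχ (σ * σ') (ine_mul h1 h1') (by rw [AlgEquiv.mul_apply, h2', h2])).2 _
      (Rel.mul hO hu hs h1.1 hγ hγ')
    rw [AlgEquiv.mul_apply, (hχ σ' h1' h2').2 γ' hγ', map_mul, gal_const, (hχ σ h1 h2).2 γ hγ,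
      ← mul_assoc, ← map_mul] at h3
    have h4 := mul_right_cancel₀ hh h3
    have h5 := (algebraMap κ M).injective h4
    rw [← h5, mul_comm]
  · obtain ⟨c, hc0, hc⟩ := (hG2 ℓ κ R M x B Y hC V O hO).1 h hh
    obtain ⟨E2, hE2, hE2'⟩ := hs.cont h
    haveI := hE2
    have halg : Algebra.IsAlgebraic k κ := IsAlgClosure.isAlgebraic
    haveI : FiniteDimensional k (IntermediateField.adjoin k {c}) :=
      IntermediateField.adjoin.finiteDimensional (halg.isAlgebraic c).isIntegral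
    refine ⟨IntermediateField.adjoin k {c} ⊔ E2, inferInstance, fun σ hσE h1 h2 => ?_⟩
    rw [IntermediateField.mem_fixingSubgroup_iff] at hσE
    have h3 : σ c = c := hσE c ((le_sup_left : IntermediateField.adjoin k {c} ≤ _)
      (IntermediateField.mem_adjoin_simple_self k c))
    have h4 : s σ h = h := hE2' σ (by
      rw [IntermediateField.mem_fixingSubgroup_iff]
      exact fun y hy => hσE y ((le_sup_right : E2 ≤ _) hy))
    obtain ⟨γ, hγ⟩ := hex σ h1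
    have h5 := hγ _ hc.2.1
    rw [map_div₀, map_div₀, gal_const, hs.const, h3, h4, (hχ σ h1 h2).2 γ hγ] at h5
    have h6 : algebraMap κ M (χ σ) - 1 ∈ O.nonunits := by
      have h7 : algebraMap κ M (χ σ) - 1 = (h / algebraMap κ M c)⁻¹ *
          (algebraMap κ M (χ σ) * h / algebraMap κ M c - h / algebraMap κ M c) := by
        have hc1 : algebraMap κ M c ≠ 0 := by
          rw [Ne, FaithfulSMul.algebraMap_eq_zero_iff]; exact hc0
        field_simp
      rw [h7]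
      exact nu_mul hc.2.2 h5
    have h8 : algebraMap κ M (χ σ) = 1 := by
      refine rou_eq_one (m := ℓ ^ n) ?_ (by rw [← map_pow, (hχ σ h1 h2).1, map_one]) h6
      have := isU_pow (isU_alg hO (isU_ell hB)) n
      rw [map_natCast] at this
      rwa [Nat.cast_pow]
    exact (algebraMap κ M).injective (by rw [h8, map_one])

/-- the weight argument -/
theorem frob_fix' (hB : Base ℓ A k κ V ϖ δ m) (hG2 : S_G2) (hKUM : S_KUM)
    (hC : Cov ℓ κ R M x B Y) (hO : Gauss V (algebraMap R M x) O)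
    (hu : ∀ O' : ValuationSubring M, Gauss V (algebraMap R M x) O' → O' = O)
    (hs : Sec k κ R M x Y₁ δ s)
    (hex : ∀ σ : κ ≃ₐ[k] κ, Ine V σ → ∃ γ : M ≃ₐ[R] M, Rel O s σ γ)
    (hcop : Nat.Coprime (Nat.card (IsLocalRing.ResidueField A)) ℓ)
    {φ : κ ≃ₐ[k] κ} (hφ : Fro V (Nat.card (IsLocalRing.ResidueField A)) φ) (hφδ : φ δ = δ)
    {h : M} (hh : h ≠ 0) {n : ℕ} (hL : h ^ (ℓ ^ n) ∈ LL R V O s δ)
    {γ : M ≃ₐ[R] M} (hγ : γ ∈ GI (R := R) V O s δ) :
    γ (s φ h / h) = s φ h / h := by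
  have hl := isU_ell hB
  have hR := hC.rat
  have hh2 : s φ h ≠ 0 := by rw [Ne, EmbeddingLike.map_eq_zero_iff]; exact hh
  have hL2 : (s φ h) ^ (ℓ ^ n) ∈ LL R V O s δ := by
    rw [← map_pow]
    exact LL_s hO hu hR hs hφ.1 hφδ hL
  obtain ⟨χ₁, hχ₁⟩ := chi_exists hG2 hC hl hO hu hex hh hL
  obtain ⟨χ₂, hχ₂⟩ := chi_exists hG2 hC hl hO hu hex hh2 hL2
  obtain ⟨σ, h1, h2, h3⟩ := hγ
  have hc1 : Ine V (φ * σ * φ⁻¹) := ine_conj hφ.1 h1
  have hc2 : (φ * σ * φ⁻¹) δ = δ := by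
    rw [AlgEquiv.mul_apply, AlgEquiv.mul_apply, fix_inv hφδ, h2, hφδ]
  have h4 := (hχ₂ _ hc1 hc2).2 _ (h3.conj hO hu hR hs hφ.1)
  rw [chi_kum' hB hG2 hKUM hC hO hu hs hex hφ hφδ hh2 hχ₂ h1 h2, conj_apply, s_inv_apply,
    (hχ₁ σ h1 h2).2 γ h3, map_mul, hs.const, frob_rou hl hφ (hχ₁ σ h1 h2).1] at h4
  have h5 := (algebraMap κ M).injective (mul_right_cancel₀ hh2 h4)
  have h6 : χ₁ σ = χ₂ σ := eq_of_pow_eq (pow_pos (Fact.out : ℓ.Prime).pos n) (hχ₁ σ h1 h2).1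
    (hχ₂ σ h1 h2).1 h5 (Nat.Coprime.pow_right n hcop)
  have h7 : algebraMap κ M (χ₂ σ) ≠ 0 := by
    rw [Ne, FaithfulSMul.algebraMap_eq_zero_iff]
    intro h8
    have := (hχ₂ σ h1 h2).1
    rw [h8, zero_pow (pow_pos (Fact.out : ℓ.Prime).pos n).ne'] at this
    exact zero_ne_one this
  rw [map_div₀, (hχ₁ σ h1 h2).2 γ h3, (hχ₂ σ h1 h2).2 γ h3, h6, mul_div_mul_left _ _ h7]

end

end Pool.Agent.H71SC
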