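import Pool.Agent.H71SC.Wgt1
import Pool.Agent.Y157.PS.All

/-!
# The weight argument for elementary abelian coverings, 2
-/

set_option autoImplicit false
set_option linter.all false

open Polynomial FF Pool.Agent.Y157.PS Pool.Agent.Y748.PS

namespace Pool.Agent.H71SC

/-- `ξ ^ m = 1` and `ξ ^ ℓ = 1` imply `ξ = 1` -/
theorem one_of_cop {K : Type} [Field K] {ℓ : ℕ} [Fact ℓ.Prime] {ξ : K} {m : ℤ}
    (hm : ¬ (ℓ : ℤ) ∣ m) (h1 : ξ ^ ℓ = 1) (h2 : ξ ^ m = 1) : ξ = 1 := by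
  have hξ : ξ ≠ 0 := by
    rintro rfl
    rw [zero_pow (Fact.out : ℓ.Prime).ne_zero] at h1
    exact zero_ne_one h1
  have hc : IsCoprime (ℓ : ℤ) m :=
    (Prime.coprime_iff_not_dvd (Nat.prime_iff_prime_int.1 (Fact.out : ℓ.Prime))).2 hm
  obtain ⟨a, b, hab⟩ := hc
  have h3 : ξ ^ (a * (ℓ : ℤ) + b * m) = ξ := by rw [hab, zpow_one]
  rw [← h3, zpow_add₀ hξ, mul_comm a, mul_comm b, zpow_mul, zpow_mul, zpow_natCast, h1, h2,
    one_zpow, one_zpow, one_mul]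

theorem isU_zpow {K : Type} [Field K] {O : ValuationSubring K} {a : K} (h : IsU O a) (n : ℤ) :
    IsU O (a ^ n) := by
  cases n with
  | ofNat n =>
    rw [Int.ofNat_eq_natCast, zpow_natCast]
    exact Pool.Agent.Y748.PS.isU_pow h n
  | negSucc n =>
    rw [zpow_negSucc]
    have := Pool.Agent.Y748.PS.isU_pow h (n + 1)
    exact ⟨inv_ne_zero this.1, this.2.2, by rw [inv_inv]; exact this.2.1⟩

section

variable {A k κ : Type} [CommRing A] [IsDomain A]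
    [IsDiscreteValuationRing A] [Field k] [Field κ] [Algebra A k] [Algebra k κ] [Algebra A κ]
    [IsScalarTower A k κ] [IsFractionRing A k] [CharZero k] [IsAlgClosure k κ]
    [Finite (IsLocalRing.ResidueField A)]

variable {ℓ : ℕ} [Fact ℓ.Prime] {V : ValuationSubring κ} {ϖ : A} {δ δ₁ : κ} {m : ℤ}

/-- an element of the inertia group which fixes `δ₁` fixes every radical of an element of `k` -/
theorem delta_fix (hB : Base ℓ A k κ V ϖ δ₁ m) (hδ : δ ≠ 0)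
    (hd : ∃ d : k, δ ^ ℓ = algebraMap k κ d) {σ : κ ≃ₐ[k] κ} (hσ : Ine V σ) (hσδ : σ δ₁ = δ₁) :
    σ δ = δ := by
  have hp := (Fact.out : ℓ.Prime).pos
  have hl := isU_ell hB
  obtain ⟨d, hd⟩ := hd
  obtain ⟨n, hn⟩ := a_ine A k κ V ϖ hB.mem hB.non hB.irr (δ ^ ℓ) (pow_ne_zero _ hδ)
    (fun σ _ => by rw [hd, σ.commutes])
  have hδ₁ : δ₁ ≠ 0 := hB.δ0
  have hϖ : algebraMap A κ ϖ ≠ 0 := by
    rw [IsScalarTower.algebraMap_apply A k κ, Ne, FaithfulSMul.algebraMap_eq_zero_iff,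
      FaithfulSMul.algebraMap_eq_zero_iff]
    exact hB.irr.ne_zero
  obtain ⟨d₁, hd₁⟩ := hB.δk
  set w : κ := δ ^ m / δ₁ ^ n with hw
  have hw1 : w ^ ℓ = (δ ^ ℓ / algebraMap A κ ϖ ^ n) ^ m / (δ₁ ^ ℓ / algebraMap A κ ϖ ^ m) ^ n := by
    rw [hw, div_pow, div_zpow, div_zpow, ← zpow_natCast, ← zpow_natCast, ← zpow_natCast,
      ← zpow_natCast, ← zpow_mul, ← zpow_mul, ← zpow_mul, ← zpow_mul, ← zpow_mul, ← zpow_mul,
      mul_comm m (ℓ : ℤ), mul_comm n (ℓ : ℤ), mul_comm n m]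
    have h1 : algebraMap A κ ϖ ^ (m * n) ≠ 0 := zpow_ne_zero _ hϖ
    have h2 : δ₁ ^ ((ℓ : ℤ) * n) ≠ 0 := zpow_ne_zero _ hδ₁
    field_simp
  have hwU : IsU V w := by
    refine Pool.Agent.Y748.PS.isU_of_pow hp ?_
    rw [hw1]
    have h1 := isU_zpow hn m
    have h2 := isU_zpow hB.δv n
    exact IsU.div h1 h2
  have hwk : σ (w ^ ℓ) = w ^ ℓ := by
    rw [hw, div_pow, ← zpow_natCast, ← zpow_natCast, ← zpow_mul, ← zpow_mul, mul_comm m, mul_comm n,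
      zpow_mul, zpow_mul, zpow_natCast, zpow_natCast, hd, hd₁, map_div₀, map_zpow₀, map_zpow₀,
      σ.commutes, σ.commutes]
  have hσw : σ w = w := by
    have h1 : σ w / w = 1 := by
      refine rou_eq_one (O := V) (m := ℓ) hl ?_ ?_
      · rw [div_pow, ← map_pow, hwk, div_self (pow_ne_zero _ hwU.1)]
      · have h2 : σ w / w - 1 = w⁻¹ * (σ w - w) := by
          have := hwU.1
          field_simp
        rw [h2]
        exact nu_mul hwU.2.2 (hσ.2 w hwU.2.1)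
    rwa [div_eq_one_iff_eq hwU.1] at h1
  have h3 : (σ δ / δ) ^ ℓ = 1 := by
    rw [div_pow, ← map_pow, hd, σ.commutes, ← hd, div_self (pow_ne_zero _ hδ)]
  have h4 : (σ δ / δ) ^ m = 1 := by
    have h5 : δ ^ m = w * δ₁ ^ n := by
      rw [hw, div_mul_cancel₀ _ (zpow_ne_zero _ hδ₁)]
    rw [div_zpow, ← map_zpow₀, h5, map_mul, hσw, map_zpow₀, hσδ, div_self]
    rw [← h5]
    exact zpow_ne_zero _ hδ
  have h5 := one_of_cop hB.cop h3 h4
  rwa [div_eq_one_iff_eq hδ] at h5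

end

section

variable {κ R M : Type} [Field κ] [Field R] [Field M] [Algebra κ R] [Algebra R M] [Algebra κ M]
  [IsScalarTower κ R M] {x : R}
variable {k : Type} [Field k] [Algebra k κ] {Y : M} {δ δ₁ : κ} {s : (κ ≃ₐ[k] κ) →* RingAut M}

theorem Y_mem_LL' [IsAlgClosed κ] [CharZero κ] {ℓ : ℕ} [Fact ℓ.Prime] {B : Finset κ}
    (hC : Cov ℓ κ R M x B Y) {V : ValuationSubring κ} (hG : Good V B) (hl : IsU V (ℓ : κ))
    (hδ : δ ≠ 0) (hfx : ∀ σ : κ ≃ₐ[k] κ, Ine V σ → σ δ₁ = δ₁ → σ δ = δ) {O : ValuationSubring M} (hO : Gauss V (algebraMap R M x) O)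
    (hs : Sec k κ R M x Y δ s) : Y ∈ LL R V O s δ₁ := by
  have hU := isU_Y hC hG hO
  intro g γ hγ
  obtain ⟨c, hc, hgc⟩ := Y_gal hC hU.1 g
  rw [hgc, map_mul, gal_const]
  congr 1
  obtain ⟨σ, h1, h2, h3⟩ := hγ
  have h4 := h3 Y hU.2.1
  rw [hs.fixy, hfx σ h1 h2, div_self hδ, map_one, one_mul] at h4
  obtain ⟨c', hc', hgc'⟩ := Y_gal hC hU.1 γ
  have h5 : algebraMap κ M c' - 1 ∈ O.nonunits := by
    have h6 : algebraMap κ M c' - 1 = Y⁻¹ * (γ Y - Y) := by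
      rw [hgc']; field_simp [hU.1]
    rw [h6]
    exact nu_mul hU.2.2 h4
  have h7 : algebraMap κ M c' = 1 := by
    refine rou_eq_one (m := ℓ) ?_ (by rw [← map_pow, hc', map_one]) h5
    have := isU_alg hO hl
    rwa [map_natCast] at this
  rw [hgc', h7, one_mul]

end

/-- the weight argument: `s(σ)` acts trivially on the residue field for all `σ` in the inertia
group which fix `δ₁` -/
theorem wgt' (ℓ : ℕ) [Fact ℓ.Prime] (A k κ R M : Type) [CommRing A] [IsDomain A]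
    [IsDiscreteValuationRing A] [Field k] [Field κ] [Algebra A k] [Algebra k κ] [Algebra A κ]
    [IsScalarTower A k κ] [IsFractionRing A k] [CharZero k] [IsAlgClosure k κ]
    [Finite (IsLocalRing.ResidueField A)] [Field R] [Field M] [Algebra κ R] [Algebra R M]
    [Algebra κ M] [IsScalarTower κ R M] (V : ValuationSubring κ) (ϖ : A) (δ₁ : κ) (m : ℤ)
    (hB : Base ℓ A k κ V ϖ δ₁ m) (x : R) (B : Finset κ) (Y : M) (hC : Cov ℓ κ R M x B Y)
    (hGood : Good V B) (F : Type) [Field F] (r : V →+* F) (hr : Res V r) (D : Disc ℓ V r)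
    (s : (κ ≃ₐ[k] κ) →* RingAut M) (Y₁ : M) (hs₁ : Sec k κ R M x Y₁ δ₁ s) (δ : κ) (hδ0 : δ ≠ 0)
    (hδk : ∃ d : k, δ ^ ℓ = algebraMap k κ d) (hs : Sec k κ R M x Y δ s)
    (O : ValuationSubring M) (hO : Gauss V (algebraMap R M x) O)
    (hu : ∀ O' : ValuationSubring M, Gauss V (algebraMap R M x) O' → O' = O)
    : ∀ σ, Ine V σ → σ δ₁ = δ₁ → ∀ z ∈ O, s σ z - z ∈ O.nonunits := by
  haveI : IsAlgClosed κ := IsAlgClosure.isAlgClosed k
  haveI : CharZero κ := charZero_of_injective_algebraMap (algebraMap k κ).injective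
  haveI : CharZero R := charZero_of_injective_algebraMap (algebraMap κ R).injective
  haveI halg : Algebra.IsAlgebraic k κ := IsAlgClosure.isAlgebraic
  have hl := isU_ell hB
  obtain ⟨p, a, hp, hchar, ha, hq, hF, hcop⟩ := res_facts hB hr
  haveI : Fact p.Prime := ⟨hp⟩
  obtain ⟨⟨φ, hφ, hφδ⟩, -⟩ := a_tau ℓ A k κ V ϖ δ₁ m hB
  have hex : ∀ σ : κ ≃ₐ[k] κ, Ine V σ → ∃ γ : M ≃ₐ[R] M, Rel O s σ γ :=
    fun σ hσ => Rel.exists a_g3 hC hO hu hs hσ
  have hY := Y_mem_LL' hC hGood hl hδ0 (fun σ h1 h2 => delta_fix hB hδ0 hδk h1 h2) hO hs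
  have hroot : ∀ h : M, h ^ ℓ ∈ LL R V O s δ₁ → h ∈ LL R V O s δ₁ := by
    intro h hh
    by_cases h0 : h = 0
    · rw [h0]; exact zero_mem _
    intro g γ hγ
    have h1 : g h ≠ 0 := by rw [Ne, EmbeddingLike.map_eq_zero_iff]; exact h0
    have h2 : (g h) ^ ℓ ∈ LL R V O s δ₁ := by
      rw [← map_pow]; exact LL_gal hh g
    obtain ⟨N, hLev, hm1, hYN, hNL, hNs⟩ := exists_level' halg hC hO hu hs₁ hφ.1 hφδ h2 hY
    obtain ⟨g0, m0, w, hg0, hg0m, hw, heq⟩ := a_surj ℓ M N.toSubfield (s φ) hNs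
      (a_divs ℓ κ R M x B Y hC N hLev hYN) (a_fins ℓ κ R M x B Y hC N hLev hYN)
      (a_fixf ℓ κ R M x B Y hC F V r hr hGood hl D p (Nat.card (IsLocalRing.ResidueField A)) a ha hq
        hF O hO hu N hLev hYN (s φ) (φ : κ ≃+* κ) (fun c => hs.const φ c) (hs.fixx φ) hNs hφ.1
        hφ.2) (g h) 1 h1 (by rw [pow_one]; exact hm1)
    rw [heq, map_mul, frob_fix' hB a_g2 a_kum hC hO hu hs₁ hex hcop hφ hφδ hg0 (hNL hg0m) hγ,
      LL_fix (hNL hw) hγ]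
  have hprim : ∃ ζ : R, IsPrimitiveRoot ζ ℓ := by
    haveI : NeZero ℓ := ⟨(Fact.out : ℓ.Prime).ne_zero⟩
    haveI : NeZero (ℓ : κ) := ⟨hl.1⟩
    obtain ⟨ζ, hζ⟩ := HasEnoughRootsOfUnity.exists_primitiveRoot κ ℓ
    exact ⟨algebraMap κ R ζ, hζ.map_of_injective (algebraMap κ R).injective⟩
  have htop := a_prol ℓ R M hprim hC.gal hC.pow (LL R V O s δ₁) hroot
  intro σ hσ hσδ z hz
  obtain ⟨γ, hγ⟩ := hex σ hσ
  have h1 : z ∈ LL R V O s δ₁ := by rw [htop]; trivial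
  have h2 := hγ z hz
  rw [LL_fix h1 ⟨σ, hσ, hσδ, hγ⟩] at h2
  have h3 := neg_mem h2
  rwa [neg_sub] at h3

end Pool.Agent.H71SC
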